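import Pool.Agent.Lib.MP_784a73_co.Defs

/-!
# MP_784a73_co, row A1: basic facts on valid colourings

* `val_mono`, `val_congr`, `val_subset_arcs`: `TransGen.mono`.
* `val_cbar`: `mono D H (cbar c) = mono D H c`.
* `exists_pot`: for `Val D H c` put `p a := #{b | TransGen (mono D H c) b a}`; `mono a b` gives `{b' | b' →+ a} ⊂ {b' | b' →+ b}` (strict:
  `a` is in the second one, not in the first).  Converse `val_of_pot`: `p` increases along `TransGen`.
* `val_of_no_through`: `v ∈ H`, `c` valid on `H.erase v`, and no mono path `v → a ⇝ b → v` with `a ⇝ b` inside `H.erase v`.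
  Potential: let `p` be a potential on `H.erase v`, `|p| < M`; `R := {x | ∃ a, mono D H c v a ∧ ReflTransGen (mono D (H.erase v) c) a x}`;
  new potential `x ∈ R ↦ p x + 2M`, `v ↦ M`, other `x ↦ p x`.  (loops excluded by `hl`.)  Or any other proof.
* `val_update_in`, `val_update_out`: `v` is on no mono closed walk: e.g. from `val_of_no_through` (for `update c v _` use `val_congr` on
  `H.erase v`): no mono arc into `v` (resp. out of `v`).  `val_of_source`, `val_of_sink` similarly.
-/

namespace Pool.Agent.MP_784a73_co

open Relation 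

universe u

set_option linter.unusedSectionVars false

section
variable {V : Type u} [Fintype V] [DecidableEq V] {D : Finset (V × V)} {H Q : Finset V}

theorem a1_tg {r s : V → V → Prop} (h : ∀ x y, r x y → s x y) {a b : V} (hab : TransGen r a b) : TransGen s a b := by
  induction hab with
  | single h1 => exact TransGen.single (h _ _ h1)
  | tail _ h2 ih => exact ih.tail (h _ _ h2)

theorem val_mono {H' : Finset V} (h : H' ⊆ H) {c : V → Bool} (hc : Val D H c) : Val D H' c := by
  intro a ha
  exact hc a (a1_tg (fun x y hxy => ⟨hxy.1, h hxy.2.1, h hxy.2.2.1, hxy.2.2.2⟩) ha)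

theorem val_congr {c d : V → Bool} (h : ∀ v ∈ H, c v = d v) (hc : Val D H c) : Val D H d := by
  intro a ha
  refine hc a (a1_tg (fun x y hxy => ?_) ha)
  refine ⟨hxy.1, hxy.2.1, hxy.2.2.1, ?_⟩
  rw [h x hxy.2.1, h y hxy.2.2.1]
  exact hxy.2.2.2

theorem a1_mono_cbar {c : V → Bool} (a b : V) : mono D H (cbar c) a b ↔ mono D H c a b := by
  unfold mono cbar
  constructor
  · rintro ⟨h1, h2, h3, h4⟩
    exact ⟨h1, h2, h3, by simpa using h4⟩
  · rintro ⟨h1, h2, h3, h4⟩
    exact ⟨h1, h2, h3, by simpa using h4⟩

theorem val_cbar {c : V → Bool} : Val D H (cbar c) ↔ Val D H c := by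
  constructor
  · intro h a ha
    exact h a (a1_tg (fun x y hxy => (a1_mono_cbar x y).2 hxy) ha)
  · intro h a ha
    exact h a (a1_tg (fun x y hxy => (a1_mono_cbar x y).1 hxy) ha)

theorem cbar_cbar (c : V → Bool) : cbar (cbar c) = c := by
  funext v
  simp [cbar]

theorem val_subset_arcs {D' : Finset (V × V)} (h : D' ⊆ D) {c : V → Bool} (hc : Val D H c) : Val D' H c := by
  intro a ha
  exact hc a (a1_tg (fun x y hxy => ⟨h hxy.1, hxy.2⟩) ha)

theorem exists_pot {c : V → Bool} (hc : Val D H c) : ∃ p : V → ℝ, ∀ a b, mono D H c a b → p a < p b := by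
  classical
  refine ⟨fun a => ((Finset.univ.filter fun b => TransGen (mono D H c) b a).card : ℝ), fun a b hab => ?_⟩
  have hlt : (Finset.univ.filter fun x => TransGen (mono D H c) x a).card <
      (Finset.univ.filter fun x => TransGen (mono D H c) x b).card := by
    apply Finset.card_lt_card
    rw [Finset.ssubset_iff_of_subset]
    · refine ⟨a, ?_, ?_⟩
      · simp only [Finset.mem_filter, Finset.mem_univ, true_and]
        exact TransGen.single hab
      · simp only [Finset.mem_filter, Finset.mem_univ, true_and]
        exact hc a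
    · intro x hx
      simp only [Finset.mem_filter, Finset.mem_univ, true_and] at hx ⊢
      exact hx.tail hab
  exact Nat.cast_lt.2 hlt

theorem val_of_pot {c : V → Bool} (p : V → ℝ) (h : ∀ a b, mono D H c a b → p a < p b) : Val D H c := by
  have key : ∀ a b, TransGen (mono D H c) a b → p a < p b := by
    intro a b hab
    induction hab with
    | single h1 => exact h _ _ h1
    | tail _ h2 ih => exact ih.trans (h _ _ h2)
  intro a ha
  exact lt_irrefl _ (key a a ha)

theorem val_of_no_through {v : V} (hv : v ∈ H) (hl : (v, v) ∉ D) {c : V → Bool} (hc : Val D (H.erase v) c)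
    (h : ∀ a b, mono D H c v a → ReflTransGen (mono D (H.erase v) c) a b → ¬ mono D H c b v) : Val D H c := by
  classical
  obtain ⟨p, hp⟩ := exists_pot hc
  obtain ⟨M, hM⟩ : ∃ M : ℝ, ∀ x, |p x| < M := by
    refine ⟨1 + ∑ x, |p x|, fun x => ?_⟩
    have := Finset.single_le_sum (f := fun x => |p x|) (fun i _ => abs_nonneg (p i)) (Finset.mem_univ x)
    have h1 : |p x| ≤ ∑ x, |p x| := this
    linarith
  have hM1 : ∀ x, p x < M := fun x => (abs_lt.1 (hM x)).2
  have hM2 : ∀ x, -M < p x := fun x => (abs_lt.1 (hM x)).1
  have hM0 : 0 < M := (abs_nonneg (p v)).trans_lt (hM v)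
  let R : V → Prop := fun x => ∃ a, mono D H c v a ∧ ReflTransGen (mono D (H.erase v) c) a x
  let q : V → ℝ := fun x => if x = v then M else if R x then p x + 2 * M else p x
  have qv : q v = M := by simp [q]
  have qR : ∀ x, x ≠ v → R x → q x = p x + 2 * M := fun x h1 h2 => by simp [q, h1, h2]
  have qN : ∀ x, x ≠ v → ¬ R x → q x = p x := fun x h1 h2 => by simp [q, h1, h2]
  refine val_of_pot q fun a b hab => ?_
  by_cases ha : a = v
  · subst ha
    have hb : b ≠ a := fun hb => hl (hb ▸ hab.1)
    rw [qv, qR b hb ⟨b, hab, ReflTransGen.refl⟩]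
    linarith [hM2 b]
  · by_cases hb : b = v
    · subst hb
      have hR : ¬ R a := by
        rintro ⟨x, hx1, hx2⟩
        exact h x a hx1 hx2 hab
      rw [qv, qN a ha hR]
      exact hM1 a
    · have hab' : mono D (H.erase v) c a b :=
        ⟨hab.1, Finset.mem_erase.2 ⟨ha, hab.2.1⟩, Finset.mem_erase.2 ⟨hb, hab.2.2.1⟩, hab.2.2.2⟩
      have hlt := hp a b hab'
      by_cases hR : R a
      · have hRb : R b := by
          obtain ⟨x, hx1, hx2⟩ := hR
          exact ⟨x, hx1, hx2.tail hab'⟩
        rw [qR a ha hR, qR b hb hRb]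
        linarith
      · rw [qN a ha hR]
        by_cases hRb : R b
        · rw [qR b hb hRb]
          linarith
        · rw [qN b hb hRb]
          exact hlt

theorem a1_noloop (hD : Ori D) (v : V) : (v, v) ∉ D := fun h => hD v v h h

/-- all in-neighbours of `v` in `H` are equal to `u`; colour `v` opposite to `u` -/
theorem val_update_in (hD : Ori D) {v u : V} (hv : v ∈ H) (hin : inN D H v ⊆ {u}) {c : V → Bool}
    (hc : Val D (H.erase v) c) : Val D H (Function.update c v (!c u)) := by
  have hl := a1_noloop hD v
  refine val_of_no_through hv hl (val_congr (fun x hx => ?_) hc) fun a b _ _ hb => ?_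
  · rw [Function.update_of_ne (Finset.ne_of_mem_erase hx)]
  · have hbu : b = u := by
      have : b ∈ inN D H v := Finset.mem_filter.2 ⟨hb.2.1, hb.1⟩
      simpa using hin this
    have hbv : b ≠ v := fun h => hl (h ▸ hb.1)
    have := hb.2.2.2
    rw [Function.update_of_ne hbv, Function.update_self, hbu] at this
    simp at this

theorem val_update_out (hD : Ori D) {v u : V} (hv : v ∈ H) (hout : outN D H v ⊆ {u}) {c : V → Bool}
    (hc : Val D (H.erase v) c) : Val D H (Function.update c v (!c u)) := by
  have hl := a1_noloop hD v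
  refine val_of_no_through hv hl (val_congr (fun x hx => ?_) hc) fun a b ha _ _ => ?_
  · rw [Function.update_of_ne (Finset.ne_of_mem_erase hx)]
  · have hau : a = u := by
      have : a ∈ outN D H v := Finset.mem_filter.2 ⟨ha.2.2.1, ha.1⟩
      simpa using hout this
    have hav : a ≠ v := fun h => hl (h ▸ ha.1)
    have := ha.2.2.2
    rw [Function.update_of_ne hav, Function.update_self, hau] at this
    simp at this

/-- a source can have any colour -/
theorem val_of_source (hD : Ori D) {v : V} (hin : inN D H v = ∅) {c : V → Bool}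
    (hc : Val D (H.erase v) c) : Val D H c := by
  by_cases hv : v ∈ H
  · refine val_of_no_through hv (a1_noloop hD v) hc fun a b _ _ hb => ?_
    have : b ∈ inN D H v := Finset.mem_filter.2 ⟨hb.2.1, hb.1⟩
    rw [hin] at this
    simp at this
  · rwa [Finset.erase_eq_of_notMem hv] at hc

theorem val_of_sink (hD : Ori D) {v : V} (hout : outN D H v = ∅) {c : V → Bool}
    (hc : Val D (H.erase v) c) : Val D H c := by
  by_cases hv : v ∈ H
  · refine val_of_no_through hv (a1_noloop hD v) hc fun a b ha _ _ => ?_
    have : a ∈ outN D H v := Finset.mem_filter.2 ⟨ha.2.2.1, ha.1⟩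
    rw [hout] at this
    simp at this
  · rwa [Finset.erase_eq_of_notMem hv] at hc

end

end Pool.Agent.MP_784a73_co
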