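import Pool.Agent.Lib.MP_784a73_co.A1

/-!
# MP_784a73_co, row A2: gluing

* `glue`: `c`, `c'` are admissible on `Z` (`val_mono`); take the path `c = d₀, …, d_k = c'` in `Z` (`hm`).  By induction along `ReflTransGen`:
  `Reach D H Q c (fun v => if v ∈ Z then d_i v else c v)`; these are admissible by `hval` (and `val_congr`; for `q ∈ Q ∩ Z` use the
  admissibility of `d_i`, for `q ∈ Q \ Z` that of `c`).  The last one agrees with `c'` on `H`, one more `Step`.
* `mix_of_split`: `glue` twice: first change `A` (`Z = A`), from `c` to `(c' on A, c on B)`, then `B`.  `hval`: if `d` is valid on `A` and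
  `d = c` on `B`, then it is valid on `H`: a mono walk in `H` stays in `A` or in `B` (no arcs between).
* `mix_small`: one `Step` (the two colourings agree on `H` except at the single vertex of `H`).
-/

namespace Pool.Agent.MP_784a73_co

open Relation 

universe u

set_option linter.unusedSectionVars false

section
variable {V : Type u} [Fintype V] [DecidableEq V] {D : Finset (V × V)} {H Q : Finset V}

theorem reach_refl (c : V → Bool) : Reach D H Q c c := ReflTransGen.refl

theorem step_symm {c c' : V → Bool} (h : Step D H Q c c') : Step D H Q c' c := by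
  obtain ⟨a, b, v, hv⟩ := h
  exact ⟨b, a, v, fun w hw hne => (hv w hw hne).symm⟩

theorem reach_symm {c c' : V → Bool} (h : Reach D H Q c c') : Reach D H Q c' c := by
  unfold Reach at *
  induction h with
  | refl => exact ReflTransGen.refl
  | tail _ h2 ih => exact ReflTransGen.head (step_symm h2) ih

theorem reach_trans {c c' c'' : V → Bool} (h : Reach D H Q c c') (h' : Reach D H Q c' c'') : Reach D H Q c c'' :=
  ReflTransGen.trans h h'

/-- admissible colourings that agree on `H` are joined -/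
theorem reach_of_eq {c c' : V → Bool} (hc : Adm D H Q c) (h : ∀ v ∈ H, c v = c' v) : Reach D H Q c c' := by
  rcases isEmpty_or_nonempty V with hV | ⟨⟨v⟩⟩
  · have : c = c' := funext fun v => (hV.false v).elim
    rw [this]
    exact ReflTransGen.refl
  · refine ReflTransGen.single ⟨hc, ⟨val_congr h hc.1, fun q hq hqH => ?_⟩, v, fun w hw _ => h w hw⟩
    rw [← h q hqH]
    exact hc.2 q hq hqH

theorem reach_cbar {c c' : V → Bool} (h : Reach D H ∅ c c') : Reach D H ∅ (cbar c) (cbar c') := by
  unfold Reach at *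
  induction h with
  | refl => exact ReflTransGen.refl
  | tail _ hab ih =>
    refine ReflTransGen.tail ih ?_
    obtain ⟨ha, hb, v, hv⟩ := hab
    refine ⟨⟨val_cbar.2 ha.1, fun q hq => absurd hq (Finset.notMem_empty q)⟩,
      ⟨val_cbar.2 hb.1, fun q hq => absurd hq (Finset.notMem_empty q)⟩, v, fun w hw hne => ?_⟩
    simp only [cbar, hv w hw hne]

/-- forget the pins -/
theorem reach_empty {c c' : V → Bool} (h : Reach D H Q c c') : Reach D H ∅ c c' := by
  unfold Reach at *
  induction h with
  | refl => exact ReflTransGen.refl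
  | tail _ hab ih =>
    refine ReflTransGen.tail ih ?_
    obtain ⟨ha, hb, v, hv⟩ := hab
    exact ⟨⟨ha.1, fun q hq => absurd hq (Finset.notMem_empty q)⟩,
      ⟨hb.1, fun q hq => absurd hq (Finset.notMem_empty q)⟩, v, hv⟩

theorem adm_of_reach {c c' : V → Bool} (h : Reach D H Q c c') (hc : Adm D H Q c) : Adm D H Q c' := by
  unfold Reach at h
  cases h with
  | refl => exact hc
  | tail _ h2 => exact h2.2.1

theorem adm_mono {Z : Finset V} (hZ : Z ⊆ H) {c : V → Bool} (hc : Adm D H Q c) : Adm D Z Q c :=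
  ⟨val_mono hZ hc.1, fun q hq hqZ => hc.2 q hq (hZ hqZ)⟩

theorem glue {Z : Finset V} (hZ : Z ⊆ H) {c c' : V → Bool} (hm : Mix D Z Q)
    (hval : ∀ d, Val D Z d → (∀ v ∈ H, v ∉ Z → d v = c v) → Val D H d)
    (hc : Adm D H Q c) (hc' : Adm D H Q c') (heq : ∀ v ∈ H, v ∉ Z → c' v = c v) : Reach D H Q c c' := by
  classical
  have hadm : ∀ d, Adm D Z Q d → Adm D H Q (fun v => if v ∈ Z then d v else c v) := by
    intro d hd
    refine ⟨hval _ (val_congr (fun v hv => ?_) hd.1) (fun v _ hvZ => ?_), fun q hq hqH => ?_⟩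
    · simp [hv]
    · simp [hvZ]
    · by_cases hqZ : q ∈ Z
      · simpa [hqZ] using hd.2 q hq hqZ
      · simpa [hqZ] using hc.2 q hq hqH
  have key : ∀ d, Reach D Z Q c d → Reach D H Q c (fun v => if v ∈ Z then d v else c v) := by
    intro d hd
    unfold Reach at hd
    induction hd with
    | refl =>
      have : (fun v => if v ∈ Z then c v else c v) = c := by
        funext v; simp
      rw [this]
      exact ReflTransGen.refl
    | tail _ h2 ih =>
      refine ReflTransGen.tail ih ?_
      obtain ⟨ha, hb, v, hv⟩ := h2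
      refine ⟨hadm _ ha, hadm _ hb, v, fun w hw hne => ?_⟩
      by_cases hwZ : w ∈ Z
      · simp only [hwZ, if_true]
        exact hv w hwZ hne
      · simp only [hwZ, if_false]
  have h1 := key c' (hm c c' (adm_mono hZ hc) (adm_mono hZ hc'))
  refine reach_trans h1 (reach_of_eq (hadm c' (adm_mono hZ hc')) fun v hv => ?_)
  by_cases hvZ : v ∈ Z
  · simp [hvZ]
  · simp [hvZ, heq v hv hvZ]

theorem val_union {A B : Finset V} (hU : A ∪ B = H) (hd : Disjoint A B)
    (hno : ∀ e ∈ D, ¬ ((e.1 ∈ A ∧ e.2 ∈ B) ∨ (e.1 ∈ B ∧ e.2 ∈ A))) {d : V → Bool} (hA : Val D A d) (hB : Val D B d) :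
    Val D H d := by
  classical
  obtain ⟨p, hp⟩ := exists_pot hA
  obtain ⟨q, hq⟩ := exists_pot hB
  refine val_of_pot (fun v => if v ∈ A then p v else q v) fun a b hab => ?_
  obtain ⟨h1, h2, h3, h4⟩ := hab
  rw [← hU, Finset.mem_union] at h2 h3
  have hAB : ∀ v, v ∈ B → v ∉ A := fun v hvB hvA => (Finset.disjoint_left.1 hd) hvA hvB
  rcases h2 with h2 | h2 <;> rcases h3 with h3 | h3
  · simp only [h2, h3, if_true]
    exact hp a b ⟨h1, h2, h3, h4⟩
  · exact absurd (Or.inl ⟨h2, h3⟩) (hno _ h1)
  · exact absurd (Or.inr ⟨h2, h3⟩) (hno _ h1)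
  · simp only [hAB a h2, hAB b h3, if_false]
    exact hq a b ⟨h1, h2, h3, h4⟩

theorem mix_of_split {A B : Finset V} (hU : A ∪ B = H) (hd : Disjoint A B)
    (hno : ∀ e ∈ D, ¬ ((e.1 ∈ A ∧ e.2 ∈ B) ∨ (e.1 ∈ B ∧ e.2 ∈ A))) (hA : Mix D A Q) (hB : Mix D B Q) : Mix D H Q := by
  classical
  intro c c' hc hc'
  have hAH : A ⊆ H := hU ▸ Finset.subset_union_left
  have hBH : B ⊆ H := hU ▸ Finset.subset_union_right
  have hAB : ∀ v, v ∈ B → v ∉ A := fun v hvB hvA => (Finset.disjoint_left.1 hd) hvA hvB
  have hmem : ∀ v ∈ H, v ∈ A ∨ v ∈ B := fun v hv => by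
    rw [← hU, Finset.mem_union] at hv
    exact hv
  have he : Adm D H Q (fun v => if v ∈ A then c' v else c v) := by
    refine ⟨val_union hU hd hno (val_congr (fun v hv => ?_) (val_mono hAH hc'.1))
      (val_congr (fun v hv => ?_) (val_mono hBH hc.1)), fun q hq hqH => ?_⟩
    · simp [hv]
    · simp [hAB v hv]
    · by_cases hqA : q ∈ A
      · simpa [hqA] using hc'.2 q hq hqH
      · simpa [hqA] using hc.2 q hq hqH
  refine reach_trans (c' := fun v => if v ∈ A then c' v else c v) ?_ ?_
  · refine glue hAH hA (fun d hdv hdc => ?_) hc he (fun v _ hvA => by simp [hvA])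
    exact val_union hU hd hno hdv (val_congr (fun v hv => (hdc v (hBH hv) (hAB v hv)).symm) (val_mono hBH hc.1))
  · refine glue hBH hB (fun d hdv hdc => ?_) he hc' (fun v hv hvB => ?_)
    · refine val_union hU hd hno (val_congr (fun v hv => ?_) (val_mono hAH hc'.1)) hdv
      rw [hdc v (hAH hv) (fun hvB => hAB v hvB hv)]
      simp [hv]
    · have hvA : v ∈ A := (hmem v hv).resolve_right hvB
      simp [hvA]

theorem mix_small (hH : H.card ≤ 1) : Mix D H Q := by
  intro c c' hc hc'
  rcases H.eq_empty_or_nonempty with rfl | ⟨v, hv⟩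
  · exact reach_of_eq hc fun v hv => absurd hv (Finset.notMem_empty v)
  · exact ReflTransGen.single ⟨hc, hc', v, fun w hw hne => absurd (Finset.card_le_one.1 hH w hw v hv) hne⟩

end

end Pool.Agent.MP_784a73_co
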