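import Pool.Agent.Lib.MP_784a73_co.Defs

/-!
# MP_784a73_co, row B1: dimensions of kernels

* `K_restrict`: restrict the parameters: `K` only depends on `s` on arcs of `D[H]` (not needed).
* `finrank_K_mono`: Let `W := K D H' r s × ({v // v ∈ H \ H'} → ℝ) × ({v // v ∈ H \ H'} → ℝ)`.  Linear injective map `ψ : W → Vec V`,
  `ψ (x, g, h) = x + (g, h extended by 0)`.  Linear map `L : W → ({e // e ∈ arcs D H \ arcs D H'} → ℝ)`,
  `L w e = (ψ w).2 e.2 - (ψ w).2 e.1 - s.1 e * (ψ w).1 e.1 - s.2 e * (ψ w).1 e.2`.  `ψ` maps `ker L` injectively into `K D H r s`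
  (for arcs inside `H'` only the part `x` matters).  `finrank W = finrank K' + 2 (|H| - |H'|) ≤ finrank (ker L) + (eN D H - eN D H')`.
* `finrank_K_lower`: `H' = {r}`: `K D {r} r s` contains `(Pi.single r 1, 0)` (no loop), so has finrank ≥ 1, `eN D {r} = 0`.
-/

namespace Pool.Agent.MP_784a73_co

open Relation 

universe u

set_option linter.unusedSectionVars false

section
variable {V : Type u} [Fintype V] [DecidableEq V] {D : Finset (V × V)} {H Q : Finset V}

/-- extension by zero from a finset -/
noncomputable def b1ext (S : Finset V) : ({v // v ∈ S} → ℝ) →ₗ[ℝ] (V → ℝ) where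
  toFun g := fun v => if h : v ∈ S then g ⟨v, h⟩ else 0
  map_add' g g' := by
    funext v
    by_cases h : v ∈ S <;> simp [h]
  map_smul' t g := by
    funext v
    by_cases h : v ∈ S <;> simp [h]

theorem b1ext_mem {S : Finset V} (g : {v // v ∈ S} → ℝ) {v : V} (h : v ∈ S) :
    b1ext S g v = g ⟨v, h⟩ := by
  simp [b1ext, h]

theorem b1ext_not {S : Finset V} (g : {v // v ∈ S} → ℝ) {v : V} (h : v ∉ S) :
    b1ext S g v = 0 := by
  simp [b1ext, h]

/-- the map `ψ` -/
noncomputable def b1psi (D : Finset (V × V)) (H' : Finset V) (r : V) (s : Par V) (S : Finset V) :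
    (K D H' r s × ({v // v ∈ S} → ℝ) × ({v // v ∈ S} → ℝ)) →ₗ[ℝ] Vec V :=
  ((K D H' r s).subtype.comp (LinearMap.fst ℝ _ _)) +
    (((b1ext S).comp ((LinearMap.fst ℝ _ _).comp (LinearMap.snd ℝ _ _))).prod
      ((b1ext S).comp ((LinearMap.snd ℝ _ _).comp (LinearMap.snd ℝ _ _))))

theorem b1psi_1 (D : Finset (V × V)) (H' : Finset V) (r : V) (s : Par V) (S : Finset V)
    (w : K D H' r s × ({v // v ∈ S} → ℝ) × ({v // v ∈ S} → ℝ)) (v : V) :
    (b1psi D H' r s S w).1 v = w.1.1.1 v + b1ext S w.2.1 v := by
  simp [b1psi]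

theorem b1psi_2 (D : Finset (V × V)) (H' : Finset V) (r : V) (s : Par V) (S : Finset V)
    (w : K D H' r s × ({v // v ∈ S} → ℝ) × ({v // v ∈ S} → ℝ)) (v : V) :
    (b1psi D H' r s S w).2 v = w.1.1.2 v + b1ext S w.2.2 v := by
  simp [b1psi]

/-- the arc functional -/
noncomputable def b1arc (s : Par V) (T : Finset (V × V)) : Vec V →ₗ[ℝ] ({e // e ∈ T} → ℝ) where
  toFun x := fun e => x.2 e.1.2 - x.2 e.1.1 - s.1 e.1 * x.1 e.1.1 - s.2 e.1 * x.1 e.1.2
  map_add' x y := by
    funext e
    simp only [Prod.fst_add, Prod.snd_add, Pi.add_apply]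
    ring
  map_smul' t x := by
    funext e
    simp only [Prod.smul_fst, Prod.smul_snd, Pi.smul_apply, smul_eq_mul, RingHom.id_apply]
    ring

theorem finrank_K_mono {H' : Finset V} {r : V} (hr : r ∈ H') (hH : H' ⊆ H) (s : Par V) :
    Module.finrank ℝ (K D H' r s) + 2 * H.card + eN D H' ≤ Module.finrank ℝ (K D H r s) + 2 * H'.card + eN D H := by
  classical
  set S := H \ H' with hS
  set T := arcs D H \ arcs D H' with hT
  set ψ := b1psi D H' r s S with hψ
  set L := (b1arc s T).comp ψ with hL
  have hsub : arcs D H' ⊆ arcs D H := by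
    intro e he
    simp only [arcs, Finset.mem_filter] at he ⊢
    exact ⟨he.1, hH he.2.1, hH he.2.2⟩
  have hSc : S.card + H'.card = H.card := by
    rw [hS]; exact Finset.card_sdiff_add_card_eq_card hH
  have hTc : T.card + eN D H' = eN D H := by
    rw [hT]; exact Finset.card_sdiff_add_card_eq_card hsub
  have key : ∀ w ∈ LinearMap.ker L, ψ w ∈ K D H r s := by
    intro w hw
    rw [LinearMap.mem_ker] at hw
    have hx := w.1.2
    rw [mem_K] at hx
    obtain ⟨x1, x2, x3⟩ := hx
    rw [mem_K]
    refine ⟨fun v hv => ?_, ?_, fun e he h1 h2 => ?_⟩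
    · have hv' : v ∉ H' := fun h => hv (hH h)
      have hvS : v ∉ S := fun h => hv (Finset.mem_sdiff.1 h).1
      rw [hψ, b1psi_1, b1psi_2, b1ext_not _ hvS, b1ext_not _ hvS, (x1 v hv').1, (x1 v hv').2]
      simp
    · have hrS : r ∉ S := fun h => (Finset.mem_sdiff.1 h).2 hr
      rw [hψ, b1psi_2, b1ext_not _ hrS, x2]
      simp
    · by_cases h3 : e.1 ∈ H' ∧ e.2 ∈ H'
      · have n1 : e.1 ∉ S := fun h => (Finset.mem_sdiff.1 h).2 h3.1
        have n2 : e.2 ∉ S := fun h => (Finset.mem_sdiff.1 h).2 h3.2
        rw [hψ, b1psi_1, b1psi_1, b1psi_2, b1psi_2, b1ext_not _ n1, b1ext_not _ n1,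
          b1ext_not _ n2, b1ext_not _ n2]
        have := x3 e he h3.1 h3.2
        linear_combination this
      · have heT : e ∈ T := by
          rw [hT, Finset.mem_sdiff]
          refine ⟨?_, fun h => h3 ?_⟩
          · simp only [arcs, Finset.mem_filter]; exact ⟨he, h1, h2⟩
          · simp only [arcs, Finset.mem_filter] at h; exact h.2
        have := congrFun hw ⟨e, heT⟩
        simp only [hL, LinearMap.comp_apply, b1arc, LinearMap.coe_mk, AddHom.coe_mk,
          Pi.zero_apply] at this
        linear_combination this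
  have hinj : Function.Injective ψ := by
    rw [injective_iff_map_eq_zero]
    intro w hw
    have hx := w.1.2
    rw [mem_K] at hx
    obtain ⟨x1, x2, x3⟩ := hx
    have e1 : ∀ v, w.1.1.1 v + b1ext S w.2.1 v = 0 := fun v => by
      rw [← b1psi_1 D H' r s S w v, ← hψ, hw]; rfl
    have e2 : ∀ v, w.1.1.2 v + b1ext S w.2.2 v = 0 := fun v => by
      rw [← b1psi_2 D H' r s S w v, ← hψ, hw]; rfl
    have g0 : w.2.1 = 0 := by
      funext v
      have hv : v.1 ∉ H' := (Finset.mem_sdiff.1 v.2).2
      have := e1 v.1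
      rw [(x1 v.1 hv).1, b1ext_mem _ v.2, zero_add] at this
      simpa using this
    have h0 : w.2.2 = 0 := by
      funext v
      have hv : v.1 ∉ H' := (Finset.mem_sdiff.1 v.2).2
      have := e2 v.1
      rw [(x1 v.1 hv).2, b1ext_mem _ v.2, zero_add] at this
      simpa using this
    have hx0 : w.1 = 0 := by
      apply Subtype.ext
      apply Prod.ext
      · funext v
        have := e1 v
        rw [g0, map_zero] at this
        simpa using this
      · funext v
        have := e2 v
        rw [h0, map_zero] at this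
        simpa using this
    exact Prod.ext hx0 (Prod.ext g0 h0)
  have r1 : Module.finrank ℝ (LinearMap.ker L) ≤ Module.finrank ℝ (K D H r s) := by
    let φ : LinearMap.ker L →ₗ[ℝ] K D H r s :=
      (ψ.comp (LinearMap.ker L).subtype).codRestrict (K D H r s) fun w => key w.1 w.2
    refine LinearMap.finrank_le_finrank_of_injective (f := φ) ?_
    intro a b hab
    have := congrArg Subtype.val hab
    simp only [φ] at this
    exact Subtype.ext (hinj this)
  have r2 := LinearMap.finrank_range_add_finrank_ker L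
  have r3 : Module.finrank ℝ (LinearMap.range L) ≤ T.card := by
    have := Submodule.finrank_le (LinearMap.range L)
    rw [Module.finrank_fintype_fun_eq_card, Fintype.card_coe] at this
    exact this
  rw [Module.finrank_prod, Module.finrank_prod, Module.finrank_fintype_fun_eq_card,
    Fintype.card_coe] at r2
  omega

theorem finrank_K_lower (hD : Ori D) {r : V} (hr : r ∈ H) (s : Par V) :
    2 * H.card ≤ Module.finrank ℝ (K D H r s) + 1 + eN D H := by
  classical
  have h1 := finrank_K_mono (D := D) (H := H) (H' := {r}) (Finset.mem_singleton_self r)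
    (Finset.singleton_subset_iff.2 hr) s
  have hno : (r, r) ∉ D := fun h => hD r r h h
  have hx : ((Pi.single r 1, 0) : Vec V) ∈ K D {r} r s := by
    rw [mem_K]
    refine ⟨fun v hv => ?_, rfl, fun e he h1 h2 => ?_⟩
    · rw [Finset.mem_singleton] at hv
      simp [Pi.single_eq_of_ne hv]
    · exfalso
      rw [Finset.mem_singleton] at h1 h2
      obtain ⟨a, b⟩ := e
      simp only at h1 h2
      subst h1 h2
      exact hno he
  have h2 : 0 < Module.finrank ℝ (K D {r} r s) := by
    rw [Module.finrank_pos_iff_exists_ne_zero]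
    refine ⟨⟨_, hx⟩, fun h => ?_⟩
    have := congrArg (fun y : K D {r} r s => y.1.1 r) h
    simp at this
  rw [Finset.card_singleton] at h1
  omega

end

end Pool.Agent.MP_784a73_co
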