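import Pool.Agent.Lib.MP_784a73_co.A1

/-!
# MP_784a73_co, row B2: zero sets of kernel vectors

* `zero_set`: put `Z = {f = 0}`.  Let `TransGen (mono D H d) a a`, colour `k = d a`.  Put `g := π` if `k = true`, `g := -π` otherwise.
  By induction along `TransGen (mono D H d) a b`: `d b = d a`, `g a ≤ g b`, and (`g a = g b → TransGen (mono D Z d) a b`):
  for an arc `x → y` of colour `true`, `f x, f y ≥ 0` (by `hsg`), so `π y - π x = α f x + β f y ≥ 0` with equality iff `f x = f y = 0`.
  Apply with `b = a`: contradiction to `hd`.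
* `K_eq_zero`: `A = {v ∈ H | π v = 0} ∋ r`, `B = {v ∈ H | π v ≠ 0}`; an arc between `A` and `B` contradicts `π b - π a = 0`.  So `B = ∅`.
-/

namespace Pool.Agent.MP_784a73_co

open Relation 

universe u

set_option linter.unusedSectionVars false

section
variable {V : Type u} [Fintype V] [DecidableEq V] {D : Finset (V × V)} {H Q : Finset V}

theorem zero_set {r : V} {s : Par V} (hs : Pos s) {x : Vec V} (hx : x ∈ K D H r s) {d : V → Bool}
    (hd : Val D (H.filter fun v => x.1 v = 0) d) (hsg : ∀ v ∈ H, x.1 v ≠ 0 → (d v = true ↔ 0 < x.1 v)) : Val D H d := by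
  intro a ha
  obtain ⟨_, _, hK⟩ := hx
  set t : ℝ := if d a = true then 1 else -1 with ht
  have ht0 : t ≠ 0 := by
    rw [ht]; split_ifs <;> norm_num
  have hF : ∀ v ∈ H, d v = d a → 0 ≤ t * x.1 v := by
    intro v hv hva
    by_cases h0 : x.1 v = 0
    · rw [h0]; simp
    · have h1 := hsg v hv h0
      rw [hva] at h1
      rw [ht]
      split_ifs with hc
      · have := h1.mp hc
        linarith
      · have h2 : ¬ 0 < x.1 v := fun h => hc (h1.mpr h)
        push Not at h2
        linarith
  have harc : ∀ u v, mono D H d u v → d u = d a →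
      t * x.2 u ≤ t * x.2 v ∧ (t * x.2 u = t * x.2 v → mono D (H.filter fun v => x.1 v = 0) d u v) := by
    rintro u v ⟨h1, h2, h3, h4⟩ hu
    have hk := hK (u, v) h1 h2 h3
    have hs1 := (hs (u, v)).1
    have hs2 := (hs (u, v)).2
    have hFu := hF u h2 hu
    have hFv := hF v h3 (h4 ▸ hu)
    have e1 : t * x.2 v - t * x.2 u = s.1 (u, v) * (t * x.1 u) + s.2 (u, v) * (t * x.1 v) := by
      have : x.2 v - x.2 u = s.1 (u, v) * x.1 u + s.2 (u, v) * x.1 v := hk
      linear_combination t * this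
    have e2 : 0 ≤ s.1 (u, v) * (t * x.1 u) := mul_nonneg hs1.le hFu
    have e3 : 0 ≤ s.2 (u, v) * (t * x.1 v) := mul_nonneg hs2.le hFv
    refine ⟨by linarith, fun heq => ?_⟩
    have e4 : s.1 (u, v) * (t * x.1 u) = 0 := by linarith
    have e5 : s.2 (u, v) * (t * x.1 v) = 0 := by linarith
    have f1 : x.1 u = 0 := by
      rcases mul_eq_zero.mp e4 with h | h
      · exact absurd h hs1.ne'
      · exact (mul_eq_zero.mp h).resolve_left ht0
    have f2 : x.1 v = 0 := by
      rcases mul_eq_zero.mp e5 with h | h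
      · exact absurd h hs2.ne'
      · exact (mul_eq_zero.mp h).resolve_left ht0
    exact ⟨h1, Finset.mem_filter.mpr ⟨h2, f1⟩, Finset.mem_filter.mpr ⟨h3, f2⟩, h4⟩
  have key : ∀ b, TransGen (mono D H d) a b → d b = d a ∧ t * x.2 a ≤ t * x.2 b ∧
      (t * x.2 a = t * x.2 b → TransGen (mono D (H.filter fun v => x.1 v = 0) d) a b) := by
    intro b hb
    induction hb with
    | single h =>
      have h1 := harc _ _ h rfl
      exact ⟨h.2.2.2.symm, h1.1, fun heq => TransGen.single (h1.2 heq)⟩
    | tail _ h ih =>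
      obtain ⟨i1, i2, i3⟩ := ih
      have h1 := harc _ _ h i1
      refine ⟨h.2.2.2.symm.trans i1, i2.trans h1.1, fun heq => ?_⟩
      have j1 := h1.1
      exact (i3 (le_antisymm i2 (by linarith))).tail (h1.2 (le_antisymm j1 (by linarith)))
  exact hd a ((key a ha).2.2 rfl)

/-- on a connected `H` a kernel vector with `f = 0` is `0` -/
theorem K_eq_zero {r : V} (hr : r ∈ H) (hconn : Conn D H) {s : Par V} {x : Vec V} (hx : x ∈ K D H r s)
    (h0 : ∀ v ∈ H, x.1 v = 0) : x = 0 := by
  obtain ⟨h1, h2, h3⟩ := hx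
  have hB : (H.filter fun v => x.2 v ≠ 0) = ∅ := by
    by_contra hne
    have hne' := Finset.nonempty_iff_ne_empty.mpr hne
    obtain ⟨e, he, hcase⟩ := hconn (H.filter fun v => x.2 v = 0) (H.filter fun v => x.2 v ≠ 0)
      (Finset.filter_union_filter_not_eq _ _)
      (Finset.disjoint_filter_filter_not _ _ _) ⟨r, Finset.mem_filter.mpr ⟨hr, h2⟩⟩ hne'
    rcases hcase with ⟨ha, hb⟩ | ⟨ha, hb⟩
    · rw [Finset.mem_filter] at ha hb
      have := h3 e he ha.1 hb.1
      rw [h0 _ ha.1, h0 _ hb.1, ha.2] at this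
      apply hb.2
      linarith
    · rw [Finset.mem_filter] at ha hb
      have := h3 e he ha.1 hb.1
      rw [h0 _ ha.1, h0 _ hb.1, hb.2] at this
      apply ha.2
      linarith
  have hpi : ∀ v, x.2 v = 0 := by
    intro v
    by_cases hv : v ∈ H
    · by_contra hne
      have : v ∈ (H.filter fun v => x.2 v ≠ 0) := Finset.mem_filter.mpr ⟨hv, hne⟩
      rw [hB] at this
      simp at this
    · exact (h1 v hv).2
  have hf : ∀ v, x.1 v = 0 := by
    intro v
    by_cases hv : v ∈ H
    · exact h0 v hv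
    · exact (h1 v hv).1
  ext v
  · exact hf v
  · exact hpi v

end

end Pool.Agent.MP_784a73_co
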