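import Pool.Agent.Lib.MP_784a73_co.A1

/-!
# MP_784a73_co, row B2b: realisation of colourings by kernel vectors

* `exists_coeff`: cases on the signs of `x`, `y`.
* `realise`: potential `p` (`exists_pot`), `f v := ±1` by colour on `H` (`0` off `H`), `π v := p v` (`true`) / `- p v` (`false`), then subtract
  the constant `π r` on `H` and put `0` off `H`.  For each arc `(a,b)` in `H` choose `α, β > 0` with `π b - π a = α f a + β f b` (`choose`):
  `exists_coeff`.  For other pairs take `α = β = 1`.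
-/

namespace Pool.Agent.MP_784a73_co

open Relation 

universe u

set_option linter.unusedSectionVars false

section
variable {V : Type u} [Fintype V] [DecidableEq V] {D : Finset (V × V)} {H Q : Finset V}

theorem exists_coeff (x y t : ℝ) (h1 : 0 ≤ x → 0 ≤ y → (x ≠ 0 ∨ y ≠ 0) → 0 < t) (h2 : x ≤ 0 → y ≤ 0 → (x ≠ 0 ∨ y ≠ 0) → t < 0)
    (h0 : x ≠ 0 ∨ y ≠ 0) : ∃ α β : ℝ, 0 < α ∧ 0 < β ∧ t = α * x + β * y := by
  rcases lt_trichotomy x 0 with hx | hx | hx <;> rcases lt_trichotomy y 0 with hy | hy | hy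
  · have ht := h2 hx.le hy.le h0
    refine ⟨t / (2 * x), t / (2 * y), div_pos_of_neg_of_neg ht (by linarith),
      div_pos_of_neg_of_neg ht (by linarith), ?_⟩
    have := hx.ne
    have := hy.ne
    field_simp
    ring
  · have ht := h2 hx.le hy.le h0
    refine ⟨t / x, 1, div_pos_of_neg_of_neg ht hx, one_pos, ?_⟩
    have := hx.ne
    rw [hy]
    field_simp
    ring
  · refine ⟨(|t| + 1) / (-x), (t - (|t| + 1) / (-x) * x) / y, ?_, ?_, ?_⟩
    · exact div_pos (by positivity) (by linarith)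
    · refine div_pos ?_ hy
      have : (|t| + 1) / (-x) * x = -(|t| + 1) := by
        have := hx.ne
        field_simp
      rw [this]
      linarith [neg_abs_le t]
    · have := hy.ne'
      field_simp
      ring
  · have ht := h2 hx.le hy.le h0
    refine ⟨1, t / y, one_pos, div_pos_of_neg_of_neg ht hy, ?_⟩
    have := hy.ne
    rw [hx]
    field_simp
    ring
  · exact absurd h0 (by simp [hx, hy])
  · have ht := h1 hx.ge hy.le h0
    refine ⟨1, t / y, one_pos, div_pos ht hy, ?_⟩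
    have := hy.ne'
    rw [hx]
    field_simp
    ring
  · refine ⟨(t - (|t| + 1) / (-y) * y) / x, (|t| + 1) / (-y), ?_, ?_, ?_⟩
    · refine div_pos ?_ hx
      have : (|t| + 1) / (-y) * y = -(|t| + 1) := by
        have := hy.ne
        field_simp
      rw [this]
      linarith [neg_abs_le t]
    · exact div_pos (by positivity) (by linarith)
    · have := hx.ne'
      field_simp
      ring
  · have ht := h1 hx.le hy.ge h0
    refine ⟨t / x, 1, div_pos ht hx, one_pos, ?_⟩
    have := hx.ne'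
    rw [hy]
    field_simp
    ring
  · have ht := h1 hx.le hy.le h0
    refine ⟨t / (2 * x), t / (2 * y), div_pos ht (by linarith), div_pos ht (by linarith), ?_⟩
    have := hx.ne'
    have := hy.ne'
    field_simp
    ring

/-- a function `f` on `H` with a compatible potential is realised by a kernel vector -/
theorem realise_aux {r : V} (hr : r ∈ H) (f p : V → ℝ) (hf : ∀ v, v ∉ H → f v = 0)
    (h : ∀ a b, (a, b) ∈ D → a ∈ H → b ∈ H →
      (0 ≤ f a → 0 ≤ f b → (f a ≠ 0 ∨ f b ≠ 0) → 0 < p b - p a) ∧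
      (f a ≤ 0 → f b ≤ 0 → (f a ≠ 0 ∨ f b ≠ 0) → p b - p a < 0) ∧ (f a ≠ 0 ∨ f b ≠ 0)) :
    ∃ s : Par V, Pos s ∧ ∃ x ∈ K D H r s, x.1 = f := by
  have key : ∀ e : V × V, ∃ g : ℝ × ℝ, 0 < g.1 ∧ 0 < g.2 ∧ (e ∈ D → e.1 ∈ H → e.2 ∈ H →
      p e.2 - p e.1 = g.1 * f e.1 + g.2 * f e.2) := by
    intro e
    by_cases he : e ∈ D ∧ e.1 ∈ H ∧ e.2 ∈ H
    · obtain ⟨h1, h2, h3⟩ := h e.1 e.2 he.1 he.2.1 he.2.2
      obtain ⟨α, β, hα, hβ, ht⟩ := exists_coeff (f e.1) (f e.2) (p e.2 - p e.1) h1 h2 h3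
      exact ⟨(α, β), hα, hβ, fun _ _ _ => ht⟩
    · exact ⟨(1, 1), one_pos, one_pos, fun h1 h2 h3 => absurd ⟨h1, h2, h3⟩ he⟩
  choose g hg1 hg2 hg3 using key
  refine ⟨(fun e => (g e).1, fun e => (g e).2), fun e => ⟨hg1 e, hg2 e⟩,
    (f, fun v => if v ∈ H then p v - p r else 0), ?_, rfl⟩
  rw [mem_K]
  refine ⟨fun v hv => ⟨hf v hv, if_neg hv⟩, ?_, ?_⟩
  · show (if r ∈ H then p r - p r else 0) = 0
    rw [if_pos hr, sub_self]
  · intro e he h1 h2
    show (if e.2 ∈ H then p e.2 - p r else 0) - (if e.1 ∈ H then p e.1 - p r else 0) = _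
    rw [if_pos h1, if_pos h2, ← hg3 e he h1 h2]
    ring

theorem realise {r : V} (hr : r ∈ H) {c : V → Bool} (hc : Val D H c) :
    ∃ s : Par V, Pos s ∧ ∃ x ∈ K D H r s, Pat H c x := by
  obtain ⟨p, hp⟩ := exists_pot hc
  set f : V → ℝ := fun v => if v ∈ H then (if c v = true then 1 else -1) else 0 with hf
  have hfT : ∀ v, v ∈ H → c v = true → f v = 1 := fun v h1 h2 => by
    simp only [hf, if_pos h1, if_pos h2]
  have hfF : ∀ v, v ∈ H → c v = false → f v = -1 := fun v h1 h2 => by
    simp [hf, h1, h2]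
  set q : V → ℝ := fun v => if c v = true then p v else -p v with hq
  have hqT : ∀ v, c v = true → q v = p v := fun v h => by simp only [hq, if_pos h]
  have hqF : ∀ v, c v = false → q v = -p v := fun v h => by simp [hq, h]
  obtain ⟨s, hs, x, hx, hxf⟩ := realise_aux (D := D) hr f q (fun v hv => if_neg hv) (by
      intro a b hab ha hb
      cases hca : c a <;> cases hcb : c b
      · rw [hfF a ha hca, hfF b hb hcb, hqF a hca, hqF b hcb]
        have := hp a b ⟨hab, ha, hb, by rw [hca, hcb]⟩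
        exact ⟨fun h => absurd h (by norm_num), fun _ _ _ => by linarith, Or.inl (by norm_num)⟩
      · rw [hfF a ha hca, hfT b hb hcb]
        exact ⟨fun h => absurd h (by norm_num), fun _ h => absurd h (by norm_num), Or.inl (by norm_num)⟩
      · rw [hfT a ha hca, hfF b hb hcb]
        exact ⟨fun _ h => absurd h (by norm_num), fun h => absurd h (by norm_num), Or.inl (by norm_num)⟩
      · rw [hfT a ha hca, hfT b hb hcb, hqT a hca, hqT b hcb]
        have := hp a b ⟨hab, ha, hb, by rw [hca, hcb]⟩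
        exact ⟨fun _ _ _ => by linarith, fun h => absurd h (by norm_num), Or.inl (by norm_num)⟩)
  refine ⟨s, hs, x, hx, fun v hv => ?_⟩
  rw [hxf]
  cases hcv : c v
  · rw [hfF v hv hcv]
    norm_num
  · rw [hfT v hv hcv]
    norm_num

end

end Pool.Agent.MP_784a73_co
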