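import Pool.Agent.Lib.MP_784a73_co.B2b

/-!
# MP_784a73_co, row B2c: realisation of flips

* `realise_flip`: colourings `c, c'` valid on `H`, equal except at `v`, `c v ≠ c' v`.  WLOG `c v = true`, `c' v = false` (otherwise swap them).
  Potentials `p` of `c`, `p'` of `c'`.  `f w = ±1` by colour for `w ∈ H`, `w ≠ v`; `f v = 0`; `0` off `H`.
  `π w := p w - p v` if `w ≠ v`, `c w = true`; `π w := -(p' w - p' v)` if `w ≠ v`, `c w = false`; `π v = 0`.
  Then subtract `π r` on `H`, `0` off `H`.  `α, β` from `exists_coeff` for arcs of `D[H]` (no loop at `v`), `1` otherwise.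
-/

namespace Pool.Agent.MP_784a73_co

open Relation 

universe u

set_option linter.unusedSectionVars false

section
variable {V : Type u} [Fintype V] [DecidableEq V] {D : Finset (V × V)} {H Q : Finset V}

private theorem B2c_aux {r : V} (hr : r ∈ H) {v : V} {c c' : V → Bool} (hc : Val D H c) (hc' : Val D H c')
    (heq : ∀ w ∈ H, w ≠ v → c w = c' w) (hcv : c v = true) (hcv' : c' v = false) (hl : (v, v) ∉ D) :
    ∃ s : Par V, Pos s ∧ ∃ x ∈ K D H r s, x.1 v = 0 ∧ ∀ w ∈ H, w ≠ v → x.1 w ≠ 0 ∧ (c w = true ↔ 0 < x.1 w) := by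
  obtain ⟨p, hp⟩ := exists_pot hc
  obtain ⟨p', hp'⟩ := exists_pot hc'
  set f : V → ℝ := fun w => if w ∈ H ∧ w ≠ v then (if c w = true then 1 else -1) else 0 with hf
  have hfv : f v = 0 := by simp [hf]
  have hfT : ∀ w, w ∈ H → w ≠ v → c w = true → f w = 1 := fun w h1 h2 h3 => by
    simp [hf, h1, h2, h3]
  have hfF : ∀ w, w ∈ H → w ≠ v → c w = false → f w = -1 := fun w h1 h2 h3 => by
    simp [hf, h1, h2, h3]
  have hf0 : ∀ w, w ∉ H → f w = 0 := fun w h => by simp [hf, h]
  set q : V → ℝ := fun w => if w = v then 0 else if c w = true then p w - p v else -(p' w - p' v) with hq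
  have hqv : q v = 0 := by simp [hq]
  have hqT : ∀ w, w ≠ v → c w = true → q w = p w - p v := fun w h1 h2 => by
    simp [hq, h1, h2]
  have hqF : ∀ w, w ≠ v → c w = false → q w = -(p' w - p' v) := fun w h1 h2 => by
    simp [hq, h1, h2]
  obtain ⟨s, hs, x, hx, hxf⟩ := realise_aux (D := D) hr f q hf0 (by
    intro a b hab ha hb
    by_cases hav : a = v
    · by_cases hbv : b = v
      · rw [hav, hbv] at hab
        exact absurd hab hl
      · subst hav
        cases hcb : c b
        · rw [hfv, hfF b hb hbv hcb, hqv, hqF b hbv hcb]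
          have h2 : c' b = false := by rw [← heq b hb hbv, hcb]
          have := hp' a b ⟨hab, ha, hb, by rw [hcv', h2]⟩
          exact ⟨fun _ h => absurd h (by norm_num), fun _ _ _ => by linarith, Or.inr (by norm_num)⟩
        · rw [hfv, hfT b hb hbv hcb, hqv, hqT b hbv hcb]
          have := hp a b ⟨hab, ha, hb, by rw [hcv, hcb]⟩
          exact ⟨fun _ _ _ => by linarith, fun _ h => absurd h (by norm_num), Or.inr (by norm_num)⟩
    · by_cases hbv : b = v
      · subst hbv
        cases hca : c a
        · rw [hfv, hfF a ha hav hca, hqv, hqF a hav hca]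
          have h2 : c' a = false := by rw [← heq a ha hav, hca]
          have := hp' a b ⟨hab, ha, hb, by rw [hcv', h2]⟩
          exact ⟨fun h => absurd h (by norm_num), fun _ _ _ => by linarith, Or.inl (by norm_num)⟩
        · rw [hfv, hfT a ha hav hca, hqv, hqT a hav hca]
          have := hp a b ⟨hab, ha, hb, by rw [hcv, hca]⟩
          exact ⟨fun _ _ _ => by linarith, fun h => absurd h (by norm_num), Or.inl (by norm_num)⟩
      · cases hca : c a <;> cases hcb : c b
        · rw [hfF a ha hav hca, hfF b hb hbv hcb, hqF a hav hca, hqF b hbv hcb]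
          have h2 : c' a = false := by rw [← heq a ha hav, hca]
          have h3 : c' b = false := by rw [← heq b hb hbv, hcb]
          have := hp' a b ⟨hab, ha, hb, by rw [h2, h3]⟩
          exact ⟨fun h => absurd h (by norm_num), fun _ _ _ => by linarith, Or.inl (by norm_num)⟩
        · rw [hfF a ha hav hca, hfT b hb hbv hcb]
          exact ⟨fun h => absurd h (by norm_num), fun _ h => absurd h (by norm_num), Or.inl (by norm_num)⟩
        · rw [hfT a ha hav hca, hfF b hb hbv hcb]
          exact ⟨fun _ h => absurd h (by norm_num), fun h => absurd h (by norm_num), Or.inl (by norm_num)⟩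
        · rw [hfT a ha hav hca, hfT b hb hbv hcb, hqT a hav hca, hqT b hbv hcb]
          have := hp a b ⟨hab, ha, hb, by rw [hca, hcb]⟩
          exact ⟨fun _ _ _ => by linarith, fun h => absurd h (by norm_num), Or.inl (by norm_num)⟩)
  refine ⟨s, hs, x, hx, by rw [hxf, hfv], fun w hw hwv => ?_⟩
  rw [hxf]
  cases hcw : c w
  · rw [hfF w hw hwv hcw]
    norm_num
  · rw [hfT w hw hwv hcw]
    norm_num

theorem realise_flip {r : V} (hr : r ∈ H) {v : V} (hv : v ∈ H) {c c' : V → Bool} (hc : Val D H c) (hc' : Val D H c')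
    (heq : ∀ w ∈ H, w ≠ v → c w = c' w) (hne : c v ≠ c' v) (hl : (v, v) ∉ D) :
    ∃ s : Par V, Pos s ∧ ∃ x ∈ K D H r s, x.1 v = 0 ∧ ∀ w ∈ H, w ≠ v → x.1 w ≠ 0 ∧ (c w = true ↔ 0 < x.1 w) := by
  cases hcv : c v
  · have hcv' : c' v = true := by
      cases h : c' v
      · exact absurd (by rw [hcv, h]) hne
      · rfl
    obtain ⟨s, hs, x, hx, hxv, hxw⟩ := B2c_aux hr hc' hc (fun w h1 h2 => (heq w h1 h2).symm) hcv' hcv hl
    refine ⟨s, hs, x, hx, hxv, fun w hw hwv => ?_⟩
    rw [heq w hw hwv]
    exact hxw w hw hwv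
  · have hcv' : c' v = false := by
      cases h : c' v
      · rfl
      · exact absurd (by rw [hcv, h]) hne
    exact B2c_aux hr hc hc' heq hcv hcv' hl

end

end Pool.Agent.MP_784a73_co
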