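import Pool.Agent.Lib.MP_784a73_co.Defs

/-!
# MP_784a73_co, row C1: topology

* `prop_const`: `{x ∈ C | P x}` is relatively clopen.  (e.g. `IsPreconnected` in the subtype, `isClopen_iff`.)
* `cone_preconnected`: `C := {x | x ∈ K ∧ x ≠ 0 ∧ 0 ≤ ℓ x}`.  If some `x₀ ∈ K` has `ℓ x₀ > 0`: star-shaped around `x₀` (the segment from
  `x ∈ C` to `x₀` has `ℓ > 0` except at `x`, so it does not meet `0`).  Otherwise `ℓ = 0` on `K` (if `ℓ x < 0` take `-x`) and `C = K \ {0}`:
  `isConnected_compl_singleton_of_one_lt_rank` in `↥K`, image under `Subtype.val`.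
-/

namespace Pool.Agent.MP_784a73_co

open Relation 

universe u

set_option linter.unusedSectionVars false

section
variable {V : Type u} [Fintype V] [DecidableEq V] {D : Finset (V × V)} {H Q : Finset V}

theorem prop_const {X : Type*} [TopologicalSpace X] {C : Set X} (hC : IsPreconnected C) (P : X → Prop)
    (h : ∀ x ∈ C, ∀ᶠ y in nhdsWithin x C, (P y ↔ P x)) {x y : X} (hx : x ∈ C) (hy : y ∈ C) : P x ↔ P y := by
  have : PreconnectedSpace C := isPreconnected_iff_preconnectedSpace.mp hC
  have hf : IsLocallyConstant (fun z : C => P z.1) := by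
    rw [IsLocallyConstant.iff_eventually_eq]
    intro z
    have h1 := h z.1 z.2
    have h2 : ∀ᶠ y : C in nhds z, (P y.1 ↔ P z.1) := by
      rw [nhds_subtype_eq_comap_nhdsWithin]
      exact h1.comap _
    filter_upwards [h2] with y hy
    exact propext hy
  have := hf.apply_eq_of_preconnectedSpace ⟨x, hx⟩ ⟨y, hy⟩
  exact iff_of_eq this

theorem cone_preconnected {W : Type*} [NormedAddCommGroup W] [NormedSpace ℝ W] [FiniteDimensional ℝ W]
    (K : Submodule ℝ W) (hK : 2 ≤ Module.finrank ℝ K) (l : W →ₗ[ℝ] ℝ) :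
    IsPreconnected {x : W | x ∈ K ∧ x ≠ 0 ∧ 0 ≤ l x} := by
  by_cases hx0 : ∃ x₀ ∈ K, 0 < l x₀
  · obtain ⟨x₀, hx₀, hl₀⟩ := hx0
    refine isPreconnected_of_forall x₀ fun y hy => ⟨segment ℝ x₀ y, ?_, left_mem_segment _ _ _,
      right_mem_segment _ _ _, (convex_segment x₀ y).isPreconnected⟩
    obtain ⟨hyK, hy0, hly⟩ := hy
    rintro z ⟨a, b, ha, hb, hab, rfl⟩
    refine ⟨K.add_mem (K.smul_mem _ hx₀) (K.smul_mem _ hyK), ?_, ?_⟩
    · intro hz
      rcases ha.eq_or_lt with ha0 | ha0
      · subst ha0
        have : b = 1 := by linarith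
        subst this
        simp at hz
        exact hy0 hz
      · have h1 : l (a • x₀ + b • y) = 0 := by rw [hz]; simp
        have h2 : l (a • x₀ + b • y) = a * l x₀ + b * l y := by simp
        have h3 : 0 < a * l x₀ := mul_pos ha0 hl₀
        have h4 : 0 ≤ b * l y := mul_nonneg hb hly
        linarith
    · have h2 : l (a • x₀ + b • y) = a * l x₀ + b * l y := by simp
      rw [h2]
      have h3 : 0 ≤ a * l x₀ := mul_nonneg ha hl₀.le
      have h4 : 0 ≤ b * l y := mul_nonneg hb hly
      linarith
  · push Not at hx0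
    have hz : ∀ x ∈ K, l x = 0 := by
      intro x hx
      have h1 := hx0 x hx
      have h2 := hx0 (-x) (K.neg_mem hx)
      rw [map_neg] at h2
      linarith
    have hrank : 1 < Module.rank ℝ K := by
      rw [← Module.finrank_eq_rank]
      exact_mod_cast hK
    have hc := (isConnected_compl_singleton_of_one_lt_rank hrank (0 : K)).isPreconnected
    have himg := hc.image (Subtype.val : K → W) continuous_subtype_val.continuousOn
    have heq : {x : W | x ∈ K ∧ x ≠ 0 ∧ 0 ≤ l x} = Subtype.val '' ({(0 : K)}ᶜ : Set K) := by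
      ext x
      constructor
      · rintro ⟨h1, h2, _⟩
        refine ⟨⟨x, h1⟩, ?_, rfl⟩
        intro h
        apply h2
        have := congrArg Subtype.val (Set.mem_singleton_iff.mp h)
        simpa using this
      · rintro ⟨y, hy, rfl⟩
        refine ⟨y.2, ?_, (hz _ y.2).ge⟩
        intro h
        apply hy
        rw [Set.mem_singleton_iff]
        exact Subtype.ext h
    rw [heq]
    exact himg

end

end Pool.Agent.MP_784a73_co
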