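import Pool.Agent.Lib.MP_784a73_co.Defs

/-!
# MP_784a73_co, row C1b: a locally constant, fibrewise constant property of the points of a family of cones is constant

* `top_const`: sequences.  Let `G = {s ∈ S | ∀ x ∈ C s, P s x}`; `G` is relatively closed in `S`, and so is its complement (same proof for
  `¬ P`), `S` preconnected.  Relatively closed: `s_n → s` in `S`, `s_n ∈ G`; normalise `x_n ∈ C s_n`, `‖x_n‖ = 1` (`hcone`); a subsequence
  converges to `x`, `‖x‖ = 1` (`W` finite-dimensional, compact sphere), `x ∈ C s` by `hclosed`; by `hloc` at `(s,x)`,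
  `P s x`; by `hfib`, `s ∈ G`.
-/

namespace Pool.Agent.MP_784a73_co

open Relation 

universe u

set_option linter.unusedSectionVars false

section
variable {V : Type u} [Fintype V] [DecidableEq V] {D : Finset (V × V)} {H Q : Finset V}

/-- one half of the local constancy -/
theorem top_aux {E W : Type*} [NormedAddCommGroup E] [NormedSpace ℝ E] [NormedAddCommGroup W] [NormedSpace ℝ W]
    [FiniteDimensional ℝ W] {S : Set E} (C : E → Set W)
    (h0 : ∀ s ∈ S, (0 : W) ∉ C s)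
    (hcone : ∀ s ∈ S, ∀ x ∈ C s, ∀ t : ℝ, 0 < t → t • x ∈ C s)
    (hclosed : ∀ (s : ℕ → E) (x : ℕ → W) (a : E) (b : W), (∀ n, s n ∈ S) → (∀ n, x n ∈ C (s n)) → a ∈ S →
      Filter.Tendsto s Filter.atTop (nhds a) → Filter.Tendsto x Filter.atTop (nhds b) → b ≠ 0 → b ∈ C a)
    (P : E → W → Prop)
    (hloc : ∀ s ∈ S, ∀ x ∈ C s, ∀ᶠ p in nhds (s, x), p.1 ∈ S → p.2 ∈ C p.1 → (P p.1 p.2 ↔ P s x))
    (hfib : ∀ s ∈ S, ∀ x ∈ C s, ∀ y ∈ C s, (P s x ↔ P s y))
    {s : E} (hs : s ∈ S) (hP : ∀ x ∈ C s, P s x) : ∀ᶠ t in nhdsWithin s S, ∀ x ∈ C t, P t x := by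
  have : ProperSpace W := FiniteDimensional.proper_real W
  by_contra hcon
  have hfr : ∃ᶠ t in nhdsWithin s S, ¬ ∀ x ∈ C t, P t x := Filter.not_eventually.mp hcon
  have hfr2 : ∃ᶠ t in nhdsWithin s S, (t ∈ S ∧ ¬ ∀ x ∈ C t, P t x) :=
    (hfr.and_eventually self_mem_nhdsWithin).mono fun t ht => ⟨ht.2, ht.1⟩
  obtain ⟨u, hu, hu2⟩ := Filter.exists_seq_forall_of_frequently hfr2
  have huS : ∀ n, u n ∈ S := fun n => (hu2 n).1
  have hus : Filter.Tendsto u Filter.atTop (nhds s) := hu.mono_right nhdsWithin_le_nhds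
  have hex : ∀ n, ∃ y ∈ C (u n), ‖y‖ = 1 ∧ ¬ P (u n) y := by
    intro n
    have h1 := (hu2 n).2
    push Not at h1
    obtain ⟨x, hx, hxP⟩ := h1
    have hx0 : x ≠ 0 := fun h => h0 _ (huS n) (h ▸ hx)
    have hn : 0 < ‖x‖ := norm_pos_iff.mpr hx0
    have hy : ‖x‖⁻¹ • x ∈ C (u n) := hcone _ (huS n) x hx _ (inv_pos.mpr hn)
    refine ⟨‖x‖⁻¹ • x, hy, ?_, ?_⟩
    · rw [norm_smul, norm_inv, norm_norm, inv_mul_cancel₀ hn.ne']
    · intro h
      exact hxP ((hfib _ (huS n) x hx _ hy).mpr h)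
  choose y hyC hy1 hyP using hex
  have hys : ∀ n, y n ∈ Metric.sphere (0 : W) 1 := fun n => by simp [hy1 n]
  obtain ⟨b, hb, φ, hφ, hlim⟩ := (isCompact_sphere (0 : W) 1).tendsto_subseq hys
  have hb0 : b ≠ 0 := by
    intro h
    rw [h] at hb
    simp at hb
  have huφ : Filter.Tendsto (u ∘ φ) Filter.atTop (nhds s) := hus.comp hφ.tendsto_atTop
  have hbC : b ∈ C s := hclosed (u ∘ φ) (y ∘ φ) s b (fun n => huS _) (fun n => hyC _) hs huφ hlim hb0
  have hev := hloc s hs b hbC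
  have hpair : Filter.Tendsto (fun n => ((u ∘ φ) n, (y ∘ φ) n)) Filter.atTop (nhds (s, b)) :=
    huφ.prodMk_nhds hlim
  obtain ⟨n, hn⟩ := (hpair.eventually hev).exists
  exact hyP (φ n) ((hn (huS _) (hyC _)).mpr (hP b hbC))

theorem top_const {E W : Type*} [NormedAddCommGroup E] [NormedSpace ℝ E] [NormedAddCommGroup W] [NormedSpace ℝ W]
    [FiniteDimensional ℝ W] {S : Set E} (hS : IsPreconnected S) (C : E → Set W)
    (h0 : ∀ s ∈ S, (0 : W) ∉ C s) (hne : ∀ s ∈ S, (C s).Nonempty)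
    (hcone : ∀ s ∈ S, ∀ x ∈ C s, ∀ t : ℝ, 0 < t → t • x ∈ C s)
    (hclosed : ∀ (s : ℕ → E) (x : ℕ → W) (a : E) (b : W), (∀ n, s n ∈ S) → (∀ n, x n ∈ C (s n)) → a ∈ S →
      Filter.Tendsto s Filter.atTop (nhds a) → Filter.Tendsto x Filter.atTop (nhds b) → b ≠ 0 → b ∈ C a)
    (P : E → W → Prop)
    (hloc : ∀ s ∈ S, ∀ x ∈ C s, ∀ᶠ p in nhds (s, x), p.1 ∈ S → p.2 ∈ C p.1 → (P p.1 p.2 ↔ P s x))
    (hfib : ∀ s ∈ S, ∀ x ∈ C s, ∀ y ∈ C s, (P s x ↔ P s y)) :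
    ∀ s ∈ S, ∀ t ∈ S, ∀ x ∈ C s, ∀ y ∈ C t, (P s x ↔ P t y) := by
  have : PreconnectedSpace S := isPreconnected_iff_preconnectedSpace.mp hS
  have hf : IsLocallyConstant (fun z : S => ∀ x ∈ C z.1, P z.1 x) := by
    rw [IsLocallyConstant.iff_eventually_eq]
    intro z
    have h1 : ∀ᶠ t in nhdsWithin z.1 S, ((∀ x ∈ C t, P t x) ↔ (∀ x ∈ C z.1, P z.1 x)) := by
      by_cases hz : ∀ x ∈ C z.1, P z.1 x
      · filter_upwards [top_aux C h0 hcone hclosed P hloc hfib z.2 hz] with t ht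
        exact ⟨fun _ => hz, fun _ => ht⟩
      · have hz' : ∀ x ∈ C z.1, ¬ P z.1 x := by
          intro x hx hPx
          exact hz fun y hy => (hfib _ z.2 x hx y hy).mp hPx
        have h2 := top_aux C h0 hcone hclosed (fun s x => ¬ P s x)
          (fun s hs x hx => (hloc s hs x hx).mono fun p hp h1 h2 => not_congr (hp h1 h2))
          (fun s hs x hx y hy => not_congr (hfib s hs x hx y hy)) z.2 hz'
        filter_upwards [h2, self_mem_nhdsWithin] with t ht htS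
        refine ⟨fun h => absurd h ?_, fun h => absurd h hz⟩
        intro h
        obtain ⟨x, hx⟩ := hne t htS
        exact ht x hx (h x hx)
    have h2 : ∀ᶠ y : S in nhds z, ((∀ x ∈ C y.1, P y.1 x) ↔ (∀ x ∈ C z.1, P z.1 x)) := by
      rw [nhds_subtype_eq_comap_nhdsWithin]
      exact h1.comap _
    filter_upwards [h2] with y hy
    exact propext hy
  intro s hs t ht x hx y hy
  have h1 := hf.apply_eq_of_preconnectedSpace ⟨s, hs⟩ ⟨t, ht⟩
  have h2 : (∀ x ∈ C s, P s x) ↔ (∀ x ∈ C t, P t x) := iff_of_eq h1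
  have h3 : P s x ↔ ∀ x ∈ C s, P s x := ⟨fun h z hz => (hfib s hs x hx z hz).mp h, fun h => h x hx⟩
  have h4 : P t y ↔ ∀ x ∈ C t, P t x := ⟨fun h z hz => (hfib t ht y hy z hz).mp h, fun h => h y hy⟩
  rw [h3, h4, h2]

end

end Pool.Agent.MP_784a73_co
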