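import Pool.Agent.Lib.MP_784a73_co.A2
import Pool.Agent.Lib.MP_784a73_co.B1
import Pool.Agent.Lib.MP_784a73_co.B2
import Pool.Agent.Lib.MP_784a73_co.B2b
import Pool.Agent.Lib.MP_784a73_co.C1
import Pool.Agent.Lib.MP_784a73_co.C1b

/-!
# MP_784a73_co, row C2: the linear algebra method (helper32)

-/

namespace Pool.Agent.MP_784a73_co

open Relation Filter Topology

universe u

set_option linter.unusedSectionVars false

section
variable {V : Type u} [Fintype V] [DecidableEq V] {D : Finset (V × V)} {H Q : Finset V}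

theorem conn_or_split (D : Finset (V × V)) (H : Finset V) : Conn D H ∨ ∃ A B : Finset V, A ∪ B = H ∧ Disjoint A B ∧
    A.Nonempty ∧ B.Nonempty ∧ ∀ e ∈ D, ¬ ((e.1 ∈ A ∧ e.2 ∈ B) ∨ (e.1 ∈ B ∧ e.2 ∈ A)) := by
  by_cases h : Conn D H
  · exact Or.inl h
  · right
    unfold Conn at h
    push Not at h
    obtain ⟨A, B, h1, h2, h3, h4, h5⟩ := h
    refine ⟨A, B, h1, h2, h3, h4, fun e he hc => ?_⟩
    have h6 := h5 e he
    rcases hc with hc | hc
    · exact h6.1 hc.1 hc.2
    · exact h6.2 hc.1 hc.2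

theorem card_cases (hQ : Q.card ≤ 1) : Q = ∅ ∨ ∃ q, Q = {q} := by
  rcases Nat.le_one_iff_eq_zero_or_eq_one.1 hQ with h | h
  · exact Or.inl (Finset.card_eq_zero.1 h)
  · exact Or.inr (Finset.card_eq_one.1 h)

theorem cls_nonempty {r : V} {s : Par V} (hs : Pos s) (hcol : ∃ c, Val D H c) (hQ : Q.card ≤ 1) {x : Vec V}
    (hx : x ∈ Cone D H r Q s) : ∃ d, Cls D H Q x d := by
  classical
  obtain ⟨hxK, hx0, hxQ⟩ := hx
  have hc : ∃ c, Val D H c ∧ ∀ q ∈ Q, c q = true := by
    obtain ⟨c, hc⟩ := hcol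
    rcases card_cases hQ with rfl | ⟨q, rfl⟩
    · exact ⟨c, hc, by simp⟩
    by_cases h : c q = true
    · exact ⟨c, hc, fun q' hq' => by rw [Finset.mem_singleton.1 hq']; exact h⟩
    · refine ⟨cbar c, val_cbar.2 hc, fun q' hq' => ?_⟩
      rw [Finset.mem_singleton.1 hq']
      simp only [cbar]
      simp only [Bool.not_eq_true] at h
      rw [h]; rfl
  obtain ⟨c, hc, hcQ⟩ := hc
  let d : V → Bool := fun v => if x.1 v = 0 then c v else decide (0 < x.1 v)
  have hsg : ∀ v ∈ H, x.1 v ≠ 0 → (d v = true ↔ 0 < x.1 v) := by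
    intro v _ hv
    simp only [d, if_neg hv, decide_eq_true_eq]
  refine ⟨d, ⟨?_, ?_⟩, hsg⟩
  · refine zero_set hs hxK ?_ hsg
    refine val_congr (c := c) ?_ (val_mono (Finset.filter_subset _ _) hc)
    intro v hv
    rw [Finset.mem_filter] at hv
    simp only [d, if_pos hv.2]
  · intro q hq _
    by_cases h : x.1 q = 0
    · simp only [d, if_pos h]
      exact hcQ q hq
    · simp only [d, if_neg h, decide_eq_true_eq]
      exact lt_of_le_of_ne (hxQ q hq) (Ne.symm h)

theorem cls_near {x x' : Vec V} (h : ∀ v, x.1 v ≠ 0 → 0 < x.1 v * x'.1 v) {d : V → Bool} (hd : Cls D H Q x' d) :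
    Cls D H Q x d := by
  refine ⟨hd.1, fun v hv hx => ?_⟩
  have h1 := h v hx
  have h2 : x'.1 v ≠ 0 := fun h3 => by rw [h3, mul_zero] at h1; exact lt_irrefl _ h1
  rw [hd.2 v hv h2]
  constructor
  · intro h3
    by_contra h4
    have h5 : x.1 v ≤ 0 := not_lt.1 h4
    have := mul_nonpos_of_nonpos_of_nonneg h5 h3.le
    linarith
  · intro h3
    by_contra h4
    have h5 : x'.1 v ≤ 0 := not_lt.1 h4
    have := mul_nonpos_of_nonneg_of_nonpos h3.le h5
    linarith

theorem eventually_near (x : Vec V) : ∀ᶠ x' in 𝓝 x, ∀ v, x.1 v ≠ 0 → 0 < x.1 v * x'.1 v := by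
  rw [Filter.eventually_all]
  intro v
  by_cases h : x.1 v = 0
  · exact Filter.Eventually.of_forall fun _ h' => absurd h h'
  · have hc : Continuous fun x' : Vec V => x.1 v * x'.1 v := by fun_prop
    have h1 : 0 < x.1 v * x.1 v := mul_self_pos.2 h
    have := (hc.tendsto x).eventually (lt_mem_nhds h1)
    exact this.mono fun _ h _ => h

theorem cls_reach {r : V} (hr : r ∈ H) (hconn : Conn D H) (hprop : ∀ Z, Z ⊂ H → Mix D Z Q) {s : Par V} (hs : Pos s)
    {x : Vec V} (hx : x ∈ K D H r s) (hx0 : x ≠ 0) {d d' : V → Bool} (hd : Cls D H Q x d) (hd' : Cls D H Q x d') :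
    Reach D H Q d d' := by
  have hZ : (H.filter fun v => x.1 v = 0) ⊂ H := by
    refine Finset.ssubset_iff_subset_ne.2 ⟨Finset.filter_subset _ _, fun he => hx0 ?_⟩
    refine K_eq_zero hr hconn hx fun v hv => ?_
    rw [← he, Finset.mem_filter] at hv
    exact hv.2
  refine glue (Z := H.filter fun v => x.1 v = 0) (Finset.filter_subset _ _) (hprop _ hZ) ?_ hd.1 hd'.1 ?_
  · intro e he he'
    refine zero_set hs hx he ?_
    intro v hv hxv
    rw [he' v hv (by rw [Finset.mem_filter]; exact fun h => hxv h.2)]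
    exact hd.2 v hv hxv
  · intro v hv hvZ
    have hxv : x.1 v ≠ 0 := fun h => hvZ (Finset.mem_filter.2 ⟨hv, h⟩)
    have h1 := hd.2 v hv hxv
    have h2 := hd'.2 v hv hxv
    rw [Bool.eq_iff_iff, h1, h2]

theorem reach_R {R : (V → Bool) → Prop} (hR : ∀ c c', Step D H Q c c' → (R c ↔ R c')) {c c' : V → Bool}
    (h : Reach D H Q c c') : R c ↔ R c' := by
  induction h with
  | refl => exact Iff.rfl
  | tail _ h ih => exact ih.trans (hR _ _ h)

theorem loc_const {r : V} (hr : r ∈ H) (hconn : Conn D H) (hcol : ∃ c, Val D H c) (hQ : Q.card ≤ 1)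
    (hprop : ∀ Z, Z ⊂ H → Mix D Z Q) {R : (V → Bool) → Prop} (hR : ∀ c c', Step D H Q c c' → (R c ↔ R c'))
    {s : Par V} (hs : Pos s) {x : Vec V} (hx : x ∈ Cone D H r Q s) :
    ∀ᶠ x' in 𝓝 x, ∀ s' : Par V, Pos s' → x' ∈ Cone D H r Q s' →
      ((∀ d, Cls D H Q x' d → R d) ↔ (∀ d, Cls D H Q x d → R d)) := by
  filter_upwards [eventually_near x] with x' h s' hs' hx'
  constructor
  · intro h1 d hd
    obtain ⟨d', hd'⟩ := cls_nonempty hs' hcol hQ hx'
    exact (reach_R hR (cls_reach hr hconn hprop hs hx.1 hx.2.1 (cls_near h hd') hd)).1 (h1 d' hd')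
  · intro h1 d hd
    exact h1 d (cls_near h hd)

theorem K_closed {r : V} {s : ℕ → Par V} {x : ℕ → Vec V} {a : Par V} {b : Vec V} (hx : ∀ n, x n ∈ K D H r (s n))
    (hs : Tendsto s atTop (𝓝 a)) (hxb : Tendsto x atTop (𝓝 b)) : b ∈ K D H r a := by
  have h1 : ∀ v, Tendsto (fun n => (x n).1 v) atTop (𝓝 (b.1 v)) := fun v =>
    ((continuous_apply v).comp continuous_fst).continuousAt.tendsto.comp hxb
  have h2 : ∀ v, Tendsto (fun n => (x n).2 v) atTop (𝓝 (b.2 v)) := fun v =>
    ((continuous_apply v).comp continuous_snd).continuousAt.tendsto.comp hxb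
  have h3 : ∀ e, Tendsto (fun n => (s n).1 e) atTop (𝓝 (a.1 e)) := fun e =>
    ((continuous_apply e).comp continuous_fst).continuousAt.tendsto.comp hs
  have h4 : ∀ e, Tendsto (fun n => (s n).2 e) atTop (𝓝 (a.2 e)) := fun e =>
    ((continuous_apply e).comp continuous_snd).continuousAt.tendsto.comp hs
  rw [mem_K]
  refine ⟨fun v hv => ⟨?_, ?_⟩, ?_, fun e he he1 he2 => ?_⟩
  · exact tendsto_nhds_unique (h1 v) (by
      have : (fun n => (x n).1 v) = fun _ => (0 : ℝ) := funext fun n => ((hx n).1 v hv).1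
      rw [this]; exact tendsto_const_nhds)
  · exact tendsto_nhds_unique (h2 v) (by
      have : (fun n => (x n).2 v) = fun _ => (0 : ℝ) := funext fun n => ((hx n).1 v hv).2
      rw [this]; exact tendsto_const_nhds)
  · exact tendsto_nhds_unique (h2 r) (by
      have : (fun n => (x n).2 r) = fun _ => (0 : ℝ) := funext fun n => (hx n).2.1
      rw [this]; exact tendsto_const_nhds)
  · refine tendsto_nhds_unique ((h2 e.2).sub (h2 e.1)) ?_
    have : (fun n => (x n).2 e.2 - (x n).2 e.1) =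
        fun n => (s n).1 e * (x n).1 e.1 + (s n).2 e * (x n).1 e.2 := funext fun n => (hx n).2.2 e he he1 he2
    rw [this]
    exact ((h3 e).mul (h1 e.1)).add ((h4 e).mul (h1 e.2))

theorem pos_preconnected : IsPreconnected {s : Par V | Pos s} := by
  refine Convex.isPreconnected ?_
  intro s hs t ht a b ha hb hab e
  have h1 := hs e
  have h2 := ht e
  simp only [Prod.fst_add, Prod.smul_fst, Pi.add_apply, Pi.smul_apply, smul_eq_mul, Prod.snd_add, Prod.smul_snd]
  rcases ha.lt_or_eq with ha' | ha'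
  · constructor
    · have := mul_pos ha' h1.1
      have := mul_nonneg hb h2.1.le
      linarith
    · have := mul_pos ha' h1.2
      have := mul_nonneg hb h2.2.le
      linarith
  · have hb' : b = 1 := by linarith
    rw [← ha', hb']
    simp [h2.1, h2.2]

theorem LA_const {r : V} (hr : r ∈ H) (hconn : Conn D H) (hcol : ∃ c, Val D H c) (hQ : Q.card ≤ 1)
    (hprop : ∀ Z, Z ⊂ H → Mix D Z Q) {R : (V → Bool) → Prop} (hR : ∀ c c', Step D H Q c c' → (R c ↔ R c'))
    (hne : ∀ s : Par V, Pos s → (Cone D H r Q s).Nonempty)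
    (hfib : ∀ s : Par V, Pos s → ∀ x ∈ Cone D H r Q s, ∀ y ∈ Cone D H r Q s,
      ((∀ d, Cls D H Q x d → R d) ↔ (∀ d, Cls D H Q y d → R d))) {c c' : V → Bool} (hc : Adm D H Q c)
    (hc' : Adm D H Q c') : R c ↔ R c' := by
  have key := top_const (E := Par V) (W := Vec V) (S := {s : Par V | Pos s}) pos_preconnected (Cone D H r Q)
    (fun s _ h => h.2.1 rfl) hne
    (fun s _ x hx t ht => ⟨(K D H r s).smul_mem t hx.1, smul_ne_zero ht.ne' hx.2.1, fun q hq => by
      have := hx.2.2 q hq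
      simp only [Prod.smul_fst, Pi.smul_apply, smul_eq_mul]
      positivity⟩)
    (fun s x a b _ hx _ hsa hxb hb => ⟨K_closed (fun n => (hx n).1) hsa hxb, hb, fun q hq => by
      have h1 : Tendsto (fun n => (x n).1 q) atTop (𝓝 (b.1 q)) :=
        ((continuous_apply q).comp continuous_fst).continuousAt.tendsto.comp hxb
      exact ge_of_tendsto' h1 fun n => (hx n).2.2 q hq⟩)
    (fun _ x => ∀ d, Cls D H Q x d → R d)
    (fun s hs x hx => by
      have h1 := loc_const hr hconn hcol hQ hprop hR hs hx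
      have h2 : ∀ᶠ p : Par V × Vec V in 𝓝 (s, x), ∀ s' : Par V, Pos s' → p.2 ∈ Cone D H r Q s' →
          ((∀ d, Cls D H Q p.2 d → R d) ↔ (∀ d, Cls D H Q x d → R d)) :=
        (continuous_snd.tendsto (s, x)).eventually h1
      exact h2.mono fun p hp h3 h4 => hp p.1 h3 h4)
    hfib
  have hreal : ∀ c, Adm D H Q c → ∃ s : Par V, Pos s ∧ ∃ x ∈ Cone D H r Q s, (R c ↔ ∀ d, Cls D H Q x d → R d) := by
    intro c hc
    obtain ⟨s, hs, x, hx, hp⟩ := realise hr hc.1
    refine ⟨s, hs, x, ⟨hx, ?_, ?_⟩, ?_⟩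
    · intro h0
      have := (hp r hr).1
      rw [h0] at this
      exact this rfl
    · intro q hq
      by_cases hqH : q ∈ H
      · exact ((hp q hqH).2.1 (hc.2 q hq hqH)).le
      · rw [(hx.1 q hqH).1]
    · constructor
      · intro h d hd
        refine (hR c d ⟨hc, hd.1, r, fun w hw _ => ?_⟩).1 h
        have h1 := hd.2 w hw (hp w hw).1
        have h2 := (hp w hw).2
        rw [Bool.eq_iff_iff, h1, h2]
      · intro h
        exact h c ⟨hc, fun v hv _ => (hp v hv).2⟩
  obtain ⟨s, hs, x, hx, h1⟩ := hreal c hc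
  obtain ⟨s', hs', x', hx', h2⟩ := hreal c' hc'
  rw [h1, h2]
  exact key s hs s' hs' x hx x' hx'

theorem cone_pre {r : V} {s : Par V} (hQ : Q.card ≤ 1) (h : 2 ≤ Module.finrank ℝ (K D H r s)) :
    IsPreconnected (Cone D H r Q s) := by
  rcases card_cases hQ with hq | ⟨q, hq⟩
  · have h1 := cone_preconnected (K D H r s) h 0
    have e : Cone D H r Q s = {x : Vec V | x ∈ K D H r s ∧ x ≠ 0 ∧ 0 ≤ (0 : Vec V →ₗ[ℝ] ℝ) x} := by
      apply Set.ext
      intro x
      simp [Cone, hq]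
    rw [e]
    exact h1
  · have h1 := cone_preconnected (K D H r s) h ((LinearMap.proj q).comp (LinearMap.fst ℝ (V → ℝ) (V → ℝ)))
    have e : Cone D H r Q s = {x : Vec V | x ∈ K D H r s ∧ x ≠ 0 ∧
        0 ≤ ((LinearMap.proj q).comp (LinearMap.fst ℝ (V → ℝ) (V → ℝ))) x} := by
      apply Set.ext
      intro x
      simp [Cone, hq]
    rw [e]
    exact h1

theorem cone_ne {r : V} {s : Par V} (hQ : Q.card ≤ 1) (h : 1 ≤ Module.finrank ℝ (K D H r s)) :
    (Cone D H r Q s).Nonempty := by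
  have h1 : 0 < Module.finrank ℝ (K D H r s) := h
  obtain ⟨⟨x, hx⟩, hx0⟩ := Module.finrank_pos_iff_exists_ne_zero.1 h1
  have hx0' : x ≠ 0 := fun h => hx0 (by ext1; exact h)
  rcases card_cases hQ with rfl | ⟨q, rfl⟩
  · exact ⟨x, hx, hx0', by simp⟩
  rcases le_total 0 (x.1 q) with h2 | h2
  · exact ⟨x, hx, hx0', fun q' hq' => by rw [Finset.mem_singleton.1 hq']; exact h2⟩
  · refine ⟨-x, (K D H r s).neg_mem hx, neg_ne_zero.2 hx0', fun q' hq' => ?_⟩
    rw [Finset.mem_singleton.1 hq']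
    simp only [Prod.fst_neg, Pi.neg_apply]
    linarith

theorem fib_const {r : V} (hr : r ∈ H) (hconn : Conn D H) (hcol : ∃ c, Val D H c) (hQ : Q.card ≤ 1)
    (hprop : ∀ Z, Z ⊂ H → Mix D Z Q) {R : (V → Bool) → Prop} (hR : ∀ c c', Step D H Q c c' → (R c ↔ R c'))
    {s : Par V} (hs : Pos s) (h2 : 2 ≤ Module.finrank ℝ (K D H r s)) {x y : Vec V} (hx : x ∈ Cone D H r Q s)
    (hy : y ∈ Cone D H r Q s) : (∀ d, Cls D H Q x d → R d) ↔ (∀ d, Cls D H Q y d → R d) := by
  refine prop_const (cone_pre hQ h2) (fun x => ∀ d, Cls D H Q x d → R d) (fun x hx => ?_) hx hy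
  have h1 := loc_const hr hconn hcol hQ hprop hR hs hx
  rw [eventually_nhdsWithin_iff]
  exact h1.mono fun p hp h3 => hp s hs h3

/-- dimension at least 2 everywhere: the pinned colourings are connected -/
theorem main_LA {r : V} (hr : r ∈ H) (hconn : Conn D H) (hcol : ∃ c, Val D H c) (hQ : Q.card ≤ 1)
    (hprop : ∀ Z, Z ⊂ H → Mix D Z Q) (hdim : ∀ s : Par V, Pos s → 2 ≤ Module.finrank ℝ (K D H r s)) : Mix D H Q := by
  intro c c' hc hc'
  have hR : ∀ d d', Step D H Q d d' → (Reach D H Q c d ↔ Reach D H Q c d') := fun d d' h =>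
    ⟨fun h1 => reach_trans h1 (ReflTransGen.single h), fun h1 => reach_trans h1 (ReflTransGen.single (step_symm h))⟩
  have := LA_const hr hconn hcol hQ hprop hR (fun s hs => cone_ne hQ (by have := hdim s hs; omega))
    (fun s hs x hx y hy => fib_const hr hconn hcol hQ hprop hR hs (hdim s hs) hx hy) hc hc'
  exact this.1 (reach_refl c)

theorem cls_smul {x : Vec V} {t : ℝ} (ht : 0 < t) {d : V → Bool} : Cls D H Q (t • x) d ↔ Cls D H Q x d := by
  unfold Cls
  simp only [Prod.smul_fst, Pi.smul_apply, smul_eq_mul, mul_ne_zero_iff, mul_pos_iff_of_pos_left ht]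
  simp [ht.ne']

theorem cls_neg {x : Vec V} {d : V → Bool} : Cls D H ∅ (-x) (cbar d) ↔ Cls D H ∅ x d := by
  unfold Cls Adm
  simp only [Prod.fst_neg, Pi.neg_apply, neg_ne_zero, Left.neg_pos_iff]
  rw [val_cbar]
  refine and_congr (by simp) (forall_congr' fun v => forall_congr' fun hv => forall_congr' fun hx => ?_)
  simp only [cbar, Bool.not_eq_true']
  rcases lt_or_gt_of_ne hx with h | h
  · have h1 : ¬ (0 < x.1 v) := not_lt.2 h.le
    simp [h, h1]
  · have h1 : ¬ (x.1 v < 0) := not_lt.2 h.le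
    simp [h, h1]

theorem adm_empty {c : V → Bool} : Adm D H ∅ c ↔ Val D H c := by
  unfold Adm; simp

/-- dimension at least 1 everywhere: at most two classes, exchanged by complement -/
theorem main_LA1 {r : V} (hr : r ∈ H) (hconn : Conn D H) (hcol : ∃ c, Val D H c)
    (hprop : ∀ Z, Z ⊂ H → Mix D Z ∅) (hdim : ∀ s : Par V, Pos s → 1 ≤ Module.finrank ℝ (K D H r s)) :
    ∀ c c', Val D H c → Val D H c' → Reach D H ∅ c c' ∨ Reach D H ∅ (cbar c) c' := by
  intro c c' hc hc'
  have hQ : (∅ : Finset V).card ≤ 1 := by simp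
  have hR : ∀ d d', Step D H ∅ d d' →
      ((Reach D H ∅ c d ∨ Reach D H ∅ (cbar c) d) ↔ (Reach D H ∅ c d' ∨ Reach D H ∅ (cbar c) d')) := by
    intro d d' h
    constructor
    · rintro (h1 | h1)
      · exact Or.inl (reach_trans h1 (ReflTransGen.single h))
      · exact Or.inr (reach_trans h1 (ReflTransGen.single h))
    · rintro (h1 | h1)
      · exact Or.inl (reach_trans h1 (ReflTransGen.single (step_symm h)))
      · exact Or.inr (reach_trans h1 (ReflTransGen.single (step_symm h)))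
  have hRc : ∀ d, (Reach D H ∅ c (cbar d) ∨ Reach D H ∅ (cbar c) (cbar d)) ↔
      (Reach D H ∅ c d ∨ Reach D H ∅ (cbar c) d) := by
    have h1 : ∀ d, (Reach D H ∅ c d ∨ Reach D H ∅ (cbar c) d) →
        (Reach D H ∅ c (cbar d) ∨ Reach D H ∅ (cbar c) (cbar d)) := by
      rintro d (h | h)
      · exact Or.inr (reach_cbar h)
      · left
        have := reach_cbar h
        rwa [cbar_cbar] at this
    intro d
    refine ⟨fun h => ?_, h1 d⟩
    have := h1 _ h
    rwa [cbar_cbar] at this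
  have hneg : ∀ x : Vec V, (∀ d, Cls D H ∅ (-x) d → (Reach D H ∅ c d ∨ Reach D H ∅ (cbar c) d)) ↔
      (∀ d, Cls D H ∅ x d → (Reach D H ∅ c d ∨ Reach D H ∅ (cbar c) d)) := by
    intro x
    constructor
    · intro h d hd
      exact (hRc d).1 (h _ (cls_neg.2 hd))
    · intro h d hd
      refine (hRc d).1 (h _ ?_)
      rw [← cls_neg, cbar_cbar]
      exact hd
  have := LA_const hr hconn hcol hQ hprop hR (fun s hs => cone_ne hQ (hdim s hs))
    (fun s hs x hx y hy => by
      by_cases h2 : 2 ≤ Module.finrank ℝ (K D H r s)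
      · exact fib_const hr hconn hcol hQ hprop hR hs h2 hx hy
      · have h1 : Module.finrank ℝ (K D H r s) = 1 := by
          have := hdim s hs
          omega
        have hx0 : (⟨x, hx.1⟩ : K D H r s) ≠ 0 := fun h => hx.2.1 (congrArg Subtype.val h)
        obtain ⟨t, ht⟩ := (finrank_eq_one_iff_of_nonzero' (⟨x, hx.1⟩ : K D H r s) hx0).1 h1 ⟨y, hy.1⟩
        have ht' : t • x = y := congrArg Subtype.val ht
        have ht0 : t ≠ 0 := by
          rintro rfl
          rw [zero_smul] at ht'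
          exact hy.2.1 ht'.symm
        rw [← ht']
        rcases lt_or_gt_of_ne ht0 with h | h
        · have e : t • x = -((-t) • x) := by simp
          rw [e, hneg]
          have h3 : 0 < -t := by linarith
          simp only [cls_smul h3]
        · simp only [cls_smul h]) (adm_empty.2 hc) (adm_empty.2 hc')
  exact this.1 (Or.inl (reach_refl c))

/-- dimension at least 1 everywhere and at least 2 somewhere -/
theorem main_LA2 {r : V} (hr : r ∈ H) (hconn : Conn D H) (hcol : ∃ c, Val D H c)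
    (hprop : ∀ Z, Z ⊂ H → Mix D Z ∅) (hdim : ∀ s : Par V, Pos s → 1 ≤ Module.finrank ℝ (K D H r s))
    (hsome : ∃ s : Par V, Pos s ∧ 2 ≤ Module.finrank ℝ (K D H r s)) : Mix D H ∅ := by
  obtain ⟨s, hs, h2⟩ := hsome
  have hQ : (∅ : Finset V).card ≤ 1 := by simp
  obtain ⟨x, hx⟩ := cone_ne hQ (hdim s hs)
  have hnx : -x ∈ Cone D H r ∅ s := ⟨(K D H r s).neg_mem hx.1, neg_ne_zero.2 hx.2.1, by simp⟩
  obtain ⟨d, hd⟩ := cls_nonempty hs hcol hQ hx
  have hR : ∀ e e', Step D H ∅ e e' → (Reach D H ∅ d e ↔ Reach D H ∅ d e') := fun e e' h =>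
    ⟨fun h1 => reach_trans h1 (ReflTransGen.single h), fun h1 => reach_trans h1 (ReflTransGen.single (step_symm h))⟩
  have h3 := fib_const hr hconn hcol hQ hprop hR hs h2 hx hnx
  have h4 : Reach D H ∅ d (cbar d) :=
    h3.1 (fun e he => cls_reach hr hconn hprop hs hx.1 hx.2.1 hd he) _ (cls_neg.2 hd)
  have h5 : ∀ e, Val D H e → Reach D H ∅ d e := by
    intro e he
    rcases main_LA1 hr hconn hcol hprop hdim d e hd.1.1 he with h | h
    · exact h
    · exact reach_trans h4 h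
  intro c c' hc hc'
  exact reach_trans (reach_symm (h5 c hc.1)) (h5 c' hc'.1)

end

end Pool.Agent.MP_784a73_co
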