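import Mathlib

/-!
# MP_784a73_co: definitions for THEOREM 2
(every oriented graph with `e(H) ≤ 2|H| - 2` for all nonempty `H` is 2-mixing; hence `Mad ≥ 4 - 2/n` for non 2-mixing ones)

Everything is relative to a finite set of arcs `D : Finset (V × V)`, a vertex set `H : Finset V` (we look at `D[H]`) and a set `Q` of
vertices that are pinned to the colour `true`.  Colourings are functions `V → Bool`; only their values on `H` matter.
-/

namespace Pool.Agent.MP_784a73_co

open Relation

universe u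

set_option linter.unusedSectionVars false

section
variable {V : Type u} [Fintype V] [DecidableEq V]

/-- monochromatic arcs inside `H` -/
def mono (D : Finset (V × V)) (H : Finset V) (c : V → Bool) (a b : V) : Prop :=
  (a, b) ∈ D ∧ a ∈ H ∧ b ∈ H ∧ c a = c b

/-- `c` is a 2-dicolouring of `D[H]`: no monochromatic directed closed walk -/
def Val (D : Finset (V × V)) (H : Finset V) (c : V → Bool) : Prop :=
  ∀ a, ¬ TransGen (mono D H c) a a

/-- a 2-dicolouring with the vertices of `Q ∩ H` coloured `true` -/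
def Adm (D : Finset (V × V)) (H Q : Finset V) (c : V → Bool) : Prop :=
  Val D H c ∧ ∀ q ∈ Q, q ∈ H → c q = true

/-- the two colourings agree on `H` except possibly at one vertex -/
def Step (D : Finset (V × V)) (H Q : Finset V) (c c' : V → Bool) : Prop :=
  Adm D H Q c ∧ Adm D H Q c' ∧ ∃ v, ∀ w ∈ H, w ≠ v → c w = c' w

/-- reachable by steps -/
def Reach (D : Finset (V × V)) (H Q : Finset V) : (V → Bool) → (V → Bool) → Prop :=
  ReflTransGen (Step D H Q)

/-- any two admissible colourings are joined by steps -/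
def Mix (D : Finset (V × V)) (H Q : Finset V) : Prop :=
  ∀ c c', Adm D H Q c → Adm D H Q c' → Reach D H Q c c'

/-- complementary colouring -/
def cbar (c : V → Bool) : V → Bool := fun v => !c v

/-- arcs inside `H` -/
def arcs (D : Finset (V × V)) (H : Finset V) : Finset (V × V) :=
  D.filter fun e => e.1 ∈ H ∧ e.2 ∈ H

/-- number of arcs inside `H` -/
def eN (D : Finset (V × V)) (H : Finset V) : ℕ := (arcs D H).card

/-- oriented graph: no digon, no loop -/
def Ori (D : Finset (V × V)) : Prop := ∀ a b, (a, b) ∈ D → (b, a) ∉ D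

/-- the reversed digraph -/
def rev (D : Finset (V × V)) : Finset (V × V) := D.image Prod.swap

/-- `D[H]` is connected -/
def Conn (D : Finset (V × V)) (H : Finset V) : Prop :=
  ∀ A B : Finset V, A ∪ B = H → Disjoint A B → A.Nonempty → B.Nonempty →
    ∃ e ∈ D, (e.1 ∈ A ∧ e.2 ∈ B) ∨ (e.1 ∈ B ∧ e.2 ∈ A)

/-- in-neighbours of `v` in `H` -/
def inN (D : Finset (V × V)) (H : Finset V) (v : V) : Finset V := H.filter fun a => (a, v) ∈ D

/-- out-neighbours of `v` in `H` -/
def outN (D : Finset (V × V)) (H : Finset V) (v : V) : Finset V := H.filter fun a => (v, a) ∈ D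

/-- degree of `v` in `D[H]` -/
def dg (D : Finset (V × V)) (H : Finset V) (v : V) : ℕ := (inN D H v).card + (outN D H v).card

/-- parameters `(α, β)` -/
abbrev Par (V : Type u) : Type u := (V × V → ℝ) × (V × V → ℝ)

/-- unknowns `x = (f, π)` -/
abbrev Vec (V : Type u) : Type u := (V → ℝ) × (V → ℝ)

/-- positive parameters -/
def Pos (s : Par V) : Prop := ∀ e, 0 < s.1 e ∧ 0 < s.2 e

/-- The kernel: `(f, π)` supported on `H`, `π r = 0`, and `π b - π a = α f a + β f b` for every arc `(a, b)` inside `H`. -/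
def K (D : Finset (V × V)) (H : Finset V) (r : V) (s : Par V) : Submodule ℝ (Vec V) where
  carrier := {x | (∀ v, v ∉ H → x.1 v = 0 ∧ x.2 v = 0) ∧ x.2 r = 0 ∧
    ∀ e ∈ D, e.1 ∈ H → e.2 ∈ H → x.2 e.2 - x.2 e.1 = s.1 e * x.1 e.1 + s.2 e * x.1 e.2}
  add_mem' := by
    rintro x y ⟨h1, h2, h3⟩ ⟨g1, g2, g3⟩
    refine ⟨fun v hv => ?_, ?_, fun e he h h' => ?_⟩
    · simp [h1 v hv, g1 v hv]
    · simp [h2, g2]
    · have a := h3 e he h h'
      have b := g3 e he h h'
      simp only [Prod.fst_add, Prod.snd_add, Pi.add_apply]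
      linear_combination a + b
  zero_mem' := by simp
  smul_mem' := by
    rintro t x ⟨h1, h2, h3⟩
    refine ⟨fun v hv => ?_, ?_, fun e he h h' => ?_⟩
    · simp [h1 v hv]
    · simp [h2]
    · have a := h3 e he h h'
      simp only [Prod.smul_fst, Prod.smul_snd, Pi.smul_apply, smul_eq_mul]
      linear_combination t * a

theorem mem_K {D : Finset (V × V)} {H : Finset V} {r : V} {s : Par V} {x : Vec V} :
    x ∈ K D H r s ↔ (∀ v, v ∉ H → x.1 v = 0 ∧ x.2 v = 0) ∧ x.2 r = 0 ∧
    ∀ e ∈ D, e.1 ∈ H → e.2 ∈ H → x.2 e.2 - x.2 e.1 = s.1 e * x.1 e.1 + s.2 e * x.1 e.2 := Iff.rfl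

/-- `x` has no zero in `H` and sign pattern `c` -/
def Pat (H : Finset V) (c : V → Bool) (x : Vec V) : Prop :=
  ∀ v ∈ H, x.1 v ≠ 0 ∧ (c v = true ↔ 0 < x.1 v)

/-- `d` is one of the colourings attached to `x`: admissible, equal to the sign of `f` where `f ≠ 0` -/
def Cls (D : Finset (V × V)) (H Q : Finset V) (x : Vec V) (d : V → Bool) : Prop :=
  Adm D H Q d ∧ ∀ v ∈ H, x.1 v ≠ 0 → (d v = true ↔ 0 < x.1 v)

/-- the fibre: nonzero kernel vectors with `f q ≥ 0` for `q ∈ Q` -/
def Cone (D : Finset (V × V)) (H : Finset V) (r : V) (Q : Finset V) (s : Par V) : Set (Vec V) :=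
  {x | x ∈ K D H r s ∧ x ≠ 0 ∧ ∀ q ∈ Q, 0 ≤ x.1 q}

end

end Pool.Agent.MP_784a73_co
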