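import Pool.Agent.Lib.MP_784a73_co.A1

/-!
# MP_784a73_co: translation of `Mix D W ∅` to the official statement (helper32)
-/

namespace Pool.Agent.MP_784a73_co

open Relation

universe u

set_option linter.unusedSectionVars false

section
variable {V : Type u} [Fintype V] [DecidableEq V]

/-- `c` is a `k`-dicolouring of the digraph `A` on `V`: there is no directed cycle
`p 0 → p 1 → ... → p n → p 0` (distinct vertices, indices modulo `n + 1`) all of whose vertices have the same colour. -/
def IsDicolouring (k : ℕ) (A : V → V → Prop) (c : V → Fin k) : Prop :=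
  ¬ ∃ (n : ℕ) (p : Fin (n + 1) → V), Function.Injective p ∧ (∀ i, A (p i) (p (i + 1))) ∧ ∀ i j, c (p i) = c (p j)

/-- The `k`-dicolouring graph: two `k`-dicolourings are adjacent iff they differ on exactly one vertex. -/
def dicolouringGraph (k : ℕ) (A : V → V → Prop) : SimpleGraph {c : V → Fin k // IsDicolouring k A c} where
  Adj c d := ∃ v, c.1 v ≠ d.1 v ∧ ∀ w, w ≠ v → c.1 w = d.1 w
  symm := ⟨by
    rintro c d ⟨v, h1, h2⟩
    exact ⟨v, fun h => h1 h.symm, fun w hw => (h2 w hw).symm⟩⟩
  loopless := ⟨by
    rintro c ⟨v, h1, _⟩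
    exact h1 rfl⟩

/-- `A` is `k`-mixing: any two `k`-dicolourings are joined by a path in the `k`-dicolouring graph. -/
def Mixing (k : ℕ) (A : V → V → Prop) : Prop := (dicolouringGraph k A).Preconnected

/-- oriented graph: no loops and no digons -/
def IsOriented (A : V → V → Prop) : Prop := ∀ a b, A a b → ¬ A b a

/-- maximum average degree: supremum of `2|B|/|S|` over the subdigraphs with nonempty vertex set `S` and arc set `B` -/
noncomputable def Mad (A : V → V → Prop) : ℝ :=
  sSup {x : ℝ | ∃ (S : Finset V) (B : Finset (V × V)), S.Nonempty ∧ (∀ e ∈ B, e.1 ∈ S ∧ e.2 ∈ S ∧ A e.1 e.2) ∧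
    x = 2 * (B.card : ℝ) / (S.card : ℝ)}

/-- a closed walk contains a cycle -/
theorem exists_cycle {r : V → V → Prop} {v : V} (h : TransGen r v v) :
    ∃ (n : ℕ) (p : Fin (n + 1) → V), Function.Injective p ∧ ∀ i, r (p i) (p (i + 1)) := by
  classical
  -- closed walks as functions on `ℕ`
  have hw : ∀ a b, TransGen r a b → ∃ (n : ℕ) (p : ℕ → V), p 0 = a ∧ p (n + 1) = b ∧ ∀ i ≤ n, r (p i) (p (i + 1)) := by
    intro a b hab
    induction hab with
    | single h =>
      rename_i b
      refine ⟨0, fun i => if i = 0 then a else b, by simp, by simp, ?_⟩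
      intro i hi
      have : i = 0 := by omega
      subst this
      simpa using h
    | tail _ h ih =>
      rename_i b c _
      obtain ⟨n, p, h0, h1, h2⟩ := ih
      refine ⟨n + 1, fun i => if i ≤ n + 1 then p i else c, by simp [h0], by simp, ?_⟩
      intro i hi
      by_cases hi' : i ≤ n
      · have h3 : i ≤ n + 1 := by omega
        have h4 : i + 1 ≤ n + 1 := by omega
        simp only [if_pos h3, if_pos h4]
        exact h2 i hi'
      · have h3 : i = n + 1 := by omega
        subst h3
        simp only [le_refl, if_true]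
        rw [if_neg (by omega), h1]
        exact h
  have hex : ∃ n : ℕ, ∃ p : ℕ → V, p 0 = p (n + 1) ∧ ∀ i ≤ n, r (p i) (p (i + 1)) := by
    obtain ⟨n, p, h0, h1, h2⟩ := hw v v h
    exact ⟨n, p, by rw [h0, h1], h2⟩
  obtain ⟨p, hp0, hp⟩ := Nat.find_spec hex
  set n := Nat.find hex with hn
  have hmin : ∀ m < n, ¬ ∃ p : ℕ → V, p 0 = p (m + 1) ∧ ∀ i ≤ m, r (p i) (p (i + 1)) := fun m hm =>
    Nat.find_min hex hm
  have hinj : ∀ i j, i < j → j ≤ n → p i ≠ p j := by
    intro i j hij hj he
    refine hmin (j - i - 1) (by omega) ⟨fun t => p (i + t), ?_, ?_⟩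
    · have : i + (j - i - 1 + 1) = j := by omega
      simp only [add_zero, this]
      exact he
    · intro t ht
      exact hp (i + t) (by omega)
  refine ⟨n, fun i => p i.val, ?_, ?_⟩
  · intro i j hij
    have hij' : p i.val = p j.val := hij
    rcases lt_trichotomy i.val j.val with h1 | h1 | h1
    · exact absurd hij' (hinj _ _ h1 (by omega))
    · exact Fin.ext h1
    · exact absurd hij'.symm (hinj _ _ h1 (by omega))
  · intro i
    by_cases hi : i.val = n
    · have h1 : (i + 1).val = 0 := by
        rw [Fin.val_add_one]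
        split_ifs with h2
        · rfl
        · exact absurd (Fin.ext (by simpa using hi)) h2
      show r (p i.val) (p (i + 1).val)
      rw [h1, hp0]
      have := hp i.val (by omega)
      rwa [hi] at this ⊢
    · have h1 : (i + 1).val = i.val + 1 := by
        rw [Fin.val_add_one]
        split_ifs with h2
        · exfalso; apply hi; rw [h2]; simp
        · rfl
      show r (p i.val) (p (i + 1).val)
      rw [h1]
      exact hp i.val (by omega)

theorem transGen_of_cycle {r : V → V → Prop} {n : ℕ} {p : Fin (n + 1) → V} (h : ∀ i, r (p i) (p (i + 1))) :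
    TransGen r (p 0) (p 0) := by
  have key : ∀ m : ℕ, ∀ hm : m < n + 1, ReflTransGen r (p 0) (p ⟨m, hm⟩) := by
    intro m
    induction m with
    | zero => intro _; exact ReflTransGen.refl
    | succ m ih =>
      intro hm
      have h1 := ih (by omega)
      have h2 := h ⟨m, by omega⟩
      have h3 : (⟨m, by omega⟩ : Fin (n + 1)) + 1 = ⟨m + 1, hm⟩ := by
        apply Fin.ext
        rw [Fin.val_add_one]
        split_ifs with h4
        · exfalso
          have := congrArg Fin.val h4
          simp at this
          omega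
        · rfl
      rw [h3] at h2
      exact h1.tail h2
  have h1 := key n (by omega)
  have h2 := h ⟨n, by omega⟩
  have h3 : (⟨n, by omega⟩ : Fin (n + 1)) + 1 = 0 := by
    apply Fin.ext
    rw [Fin.val_add_one]
    split_ifs with h4
    · rfl
    · exact absurd (Fin.ext (by simp)) h4
  rw [h3] at h2
  exact TransGen.tail' h1 h2

/-- colourings with values in `Bool` -/
def toBool (c : V → Fin 2) : V → Bool := fun v => decide (c v = 1)

/-- back -/
def ofBool (e : V → Bool) : V → Fin 2 := fun v => if e v then 1 else 0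

theorem ofBool_toBool (c : V → Fin 2) : ofBool (toBool c) = c := by
  funext v
  simp only [ofBool, toBool, decide_eq_true_eq]
  by_cases h : c v = 1
  · rw [if_pos h, h]
  · rw [if_neg h]
    omega

theorem ofBool_eq {e : V → Bool} {a b : V} : ofBool e a = ofBool e b ↔ e a = e b := by
  simp only [ofBool]
  cases e a <;> cases e b <;> simp

open Classical in
/-- the arcs of `A` as a finset -/
noncomputable def arcSet (A : V → V → Prop) : Finset (V × V) := Finset.univ.filter fun e => A e.1 e.2

theorem mono_arcSet {A : V → V → Prop} {e : V → Bool} {a b : V} :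
    mono (arcSet A) Finset.univ e a b ↔ A a b ∧ e a = e b := by
  simp [mono, arcSet]

theorem val_arcSet {A : V → V → Prop} {e : V → Bool} :
    Val (arcSet A) Finset.univ e ↔ IsDicolouring 2 A (ofBool e) := by
  unfold Val IsDicolouring
  constructor
  · rintro h ⟨n, p, _, h2, h3⟩
    refine h (p 0) (transGen_of_cycle (r := mono (arcSet A) Finset.univ e) (p := p) fun i => ?_)
    exact mono_arcSet.2 ⟨h2 i, ofBool_eq.1 (h3 i (i + 1))⟩
  · intro h v hv
    obtain ⟨n, p, h1, h2⟩ := exists_cycle hv
    refine h ⟨n, p, h1, fun i => (mono_arcSet.1 (h2 i)).1, ?_⟩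
    -- colour constant along the cycle
    have key : ∀ m : ℕ, ∀ hm : m < n + 1, e (p 0) = e (p ⟨m, hm⟩) := by
      intro m
      induction m with
      | zero => intro _; rfl
      | succ m ih =>
        intro hm
        have h4 := ih (by omega)
        have h5 := (mono_arcSet.1 (h2 ⟨m, by omega⟩)).2
        have h6 : (⟨m, by omega⟩ : Fin (n + 1)) + 1 = ⟨m + 1, hm⟩ := by
          apply Fin.ext
          rw [Fin.val_add_one]
          split_ifs with h7
          · exfalso
            have := congrArg Fin.val h7
            simp at this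
            omega
          · rfl
        rw [h6] at h5
        rw [h4, h5]
    intro i j
    rw [ofBool_eq, ← key i.val i.isLt, ← key j.val j.isLt]

/-- from the internal statement to the official one -/
theorem mixing_of_mix {A : V → V → Prop} (hm : Mix (arcSet A) Finset.univ ∅) : Mixing 2 A := by
  have key : ∀ e e' : V → Bool, Reach (arcSet A) Finset.univ ∅ e e' →
      ∀ (he : IsDicolouring 2 A (ofBool e)) (he' : IsDicolouring 2 A (ofBool e')),
      (dicolouringGraph 2 A).Reachable ⟨ofBool e, he⟩ ⟨ofBool e', he'⟩ := by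
    intro e e' hr
    induction hr with
    | refl => intro he he'; exact SimpleGraph.Reachable.refl _
    | tail _ hs ih =>
      rename_i e₁ e₂ _
      intro he he'
      have he₁ : IsDicolouring 2 A (ofBool e₁) := val_arcSet.1 hs.1.1
      refine (ih he he₁).trans ?_
      obtain ⟨v, hv⟩ := hs.2.2
      by_cases hvv : e₁ v = e₂ v
      · have : e₁ = e₂ := by
          funext w
          by_cases hw : w = v
          · rw [hw, hvv]
          · exact hv w (Finset.mem_univ _) hw
        subst this
        exact SimpleGraph.Reachable.refl _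
      · refine SimpleGraph.Adj.reachable ⟨v, ?_, fun w hw => ?_⟩
        · intro h
          apply hvv
          simp only [ofBool] at h
          cases h1 : e₁ v <;> cases h2 : e₂ v <;> simp_all
        · simp only [ofBool, hv w (Finset.mem_univ _) hw]
  rintro ⟨c, hc⟩ ⟨d, hd⟩
  have hc' : IsDicolouring 2 A (ofBool (toBool c)) := by rw [ofBool_toBool]; exact hc
  have hd' : IsDicolouring 2 A (ofBool (toBool d)) := by rw [ofBool_toBool]; exact hd
  have := key (toBool c) (toBool d)
    (hm _ _ ⟨val_arcSet.2 hc', by simp⟩ ⟨val_arcSet.2 hd', by simp⟩) hc' hd'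
  have e1 : (⟨ofBool (toBool c), hc'⟩ : {c : V → Fin 2 // IsDicolouring 2 A c}) = ⟨c, hc⟩ :=
    Subtype.ext (ofBool_toBool c)
  have e2 : (⟨ofBool (toBool d), hd'⟩ : {c : V → Fin 2 // IsDicolouring 2 A c}) = ⟨d, hd⟩ :=
    Subtype.ext (ofBool_toBool d)
  rw [e1, e2] at this
  exact this

theorem ori_arcSet {A : V → V → Prop} (hA : IsOriented A) : Ori (arcSet A) := by
  intro a b hab hba
  simp only [arcSet, Finset.mem_filter, Finset.mem_univ, true_and] at hab hba
  exact hA a b hab hba

/-- a dense induced subdigraph gives a lower bound for `Mad` -/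
theorem le_mad {A : V → V → Prop} {H : Finset V} (hH : H.Nonempty) :
    2 * (eN (arcSet A) H : ℝ) / (H.card : ℝ) ≤ Mad A := by
  unfold Mad
  refine le_csSup ?_ ⟨H, arcs (arcSet A) H, hH, ?_, rfl⟩
  · refine ⟨2 * (Fintype.card (V × V) : ℝ), ?_⟩
    rintro x ⟨S, B, hS, _, rfl⟩
    have h1 : (1 : ℝ) ≤ S.card := by exact_mod_cast hS.card_pos
    have h2 : (B.card : ℝ) ≤ Fintype.card (V × V) := by exact_mod_cast Finset.card_le_univ B
    rw [div_le_iff₀ (by linarith)]
    have h3 : (0 : ℝ) ≤ B.card := by positivity
    nlinarith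
  · intro e he
    simp only [arcs, arcSet, Finset.mem_filter, Finset.mem_univ, true_and] at he
    exact ⟨he.2.1, he.2.2, he.1⟩

/-- The official statement from the internal one. -/
theorem mad_ge_four
    (hmain : ∀ (D : Finset (V × V)) (W : Finset V), Ori D → (∀ Y ⊆ W, Y.Nonempty → eN D Y + 1 ≤ 2 * Y.card) →
      Mix D W ∅) {A : V → V → Prop} (hA : IsOriented A) (hnot : ¬ Mixing 2 A) : 4 ≤ Mad A := by
  by_contra hlt
  apply hnot
  refine mixing_of_mix (hmain _ _ (ori_arcSet hA) fun Y _ hY => ?_)
  have h1 := le_mad (A := A) hY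
  have h2 : 2 * (eN (arcSet A) Y : ℝ) / (Y.card : ℝ) < 4 := lt_of_le_of_lt h1 (not_le.1 hlt)
  have h3 : (0 : ℝ) < Y.card := by exact_mod_cast hY.card_pos
  rw [div_lt_iff₀ h3] at h2
  have h4 : (eN (arcSet A) Y : ℝ) < 2 * Y.card := by linarith
  have h5 : eN (arcSet A) Y < 2 * Y.card := by exact_mod_cast h4
  omega

end

end Pool.Agent.MP_784a73_co
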