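import Pool.Agent.Lib.MP_784a73_co.A1

/-!
# MP_784a73_co, row G1: counting

* `eN_erase`: arcs inside `H` = arcs inside `H.erase v` + arcs `(a,v)`, `a ∈ inN` + arcs `(v,b)`, `b ∈ outN` (no loops by `Ori`).
* `sum_dg`: `∑ |inN| = ∑ |outN| = eN` (`Finset.card_eq_sum_card_fiberwise` for `Prod.snd` / `Prod.fst`).
* `eN_insert_le`: `arcs (insert e D) H ⊆ insert e (arcs D H)`.
* `exists_val`: strong induction on `|H|`: if `H = ∅` trivial.  `∑ dg = 2 eN ≤ 4|H| - 2`, so some `v ∈ H` has `dg ≤ 3`, so `|inN| ≤ 1` or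
  `|outN| ≤ 1`; take `c` for `H.erase v` and `val_update_in` / `val_update_out` (`val_of_source`, `val_of_sink` if empty).
-/

namespace Pool.Agent.MP_784a73_co

open Relation 

universe u

set_option linter.unusedSectionVars false

section
variable {V : Type u} [Fintype V] [DecidableEq V] {D : Finset (V × V)} {H Q : Finset V}

theorem g1_loop (hD : Ori D) (v : V) : (v, v) ∉ D := fun h => hD v v h h

theorem g1_mem_arcs {e : V × V} : e ∈ arcs D H ↔ e ∈ D ∧ e.1 ∈ H ∧ e.2 ∈ H := by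
  simp [arcs]

theorem g1_mem_in {v a : V} : a ∈ inN D H v ↔ a ∈ H ∧ (a, v) ∈ D := by
  simp [inN]

theorem g1_mem_out {v a : V} : a ∈ outN D H v ↔ a ∈ H ∧ (v, a) ∈ D := by
  simp [outN]

theorem g1_in_image (v : V) (hv : v ∈ H) :
    (inN D H v).image (fun a => (a, v)) = (arcs D H).filter (fun e => e.2 = v) := by
  ext ⟨a, b⟩
  simp only [Finset.mem_image, g1_mem_in, Finset.mem_filter, g1_mem_arcs, Prod.mk.injEq]
  constructor
  · rintro ⟨a', ⟨h1, h2⟩, rfl, rfl⟩
    exact ⟨⟨h2, h1, hv⟩, rfl⟩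
  · rintro ⟨⟨h1, h2, h3⟩, rfl⟩
    exact ⟨a, ⟨h2, h1⟩, rfl, rfl⟩

theorem g1_out_image (v : V) (hv : v ∈ H) :
    (outN D H v).image (fun b => (v, b)) = (arcs D H).filter (fun e => e.1 = v) := by
  ext ⟨a, b⟩
  simp only [Finset.mem_image, g1_mem_out, Finset.mem_filter, g1_mem_arcs, Prod.mk.injEq]
  constructor
  · rintro ⟨a', ⟨h1, h2⟩, rfl, rfl⟩
    exact ⟨⟨h2, hv, h1⟩, rfl⟩
  · rintro ⟨⟨h1, h2, h3⟩, rfl⟩
    exact ⟨b, ⟨h3, h1⟩, rfl, rfl⟩

theorem g1_card_in (v : V) (hv : v ∈ H) : (inN D H v).card = ((arcs D H).filter (fun e => e.2 = v)).card := by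
  rw [← g1_in_image v hv, Finset.card_image_of_injective]
  intro a b h
  exact (Prod.mk.inj h).1

theorem g1_card_out (v : V) (hv : v ∈ H) : (outN D H v).card = ((arcs D H).filter (fun e => e.1 = v)).card := by
  rw [← g1_out_image v hv, Finset.card_image_of_injective]
  intro a b h
  exact (Prod.mk.inj h).2

theorem eN_erase (hD : Ori D) {v : V} (hv : v ∈ H) : eN D H = eN D (H.erase v) + dg D H v := by
  have h1 : arcs D H = arcs D (H.erase v) ∪ ((arcs D H).filter (fun e => e.2 = v) ∪ (arcs D H).filter (fun e => e.1 = v)) := by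
    ext ⟨a, b⟩
    simp only [Finset.mem_union, Finset.mem_filter, g1_mem_arcs, Finset.mem_erase]
    constructor
    · rintro ⟨h1, h2, h3⟩
      by_cases hb : b = v
      · exact Or.inr (Or.inl ⟨⟨h1, h2, h3⟩, hb⟩)
      · by_cases ha : a = v
        · exact Or.inr (Or.inr ⟨⟨h1, h2, h3⟩, ha⟩)
        · exact Or.inl ⟨h1, ⟨ha, h2⟩, ⟨hb, h3⟩⟩
    · rintro (⟨h1, ⟨_, h2⟩, ⟨_, h3⟩⟩ | ⟨h, _⟩ | ⟨h, _⟩)
      · exact ⟨h1, h2, h3⟩
      · exact h
      · exact h
  have h2 : Disjoint ((arcs D H).filter (fun e => e.2 = v)) ((arcs D H).filter (fun e => e.1 = v)) := by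
    rw [Finset.disjoint_left]
    rintro ⟨a, b⟩ h h'
    simp only [Finset.mem_filter, g1_mem_arcs] at h h'
    obtain ⟨⟨h3, _, _⟩, rfl⟩ := h
    obtain ⟨_, rfl⟩ := h'
    exact g1_loop hD _ h3
  have h3 : Disjoint (arcs D (H.erase v)) ((arcs D H).filter (fun e => e.2 = v) ∪ (arcs D H).filter (fun e => e.1 = v)) := by
    rw [Finset.disjoint_left]
    rintro ⟨a, b⟩ h h'
    simp only [Finset.mem_union, Finset.mem_filter, g1_mem_arcs, Finset.mem_erase] at h h'
    rcases h' with ⟨_, h'⟩ | ⟨_, h'⟩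
    · exact h.2.2.1 h'
    · exact h.2.1.1 h'
  have h4 := congrArg Finset.card h1
  rw [Finset.card_union_of_disjoint h3, Finset.card_union_of_disjoint h2, ← g1_card_in v hv, ← g1_card_out v hv] at h4
  exact h4

theorem eN_mono_sub {H' : Finset V} (h : H' ⊆ H) : eN D H' ≤ eN D H := by
  refine Finset.card_le_card fun e he => ?_
  rw [g1_mem_arcs] at he ⊢
  exact ⟨he.1, h he.2.1, h he.2.2⟩

theorem sum_dg (D : Finset (V × V)) (H : Finset V) : ∑ v ∈ H, dg D H v = 2 * eN D H := by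
  have h1 : eN D H = ∑ v ∈ H, ((arcs D H).filter (fun e => e.2 = v)).card :=
    Finset.card_eq_sum_card_fiberwise (f := Prod.snd) fun e he => (g1_mem_arcs.1 he).2.2
  have h2 : eN D H = ∑ v ∈ H, ((arcs D H).filter (fun e => e.1 = v)).card :=
    Finset.card_eq_sum_card_fiberwise (f := Prod.fst) fun e he => (g1_mem_arcs.1 he).2.1
  unfold dg
  rw [Finset.sum_add_distrib, Finset.sum_congr rfl fun v hv => g1_card_in v hv,
    Finset.sum_congr rfl fun v hv => g1_card_out v hv, ← h1, ← h2]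
  ring

theorem eN_insert_le (e : V × V) : eN (insert e D) H ≤ eN D H + 1 := by
  have h : arcs (insert e D) H ⊆ insert e (arcs D H) := by
    intro x hx
    rw [g1_mem_arcs] at hx
    rcases Finset.mem_insert.1 hx.1 with h | h
    · rw [h]
      exact Finset.mem_insert_self _ _
    · exact Finset.mem_insert_of_mem (g1_mem_arcs.2 ⟨h, hx.2⟩)
  exact (Finset.card_le_card h).trans (Finset.card_insert_le _ _)

theorem eN_single (hD : Ori D) (v : V) : eN D {v} = 0 := by
  unfold eN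
  rw [Finset.card_eq_zero, Finset.eq_empty_iff_forall_notMem]
  rintro ⟨a, b⟩ h
  obtain ⟨h1, h2, h3⟩ := g1_mem_arcs.1 h
  have h2' : a = v := Finset.mem_singleton.1 h2
  have h3' : b = v := Finset.mem_singleton.1 h3
  subst h2'
  subst h3'
  exact g1_loop hD _ h1

/-- `inN` and `outN` are disjoint and do not contain `v` -/
theorem inN_disj_outN (hD : Ori D) (v : V) : Disjoint (inN D H v) (outN D H v) := by
  rw [Finset.disjoint_left]
  intro a h h'
  exact hD _ _ (g1_mem_in.1 h).2 (g1_mem_out.1 h').2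

theorem not_mem_inN (hD : Ori D) (v : V) : v ∉ inN D H v ∧ v ∉ outN D H v :=
  ⟨fun h => g1_loop hD _ (g1_mem_in.1 h).2, fun h => g1_loop hD _ (g1_mem_out.1 h).2⟩

theorem exists_val (hD : Ori D) (hs : ∀ H' ⊆ H, H'.Nonempty → eN D H' + 1 ≤ 2 * H'.card) : ∃ c, Val D H c := by
  induction H using Finset.strongInduction with
  | H H ih =>
    rcases H.eq_empty_or_nonempty with rfl | hne
    · refine ⟨fun _ => true, fun a h => ?_⟩
      obtain ⟨b, h1, _⟩ := Relation.TransGen.head'_iff.1 h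
      exact absurd h1.2.1 (Finset.notMem_empty _)
    · have h1 := sum_dg D H
      have h2 := hs H (Finset.Subset.refl _) hne
      have h3 : ∃ v ∈ H, dg D H v < 4 := by
        by_contra hcon
        push Not at hcon
        have h4 : H.card • 4 ≤ ∑ v ∈ H, dg D H v := Finset.card_nsmul_le_sum H (fun v => dg D H v) 4 hcon
        rw [smul_eq_mul] at h4
        omega
      obtain ⟨v, hv, h5⟩ := h3
      obtain ⟨c, hc⟩ := ih (H.erase v) (Finset.erase_ssubset hv) fun H' h' => hs H' (h'.trans (Finset.erase_subset _ _))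
      unfold dg at h5
      have h6 : (inN D H v).card ≤ 1 ∨ (outN D H v).card ≤ 1 := by omega
      rcases h6 with h6 | h6
      · rcases (inN D H v).eq_empty_or_nonempty with h7 | ⟨u, hu⟩
        · exact ⟨c, val_of_source hD h7 hc⟩
        · refine ⟨_, val_update_in hD hv (u := u) ?_ hc⟩
          intro x hx
          exact Finset.mem_singleton.2 (Finset.card_le_one.1 h6 x hx u hu)
      · rcases (outN D H v).eq_empty_or_nonempty with h7 | ⟨u, hu⟩
        · exact ⟨c, val_of_sink hD h7 hc⟩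
        · refine ⟨_, val_update_out hD hv (u := u) ?_ hc⟩
          intro x hx
          exact Finset.mem_singleton.2 (Finset.card_le_one.1 h6 x hx u hu)

end

end Pool.Agent.MP_784a73_co
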