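import Pool.Agent.Lib.MP_784a73_co.Defs

/-!
# MP_784a73_co: definitions for the pinned linear algebra (P1, T)

`P` is the pinned set with colouring `h` (only the values on `P ∩ W` matter), `W` the active set.
Unknown `y = (x, λ) = ((f, π), λ)`; on `P` we have `x = λ z`, for arcs of `D[W]` not inside `P` the equations with parameters `s`.
-/

namespace Pool.Agent.MP_784a73_co

open Relation 

universe u

set_option linter.unusedSectionVars false

section
variable {V : Type u} [Fintype V] [DecidableEq V] {D : Finset (V × V)} {W P : Finset V} {h : V → Bool}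

/-- `c` is valid on `W` and equal to `h` on `P ∩ W` -/
def AdmP (D : Finset (V × V)) (W P : Finset V) (h c : V → Bool) : Prop :=
  Val D W c ∧ ∀ p ∈ P, p ∈ W → c p = h p

def StepP (D : Finset (V × V)) (W P : Finset V) (h c c' : V → Bool) : Prop :=
  AdmP D W P h c ∧ AdmP D W P h c' ∧ ∃ v, ∀ w ∈ W, w ≠ v → c w = c' w

def ReachP (D : Finset (V × V)) (W P : Finset V) (h : V → Bool) : (V → Bool) → (V → Bool) → Prop :=
  ReflTransGen (StepP D W P h)

/-- the extensions of `h` to `W` are connected by steps -/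
def MixP (D : Finset (V × V)) (W P : Finset V) (h : V → Bool) : Prop :=
  ∀ c c', AdmP D W P h c → AdmP D W P h c' → ReachP D W P h c c'

/-- the solution space over the base point `(s, z)` -/
def Sol (D : Finset (V × V)) (W P : Finset V) (s : Par V) (z : Vec V) : Submodule ℝ (Vec V × ℝ) where
  carrier := {y | (∀ v, v ∉ W → y.1.1 v = 0 ∧ y.1.2 v = 0) ∧
    (∀ p ∈ P, y.1.1 p = y.2 * z.1 p ∧ y.1.2 p = y.2 * z.2 p) ∧
    ∀ e ∈ D, e.1 ∈ W → e.2 ∈ W → ¬ (e.1 ∈ P ∧ e.2 ∈ P) →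
      y.1.2 e.2 - y.1.2 e.1 = s.1 e * y.1.1 e.1 + s.2 e * y.1.1 e.2}
  add_mem' := by
    rintro x y ⟨h1, h2, h3⟩ ⟨g1, g2, g3⟩
    refine ⟨fun v hv => ?_, fun p hp => ?_, fun e he h h' hn => ?_⟩
    · simp [h1 v hv, g1 v hv]
    · simp [h2 p hp, g2 p hp, add_mul]
    · have a := h3 e he h h' hn
      have b := g3 e he h h' hn
      simp only [Prod.fst_add, Prod.snd_add, Pi.add_apply]
      linear_combination a + b
  zero_mem' := by simp
  smul_mem' := by
    rintro t x ⟨h1, h2, h3⟩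
    refine ⟨fun v hv => ?_, fun p hp => ?_, fun e he h h' hn => ?_⟩
    · simp [h1 v hv]
    · simp [h2 p hp, mul_assoc]
    · have a := h3 e he h h' hn
      simp only [Prod.smul_fst, Prod.smul_snd, Pi.smul_apply, smul_eq_mul]
      linear_combination t * a

theorem mem_Sol {s : Par V} {z : Vec V} {y : Vec V × ℝ} :
    y ∈ Sol D W P s z ↔ (∀ v, v ∉ W → y.1.1 v = 0 ∧ y.1.2 v = 0) ∧
    (∀ p ∈ P, y.1.1 p = y.2 * z.1 p ∧ y.1.2 p = y.2 * z.2 p) ∧
    ∀ e ∈ D, e.1 ∈ W → e.2 ∈ W → ¬ (e.1 ∈ P ∧ e.2 ∈ P) →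
      y.1.2 e.2 - y.1.2 e.1 = s.1 e * y.1.1 e.1 + s.2 e * y.1.1 e.2 := Iff.rfl

/-- `z` on `P` has sign pattern `h` and is strictly monotone on mono arcs -/
def ZP (D : Finset (V × V)) (P : Finset V) (h : V → Bool) (z : Vec V) : Prop :=
  (∀ v ∈ P, z.1 v ≠ 0 ∧ (h v = true ↔ 0 < z.1 v)) ∧
    ∀ a b, mono D P h a b → (h a = true → z.2 a < z.2 b) ∧ (h a = false → z.2 b < z.2 a)

/-- `z` on `P` has at most one zero and is strictly monotone (zero counts for both colours) -/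
def ZX (D : Finset (V × V)) (P : Finset V) (z : Vec V) : Prop :=
  (∃ v, ∀ w ∈ P, w ≠ v → z.1 w ≠ 0) ∧
    ∀ e ∈ D, e.1 ∈ P → e.2 ∈ P → (0 ≤ z.1 e.1 → 0 ≤ z.1 e.2 → z.2 e.1 < z.2 e.2) ∧
      (z.1 e.1 ≤ 0 → z.1 e.2 ≤ 0 → z.2 e.2 < z.2 e.1)

/-- the fibre over `(s, z)` -/
def ConeP (D : Finset (V × V)) (W P : Finset V) (s : Par V) (z : Vec V) : Set (Vec V × ℝ) :=
  {y | y ∈ Sol D W P s z ∧ y ≠ 0 ∧ 0 ≤ y.2}

/-- the colourings attached to `x`; `A` is the set of pins that is respected -/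
def ClsP (D : Finset (V × V)) (W A : Finset V) (h : V → Bool) (x : Vec V) (d : V → Bool) : Prop :=
  AdmP D W A h d ∧ ∀ v ∈ W, x.1 v ≠ 0 → (d v = true ↔ 0 < x.1 v)

end

end Pool.Agent.MP_784a73_co
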