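import Pool.Agent.Lib.MP_784a73_co.LADefs
import Pool.Agent.Lib.MP_784a73_co.B1

/-!
# MP_784a73_co, row LB1: dimension of the solution space

As in `B1` (`finrank_K_mono`): unknowns `(g, k, λ) ∈ (W \ P → ℝ)² × ℝ`, `ψ (g,k,λ) = ((g on W\P, λ z.1 on P, 0 else), (k.., λ z.2 on P), λ)`,
injective (`λ` and the values on `W \ P` are recovered), arc functionals on `T = arcs D W \ arcs D P`.
-/

namespace Pool.Agent.MP_784a73_co

open Relation 

universe u

set_option linter.unusedSectionVars false

section
variable {V : Type u} [Fintype V] [DecidableEq V] {D : Finset (V × V)} {W P : Finset V} {h : V → Bool}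

/-- the base point restricted to `P` -/
noncomputable def lb1res (P : Finset V) (z : Vec V) : Vec V :=
  (fun v => if v ∈ P then z.1 v else 0, fun v => if v ∈ P then z.2 v else 0)

/-- the map `ψ` -/
noncomputable def lb1psi (S P : Finset V) (z : Vec V) :
    (({v // v ∈ S} → ℝ) × ({v // v ∈ S} → ℝ) × ℝ) →ₗ[ℝ] Vec V × ℝ :=
  ((((b1ext S).comp (LinearMap.fst ℝ _ _)).prod
      ((b1ext S).comp ((LinearMap.fst ℝ _ _).comp (LinearMap.snd ℝ _ _)))) +
    ((LinearMap.snd ℝ _ _).comp (LinearMap.snd ℝ _ _)).smulRight (lb1res P z)).prod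
      ((LinearMap.snd ℝ _ _).comp (LinearMap.snd ℝ _ _))

theorem lb1psi_1 (S P : Finset V) (z : Vec V)
    (w : ({v // v ∈ S} → ℝ) × ({v // v ∈ S} → ℝ) × ℝ) (v : V) :
    (lb1psi S P z w).1.1 v = b1ext S w.1 v + w.2.2 * (if v ∈ P then z.1 v else 0) := by
  simp [lb1psi, lb1res]

theorem lb1psi_2 (S P : Finset V) (z : Vec V)
    (w : ({v // v ∈ S} → ℝ) × ({v // v ∈ S} → ℝ) × ℝ) (v : V) :
    (lb1psi S P z w).1.2 v = b1ext S w.2.1 v + w.2.2 * (if v ∈ P then z.2 v else 0) := by
  simp [lb1psi, lb1res]

theorem lb1psi_3 (S P : Finset V) (z : Vec V)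
    (w : ({v // v ∈ S} → ℝ) × ({v // v ∈ S} → ℝ) × ℝ) :
    (lb1psi S P z w).2 = w.2.2 := rfl

theorem finrank_Sol (hP : P ⊆ W) (s : Par V) (z : Vec V) :
    2 * W.card + 1 + eN D P ≤ Module.finrank ℝ (Sol D W P s z) + 2 * P.card + eN D W := by
  classical
  set S := W \ P with hS
  set T := arcs D W \ arcs D P with hT
  set ψ := lb1psi S P z with hψ
  set L := (b1arc s T).comp ((LinearMap.fst ℝ (Vec V) ℝ).comp ψ) with hL
  have hsub : arcs D P ⊆ arcs D W := by
    intro e he
    simp only [arcs, Finset.mem_filter] at he ⊢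
    exact ⟨he.1, hP he.2.1, hP he.2.2⟩
  have hSc : S.card + P.card = W.card := by
    rw [hS]; exact Finset.card_sdiff_add_card_eq_card hP
  have hTc : T.card + eN D P = eN D W := by
    rw [hT]; exact Finset.card_sdiff_add_card_eq_card hsub
  have key : ∀ w ∈ LinearMap.ker L, ψ w ∈ Sol D W P s z := by
    intro w hw
    rw [LinearMap.mem_ker] at hw
    rw [mem_Sol]
    refine ⟨fun v hv => ?_, fun p hp => ?_, fun e he h1 h2 h3 => ?_⟩
    · have hv' : v ∉ P := fun h => hv (hP h)
      have hvS : v ∉ S := fun h => hv (Finset.mem_sdiff.1 h).1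
      rw [hψ, lb1psi_1, lb1psi_2, b1ext_not _ hvS, b1ext_not _ hvS, if_neg hv', if_neg hv']
      simp
    · have hpS : p ∉ S := fun h => (Finset.mem_sdiff.1 h).2 hp
      rw [hψ, lb1psi_1, lb1psi_2, lb1psi_3, b1ext_not _ hpS, b1ext_not _ hpS, if_pos hp, if_pos hp]
      simp
    · have heT : e ∈ T := by
        rw [hT, Finset.mem_sdiff]
        refine ⟨?_, fun h => h3 ?_⟩
        · simp only [arcs, Finset.mem_filter]; exact ⟨he, h1, h2⟩
        · simp only [arcs, Finset.mem_filter] at h; exact h.2
      have := congrFun hw ⟨e, heT⟩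
      simp only [hL, LinearMap.comp_apply, b1arc, LinearMap.coe_mk, AddHom.coe_mk,
        Pi.zero_apply, LinearMap.fst_apply] at this
      linear_combination this
  have hinj : Function.Injective ψ := by
    rw [injective_iff_map_eq_zero]
    intro w hw
    have e3 : w.2.2 = 0 := by
      rw [← lb1psi_3 S P z w, ← hψ, hw]; rfl
    have e1 : ∀ v, b1ext S w.1 v = 0 := fun v => by
      have := lb1psi_1 S P z w v
      rw [e3, zero_mul, add_zero, ← hψ, hw] at this
      exact this.symm
    have e2 : ∀ v, b1ext S w.2.1 v = 0 := fun v => by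
      have := lb1psi_2 S P z w v
      rw [e3, zero_mul, add_zero, ← hψ, hw] at this
      exact this.symm
    have g0 : w.1 = 0 := by
      funext v
      have := e1 v.1
      rw [b1ext_mem _ v.2] at this
      simpa using this
    have h0 : w.2.1 = 0 := by
      funext v
      have := e2 v.1
      rw [b1ext_mem _ v.2] at this
      simpa using this
    exact Prod.ext g0 (Prod.ext h0 e3)
  have r1 : Module.finrank ℝ (LinearMap.ker L) ≤ Module.finrank ℝ (Sol D W P s z) := by
    let φ : LinearMap.ker L →ₗ[ℝ] Sol D W P s z :=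
      (ψ.comp (LinearMap.ker L).subtype).codRestrict (Sol D W P s z) fun w => key w.1 w.2
    refine LinearMap.finrank_le_finrank_of_injective (f := φ) ?_
    intro a b hab
    have := congrArg Subtype.val hab
    simp only [φ] at this
    exact Subtype.ext (hinj this)
  have r2 := LinearMap.finrank_range_add_finrank_ker L
  have r3 : Module.finrank ℝ (LinearMap.range L) ≤ T.card := by
    have := Submodule.finrank_le (LinearMap.range L)
    rw [Module.finrank_fintype_fun_eq_card, Fintype.card_coe] at this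
    exact this
  rw [Module.finrank_prod, Module.finrank_prod, Module.finrank_fintype_fun_eq_card,
    Fintype.card_coe, Module.finrank_self] at r2
  omega

end

end Pool.Agent.MP_784a73_co
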