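import Pool.Agent.Lib.MP_784a73_co.LADefs
import Pool.Agent.Lib.MP_784a73_co.B2
import Pool.Agent.Lib.MP_784a73_co.B2b

/-!
# MP_784a73_co, row LB2: zero sets

* `zero_set'`: the proof of `zero_set` in `B2.lean` (it does not use the normalisation).
* `ZX_of_ZP`: `v` arbitrary (for `P = ∅` too: use any vertex, e.g. if `V` is empty there is nothing to do; `∃ v` needs an element: hypothesis
  `hne`).  Arcs inside `P`: `0 ≤ z.1 a`, `0 ≤ z.1 b` and no zeros: `h a = h b = true`, mono arc.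
* `sol_full`: `s'' e := ` (for arcs inside `P`: coefficients from `exists_coeff` for `z`, using `ZX`; at most one zero and `e.1 ≠ e.2` by `Ori`),
  `s e` otherwise.  For arcs inside `P`: `x = λ z` on `P`.
* `ZP_of_pat`: for a mono arc `(a,b)` of colour `true` inside `P`: `x.2 b - x.2 a = s.1 * x.1 a + s.2 * x.1 b > 0`.
* `cone_zero`: if `f = 0` on `W` and `λ = 0` and all nonempty `A ⊆ W \ P` have an arc to `W \ A`, then `y = 0`: apply `hJ` to
  `A = {v ∈ W | π v ≠ 0}` (contained in `W \ P` because `π = 0` on `P`).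
-/

namespace Pool.Agent.MP_784a73_co

open Relation 

universe u

set_option linter.unusedSectionVars false

section
variable {V : Type u} [Fintype V] [DecidableEq V] {D : Finset (V × V)} {W P : Finset V} {h : V → Bool}

theorem zero_set' {s : Par V} (hs : Pos s) {x : Vec V}
    (hx : ∀ e ∈ D, e.1 ∈ W → e.2 ∈ W → x.2 e.2 - x.2 e.1 = s.1 e * x.1 e.1 + s.2 e * x.1 e.2) {d : V → Bool}
    (hd : Val D (W.filter fun v => x.1 v = 0) d) (hsg : ∀ v ∈ W, x.1 v ≠ 0 → (d v = true ↔ 0 < x.1 v)) : Val D W d := by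
  intro a ha
  have hK := hx
  set t : ℝ := if d a = true then 1 else -1 with ht
  have ht0 : t ≠ 0 := by
    rw [ht]; split_ifs <;> norm_num
  have hF : ∀ v ∈ W, d v = d a → 0 ≤ t * x.1 v := by
    intro v hv hva
    by_cases h0 : x.1 v = 0
    · rw [h0]; simp
    · have h1 := hsg v hv h0
      rw [hva] at h1
      rw [ht]
      split_ifs with hc
      · have := h1.mp hc
        linarith
      · have h2 : ¬ 0 < x.1 v := fun h => hc (h1.mpr h)
        push Not at h2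
        linarith
  have harc : ∀ u v, mono D W d u v → d u = d a →
      t * x.2 u ≤ t * x.2 v ∧ (t * x.2 u = t * x.2 v → mono D (W.filter fun v => x.1 v = 0) d u v) := by
    rintro u v ⟨h1, h2, h3, h4⟩ hu
    have hk := hK (u, v) h1 h2 h3
    have hs1 := (hs (u, v)).1
    have hs2 := (hs (u, v)).2
    have hFu := hF u h2 hu
    have hFv := hF v h3 (h4 ▸ hu)
    have e1 : t * x.2 v - t * x.2 u = s.1 (u, v) * (t * x.1 u) + s.2 (u, v) * (t * x.1 v) := by
      have : x.2 v - x.2 u = s.1 (u, v) * x.1 u + s.2 (u, v) * x.1 v := hk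
      linear_combination t * this
    have e2 : 0 ≤ s.1 (u, v) * (t * x.1 u) := mul_nonneg hs1.le hFu
    have e3 : 0 ≤ s.2 (u, v) * (t * x.1 v) := mul_nonneg hs2.le hFv
    refine ⟨by linarith, fun heq => ?_⟩
    have e4 : s.1 (u, v) * (t * x.1 u) = 0 := by linarith
    have e5 : s.2 (u, v) * (t * x.1 v) = 0 := by linarith
    have f1 : x.1 u = 0 := by
      rcases mul_eq_zero.mp e4 with h | h
      · exact absurd h hs1.ne'
      · exact (mul_eq_zero.mp h).resolve_left ht0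
    have f2 : x.1 v = 0 := by
      rcases mul_eq_zero.mp e5 with h | h
      · exact absurd h hs2.ne'
      · exact (mul_eq_zero.mp h).resolve_left ht0
    exact ⟨h1, Finset.mem_filter.mpr ⟨h2, f1⟩, Finset.mem_filter.mpr ⟨h3, f2⟩, h4⟩
  have key : ∀ b, TransGen (mono D W d) a b → d b = d a ∧ t * x.2 a ≤ t * x.2 b ∧
      (t * x.2 a = t * x.2 b → TransGen (mono D (W.filter fun v => x.1 v = 0) d) a b) := by
    intro b hb
    induction hb with
    | single h =>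
      have h1 := harc _ _ h rfl
      exact ⟨h.2.2.2.symm, h1.1, fun heq => TransGen.single (h1.2 heq)⟩
    | tail _ h ih =>
      obtain ⟨i1, i2, i3⟩ := ih
      have h1 := harc _ _ h i1
      refine ⟨h.2.2.2.symm.trans i1, i2.trans h1.1, fun heq => ?_⟩
      have j1 := h1.1
      exact (i3 (le_antisymm i2 (by linarith))).tail (h1.2 (le_antisymm j1 (by linarith)))
  exact hd a ((key a ha).2.2 rfl)

theorem ZX_of_ZP (hne : P.Nonempty) {z : Vec V} (hz : ZP D P h z) : ZX D P z := by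
  obtain ⟨h1, h2⟩ := hz
  obtain ⟨v₀, hv₀⟩ := hne
  have hT : ∀ v ∈ P, 0 ≤ z.1 v → h v = true := fun v hv h0 =>
    (h1 v hv).2.2 (lt_of_le_of_ne h0 (h1 v hv).1.symm)
  have hF : ∀ v ∈ P, z.1 v ≤ 0 → h v = false := fun v hv h0 => by
    have h3 : ¬ h v = true := fun h4 => absurd ((h1 v hv).2.1 h4) (not_lt.2 h0)
    simpa using h3
  refine ⟨⟨v₀, fun w hw _ => (h1 w hw).1⟩, fun e he he1 he2 => ⟨fun a b => ?_, fun a b => ?_⟩⟩
  · have e1 := hT _ he1 a
    have e2 := hT _ he2 b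
    exact (h2 e.1 e.2 ⟨he, he1, he2, e1.trans e2.symm⟩).1 e1
  · have e1 := hF _ he1 a
    have e2 := hF _ he2 b
    exact (h2 e.1 e.2 ⟨he, he1, he2, e1.trans e2.symm⟩).2 e1

theorem sol_full (hD : Ori D) (hP : P ⊆ W) {s : Par V} (hs : Pos s) {z : Vec V} (hz : ZX D P z) {y : Vec V × ℝ}
    (hy : y ∈ Sol D W P s z) :
    ∃ s' : Par V, Pos s' ∧ ∀ e ∈ D, e.1 ∈ W → e.2 ∈ W → y.1.2 e.2 - y.1.2 e.1 = s'.1 e * y.1.1 e.1 + s'.2 e * y.1.1 e.2 := by
  obtain ⟨⟨v₀, hv₀⟩, hm⟩ := hz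
  obtain ⟨_, y2, y3⟩ := hy
  have key : ∀ e : V × V, ∃ g : ℝ × ℝ, 0 < g.1 ∧ 0 < g.2 ∧ (e ∈ D → e.1 ∈ W → e.2 ∈ W →
      y.1.2 e.2 - y.1.2 e.1 = g.1 * y.1.1 e.1 + g.2 * y.1.1 e.2) := by
    intro e
    by_cases he : e ∈ D ∧ e.1 ∈ P ∧ e.2 ∈ P
    · obtain ⟨he0, he1, he2⟩ := he
      have hne : e.1 ≠ e.2 := by
        intro h12
        have h3 : (e.1, e.2) ∈ D := he0
        rw [← h12] at h3
        exact hD _ _ h3 h3
      have hnz : z.1 e.1 ≠ 0 ∨ z.1 e.2 ≠ 0 := by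
        by_cases h5 : e.1 = v₀
        · exact Or.inr (hv₀ _ he2 (fun h6 => hne (h5.trans h6.symm)))
        · exact Or.inl (hv₀ _ he1 h5)
      obtain ⟨α, β, hα, hβ, ht⟩ := exists_coeff (z.1 e.1) (z.1 e.2) (z.2 e.2 - z.2 e.1)
        (fun a b _ => sub_pos.2 ((hm e he0 he1 he2).1 a b)) (fun a b _ => sub_neg.2 ((hm e he0 he1 he2).2 a b)) hnz
      refine ⟨(α, β), hα, hβ, fun _ _ _ => ?_⟩
      rw [(y2 _ he1).1, (y2 _ he1).2, (y2 _ he2).1, (y2 _ he2).2]
      show y.2 * z.2 e.2 - y.2 * z.2 e.1 = α * (y.2 * z.1 e.1) + β * (y.2 * z.1 e.2)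
      linear_combination y.2 * ht
    · refine ⟨(s.1 e, s.2 e), (hs e).1, (hs e).2, fun h1 h2 h3 => ?_⟩
      exact y3 e h1 h2 h3 fun h4 => he ⟨h1, h4.1, h4.2⟩
  choose g hg1 hg2 hg3 using key
  exact ⟨(fun e => (g e).1, fun e => (g e).2), fun e => ⟨hg1 e, hg2 e⟩, fun e h1 h2 h3 => hg3 e h1 h2 h3⟩

theorem ZP_of_pat (hP : P ⊆ W) {r : V} {s : Par V} (hs : Pos s) {x : Vec V} (hx : x ∈ K D W r s) {c : V → Bool}
    (hp : Pat W c x) : ZP D P c x := by
  obtain ⟨_, _, h3⟩ := hx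
  refine ⟨fun v hv => hp v (hP hv), fun a b hab => ?_⟩
  obtain ⟨m1, m2, m3, m4⟩ := hab
  have he : x.2 b - x.2 a = s.1 (a, b) * x.1 a + s.2 (a, b) * x.1 b := h3 (a, b) m1 (hP m2) (hP m3)
  have s1 := (hs (a, b)).1
  have s2 := (hs (a, b)).2
  refine ⟨fun hc => ?_, fun hc => ?_⟩
  · have xa := (hp a (hP m2)).2.1 hc
    have xb := (hp b (hP m3)).2.1 (m4.symm.trans hc)
    have q1 := mul_pos s1 xa
    have q2 := mul_pos s2 xb
    linarith
  · have hcb : c b = false := m4.symm.trans hc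
    have xa : x.1 a < 0 := by
      refine lt_of_le_of_ne (not_lt.1 fun h4 => ?_) (hp a (hP m2)).1
      have := (hp a (hP m2)).2.2 h4
      rw [hc] at this
      exact absurd this (by simp)
    have xb : x.1 b < 0 := by
      refine lt_of_le_of_ne (not_lt.1 fun h4 => ?_) (hp b (hP m3)).1
      have := (hp b (hP m3)).2.2 h4
      rw [hcb] at this
      exact absurd this (by simp)
    have q1 := mul_neg_of_pos_of_neg s1 xa
    have q2 := mul_neg_of_pos_of_neg s2 xb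
    linarith

theorem cone_zero (hP : P ⊆ W)
    (hJ : ∀ A ⊆ W \ P, A.Nonempty → ∃ e ∈ D, (e.1 ∈ A ∧ e.2 ∈ W \ A) ∨ (e.1 ∈ W \ A ∧ e.2 ∈ A)) {s : Par V} {z : Vec V}
    {y : Vec V × ℝ} (hy : y ∈ Sol D W P s z) (h0 : ∀ v ∈ W, y.1.1 v = 0) (hl : y.2 = 0) : y = 0 := by
  obtain ⟨y1, y2, y3⟩ := hy
  have hPz : ∀ p ∈ P, y.1.2 p = 0 := fun p hp => by rw [(y2 p hp).2, hl, zero_mul]
  have hA : (W.filter fun v => y.1.2 v ≠ 0) = ∅ := by
    by_contra hne
    have hsub : (W.filter fun v => y.1.2 v ≠ 0) ⊆ W \ P := by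
      intro v hv
      obtain ⟨v1, v2⟩ := Finset.mem_filter.1 hv
      exact Finset.mem_sdiff.2 ⟨v1, fun hvP => v2 (hPz v hvP)⟩
    obtain ⟨e, he, hcase⟩ := hJ _ hsub (Finset.nonempty_iff_ne_empty.2 hne)
    have hz : ∀ v, v ∈ W \ (W.filter fun v => y.1.2 v ≠ 0) → v ∈ W ∧ y.1.2 v = 0 := by
      intro v hv
      obtain ⟨v1, v2⟩ := Finset.mem_sdiff.1 hv
      refine ⟨v1, ?_⟩
      by_contra h4
      exact v2 (Finset.mem_filter.2 ⟨v1, h4⟩)
    rcases hcase with ⟨ha, hb⟩ | ⟨ha, hb⟩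
    · have hb' := hz _ hb
      obtain ⟨a1, a2⟩ := Finset.mem_filter.1 ha
      have hn : ¬ (e.1 ∈ P ∧ e.2 ∈ P) := fun h5 => a2 (hPz _ h5.1)
      have h6 := y3 e he a1 hb'.1 hn
      rw [h0 _ a1, h0 _ hb'.1, hb'.2] at h6
      apply a2
      linarith
    · have ha' := hz _ ha
      obtain ⟨b1, b2⟩ := Finset.mem_filter.1 hb
      have hn : ¬ (e.1 ∈ P ∧ e.2 ∈ P) := fun h5 => b2 (hPz _ h5.2)
      have h6 := y3 e he ha'.1 b1 hn
      rw [h0 _ ha'.1, h0 _ b1, ha'.2] at h6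
      apply b2
      linarith
  have hpi : ∀ v, y.1.2 v = 0 := by
    intro v
    by_cases hv : v ∈ W
    · by_contra hne
      have : v ∈ (W.filter fun v => y.1.2 v ≠ 0) := Finset.mem_filter.2 ⟨hv, hne⟩
      rw [hA] at this
      simp at this
    · exact (y1 v hv).2
  have hf : ∀ v, y.1.1 v = 0 := by
    intro v
    by_cases hv : v ∈ W
    · exact h0 v hv
    · exact (y1 v hv).1
  have e1 : y.1.1 = 0 := funext hf
  have e2 : y.1.2 = 0 := funext hpi
  exact Prod.ext (Prod.ext e1 e2) hl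

end

end Pool.Agent.MP_784a73_co
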