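import Pool.Agent.Lib.MP_784a73_co.LADefs
import Pool.Agent.Lib.MP_784a73_co.A2

/-!
# MP_784a73_co, row LB3: gluing with pins

Same proofs as in `A2.lean` (`glue`, `mix_of_split`).
* `mixP_iff_mix`: for `Z ∩ P = ∅`: `AdmP D Z P h c ↔ Val D Z c ↔ Adm D Z ∅ c`, hence `StepP D Z P h = Step D Z ∅`.
* `mixP_empty`: `MixP D W ∅ h ↔ Mix D W ∅`.
* `mixP_self`: `W ⊆ P`: two admissible colourings agree on `W`: one step.
-/

namespace Pool.Agent.MP_784a73_co

open Relation 

universe u

set_option linter.unusedSectionVars false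

section
variable {V : Type u} [Fintype V] [DecidableEq V] {D : Finset (V × V)} {W P : Finset V} {h : V → Bool}

theorem stepP_symm {c c' : V → Bool} (hs : StepP D W P h c c') : StepP D W P h c' c := by
  obtain ⟨a, b, v, hv⟩ := hs
  exact ⟨b, a, v, fun w hw hne => (hv w hw hne).symm⟩

theorem reachP_symm {c c' : V → Bool} (hs : ReachP D W P h c c') : ReachP D W P h c' c := by
  unfold ReachP at *
  induction hs with
  | refl => exact ReflTransGen.refl
  | tail _ h2 ih => exact ReflTransGen.head (stepP_symm h2) ih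

theorem reachP_trans {c c' c'' : V → Bool} (h1 : ReachP D W P h c c') (h2 : ReachP D W P h c' c'') :
    ReachP D W P h c c'' := ReflTransGen.trans h1 h2

/-- admissible colourings that agree on `W` are joined -/
private theorem LB3_reach_of_eq {c c' : V → Bool} (hc : AdmP D W P h c)
    (he : ∀ v ∈ W, c v = c' v) : ReachP D W P h c c' := by
  rcases isEmpty_or_nonempty V with hV | ⟨⟨v⟩⟩
  · have : c = c' := funext fun v => (hV.false v).elim
    rw [this]
    exact ReflTransGen.refl
  · refine ReflTransGen.single ⟨hc, ⟨val_congr he hc.1, fun q hq hqH => ?_⟩, v,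
      fun w hw _ => he w hw⟩
    rw [← he q hqH]
    exact hc.2 q hq hqH

private theorem LB3_admP_mono {Z : Finset V} (hZ : Z ⊆ W) {c : V → Bool}
    (hc : AdmP D W P h c) : AdmP D Z P h c :=
  ⟨val_mono hZ hc.1, fun q hq hqZ => hc.2 q hq (hZ hqZ)⟩

private theorem LB3_adm_iff {Z : Finset V} (hZ : Disjoint Z P) (c : V → Bool) :
    AdmP D Z P h c ↔ Adm D Z ∅ c := by
  constructor
  · intro hc
    exact ⟨hc.1, fun q hq => absurd hq (Finset.notMem_empty q)⟩
  · intro hc
    exact ⟨hc.1, fun q hq hqZ => absurd hq (Finset.disjoint_left.1 hZ hqZ)⟩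

private theorem LB3_step_iff {Z : Finset V} (hZ : Disjoint Z P) (c c' : V → Bool) :
    StepP D Z P h c c' ↔ Step D Z ∅ c c' := by
  unfold StepP Step
  rw [LB3_adm_iff hZ c, LB3_adm_iff hZ c']

theorem mixP_iff_mix {Z : Finset V} (hZ : Disjoint Z P) : MixP D Z P h ↔ Mix D Z ∅ := by
  have hr : ∀ c c', ReachP D Z P h c c' ↔ Reach D Z ∅ c c' := by
    intro c c'
    unfold ReachP Reach
    have : StepP D Z P h = Step D Z ∅ := by
      funext a b
      exact propext (LB3_step_iff hZ a b)
    rw [this]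
  unfold MixP Mix
  constructor
  · intro hm c c' hc hc'
    exact (hr c c').1 (hm c c' ((LB3_adm_iff hZ c).2 hc) ((LB3_adm_iff hZ c').2 hc'))
  · intro hm c c' hc hc'
    exact (hr c c').2 (hm c c' ((LB3_adm_iff hZ c).1 hc) ((LB3_adm_iff hZ c').1 hc'))

theorem mixP_empty : MixP D W ∅ h ↔ Mix D W ∅ :=
  mixP_iff_mix (Finset.disjoint_empty_right W)

theorem mixP_self (hW : W ⊆ P) : MixP D W P h := by
  intro c c' hc hc'
  refine LB3_reach_of_eq hc fun v hv => ?_
  rw [hc.2 v (hW hv) hv, hc'.2 v (hW hv) hv]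

theorem glueP {Z : Finset V} (hZ : Z ⊆ W) {c c' : V → Bool} (hm : MixP D Z P h)
    (hval : ∀ d, Val D Z d → (∀ v ∈ W, v ∉ Z → d v = c v) → Val D W d)
    (hc : AdmP D W P h c) (hc' : AdmP D W P h c') (heq : ∀ v ∈ W, v ∉ Z → c' v = c v) : ReachP D W P h c c' := by
  classical
  have hadm : ∀ d, AdmP D Z P h d → AdmP D W P h (fun v => if v ∈ Z then d v else c v) := by
    intro d hd
    refine ⟨hval _ (val_congr (fun v hv => ?_) hd.1) (fun v _ hvZ => ?_), fun q hq hqH => ?_⟩
    · simp [hv]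
    · simp [hvZ]
    · by_cases hqZ : q ∈ Z
      · simpa [hqZ] using hd.2 q hq hqZ
      · simpa [hqZ] using hc.2 q hq hqH
  have key : ∀ d, ReachP D Z P h c d → ReachP D W P h c (fun v => if v ∈ Z then d v else c v) := by
    intro d hd
    unfold ReachP at hd
    induction hd with
    | refl =>
      have : (fun v => if v ∈ Z then c v else c v) = c := by
        funext v; simp
      rw [this]
      exact ReflTransGen.refl
    | tail _ h2 ih =>
      refine ReflTransGen.tail ih ?_
      obtain ⟨ha, hb, v, hv⟩ := h2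
      refine ⟨hadm _ ha, hadm _ hb, v, fun w hw hne => ?_⟩
      by_cases hwZ : w ∈ Z
      · simp only [hwZ, if_true]
        exact hv w hwZ hne
      · simp only [hwZ, if_false]
  have h1 := key c' (hm c c' (LB3_admP_mono hZ hc) (LB3_admP_mono hZ hc'))
  refine reachP_trans h1 (LB3_reach_of_eq (hadm c' (LB3_admP_mono hZ hc')) fun v hv => ?_)
  by_cases hvZ : v ∈ Z
  · simp [hvZ]
  · simp [hvZ, heq v hv hvZ]

theorem mixP_of_split {A B : Finset V} (hU : A ∪ B = W) (hd : Disjoint A B)
    (hno : ∀ e ∈ D, ¬ ((e.1 ∈ A ∧ e.2 ∈ B) ∨ (e.1 ∈ B ∧ e.2 ∈ A))) (hA : MixP D A P h) (hB : MixP D B P h) :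
    MixP D W P h := by
  classical
  intro c c' hc hc'
  have hAH : A ⊆ W := hU ▸ Finset.subset_union_left
  have hBH : B ⊆ W := hU ▸ Finset.subset_union_right
  have hAB : ∀ v, v ∈ B → v ∉ A := fun v hvB hvA => (Finset.disjoint_left.1 hd) hvA hvB
  have hmem : ∀ v ∈ W, v ∈ A ∨ v ∈ B := fun v hv => by
    rw [← hU, Finset.mem_union] at hv
    exact hv
  have he : AdmP D W P h (fun v => if v ∈ A then c' v else c v) := by
    refine ⟨val_union hU hd hno (val_congr (fun v hv => ?_) (val_mono hAH hc'.1))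
      (val_congr (fun v hv => ?_) (val_mono hBH hc.1)), fun q hq hqH => ?_⟩
    · simp [hv]
    · simp [hAB v hv]
    · by_cases hqA : q ∈ A
      · simpa [hqA] using hc'.2 q hq hqH
      · simpa [hqA] using hc.2 q hq hqH
  refine reachP_trans (c' := fun v => if v ∈ A then c' v else c v) ?_ ?_
  · refine glueP hAH hA (fun d hdv hdc => ?_) hc he (fun v _ hvA => by simp [hvA])
    exact val_union hU hd hno hdv
      (val_congr (fun v hv => (hdc v (hBH hv) (hAB v hv)).symm) (val_mono hBH hc.1))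
  · refine glueP hBH hB (fun d hdv hdc => ?_) he hc' (fun v hv hvB => ?_)
    · refine val_union hU hd hno (val_congr (fun v hv => ?_) (val_mono hAH hc'.1)) hdv
      rw [hdc v (hAH hv) (fun hvB => hAB v hvB hv)]
      simp [hv]
    · have hvA : v ∈ A := (hmem v hv).resolve_right hvB
      simp [hvA]

end

end Pool.Agent.MP_784a73_co
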