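import Pool.Agent.Lib.MP_784a73_co.LADefs
import Pool.Agent.Lib.MP_784a73_co.A2
import Pool.Agent.Lib.MP_784a73_co.B2c

/-!
# MP_784a73_co, row LB4: the base `{z | ZX D P z}` is preconnected

* (1) `ZX z`, `z.1 v = 0` (or any sign), moving the zero: if `ZX z` and `z.1 v = 0`, `v ∈ P`, then for all `δ` the point
  `z + δ e_v` (`e_v = (Pi.single v 1, 0)`) satisfies `ZX` (for `δ > 0` the conditions at `v` are a subset of those of `z`; same for `δ < 0`).
  So `z` is joined in the set to `z + δ e_v` by a segment.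
* (2) every `z` with `ZX` is joined to some `z'` with `ZP D P h z'` for `h = sgn`, `h` valid on `P` (`val_of_pot` with `z'.2` resp. `- z'.2` by
  colour, i.e. potential `p v = if h v then z'.2 v else - z'.2 v`).
* (3) `{z | ZP D P h z}` is convex and contained in `{ZX}` (`P` nonempty).
* (4) for a `Step D P ∅ h h'`: if `h = h'` on `P`: same set.  Otherwise they differ exactly at `v ∈ P`; `realise_flip` (with some `r ∈ P`) gives
  `x` with `x.1 v = 0`, other signs `= h`; `ZX x` (the equations with positive coefficients give strict monotonicity);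
  `x ± δ e_v` are in `ZP h`, `ZP h'` (`δ` of the right sign).
* so any two points are joined (`JoinedIn`): along `Reach D P ∅ h h'` (`hm`).  Then `IsPathConnected`/`IsPreconnected`.
* `ZX_neg`: clear.
-/

namespace Pool.Agent.MP_784a73_co

open Relation 

universe u

set_option linter.unusedSectionVars false

section
variable {V : Type u} [Fintype V] [DecidableEq V] {D : Finset (V × V)} {W P : Finset V} {h : V → Bool}

theorem ZX_neg {z : Vec V} (hz : ZX D P z) : ZX D P (-z) := by
  obtain ⟨⟨v, hv⟩, h2⟩ := hz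
  refine ⟨⟨v, fun w hw hne => ?_⟩, fun e he h1 h3 => ⟨fun h4 h5 => ?_, fun h4 h5 => ?_⟩⟩
  · simpa using hv w hw hne
  · have := (h2 e he h1 h3).2 (by simpa using h4) (by simpa using h5)
    simpa using this
  · have := (h2 e he h1 h3).1 (by simpa using h4) (by simpa using h5)
    simpa using this

/-- the direction `e_v` -/
private def LB4_ev (v : V) : Vec V := (Pi.single v 1, 0)

private theorem LB4_fst_ne {z : Vec V} {v w : V} (h : w ≠ v) (δ : ℝ) : (z + δ • LB4_ev v).1 w = z.1 w := by
  simp [LB4_ev, Pi.single_eq_of_ne h]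

private theorem LB4_fst_eq {z : Vec V} {v : V} (δ : ℝ) : (z + δ • LB4_ev v).1 v = z.1 v + δ := by
  simp [LB4_ev]

private theorem LB4_snd {z : Vec V} {v : V} (δ : ℝ) (w : V) : (z + δ • LB4_ev v).2 w = z.2 w := by
  simp [LB4_ev]

/-- moving the zero -/
private theorem LB4_move {z : Vec V} (hz : ZX D P z) {v : V} (hv : v ∈ P) (h0 : z.1 v = 0) (δ : ℝ) :
    ZX D P (z + δ • LB4_ev v) := by
  obtain ⟨⟨u, hu⟩, h2⟩ := hz
  have huv : v = u := by
    by_contra hne
    exact hu v hv hne h0
  subst huv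
  have key : ∀ w, (0 ≤ (z + δ • LB4_ev v).1 w → 0 ≤ z.1 w) ∧ ((z + δ • LB4_ev v).1 w ≤ 0 → z.1 w ≤ 0) := by
    intro w
    by_cases hw : w = v
    · subst hw
      simp [h0]
    · rw [LB4_fst_ne hw]
      exact ⟨id, id⟩
  refine ⟨⟨v, fun w hw hne => ?_⟩, fun e he h1 h3 => ⟨fun h4 h5 => ?_, fun h4 h5 => ?_⟩⟩
  · rw [LB4_fst_ne hne]
    exact hu w hw hne
  · rw [LB4_snd, LB4_snd]
    exact (h2 e he h1 h3).1 ((key _).1 h4) ((key _).1 h5)
  · rw [LB4_snd, LB4_snd]
    exact (h2 e he h1 h3).2 ((key _).2 h4) ((key _).2 h5)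

private theorem LB4_join_move {z : Vec V} (hz : ZX D P z) {v : V} (hv : v ∈ P) (h0 : z.1 v = 0) (δ δ' : ℝ) :
    JoinedIn {z : Vec V | ZX D P z} (z + δ • LB4_ev v) (z + δ' • LB4_ev v) := by
  have hseg : segment ℝ (z + δ • LB4_ev v) (z + δ' • LB4_ev v) ⊆ {z : Vec V | ZX D P z} := by
    rintro y ⟨a, b, ha, hb, hab, rfl⟩
    have : a • (z + δ • LB4_ev v) + b • (z + δ' • LB4_ev v) = z + (a * δ + b * δ') • LB4_ev v := by
      have hz' : z = (a + b) • z := by rw [hab, one_smul]
      conv_rhs => rw [hz']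
      simp only [smul_add, add_smul, mul_smul]
      abel
    rw [this]
    exact LB4_move hz hv h0 _
  exact (((convex_segment _ _).isPathConnected ⟨_, left_mem_segment ℝ _ _⟩).joinedIn _ (left_mem_segment ℝ _ _) _
    (right_mem_segment ℝ _ _)).mono hseg

private theorem LB4_convex (h : V → Bool) : Convex ℝ {z : Vec V | ZP D P h z} := by
  rintro x ⟨hx1, hx2⟩ y ⟨hy1, hy2⟩ a b ha hb hab
  have hpos : ∀ {p q : ℝ}, 0 < p → 0 < q → 0 < a * p + b * q := by
    intro p q hp hq
    rcases ha.lt_or_eq with h' | h'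
    · have := mul_pos h' hp
      have := mul_nonneg hb hq.le
      linarith
    · have hb1 : b = 1 := by linarith
      rw [← h', hb1]
      linarith
  refine ⟨fun v hv => ?_, fun u w huw => ⟨fun hu => ?_, fun hu => ?_⟩⟩
  · have e : (a • x + b • y).1 v = a * x.1 v + b * y.1 v := by simp
    rw [e]
    cases hh : h v
    · have h1 : x.1 v < 0 := by
        rcases lt_or_gt_of_ne (hx1 v hv).1 with h' | h'
        · exact h'
        · have := (hx1 v hv).2.2 h'
          rw [hh] at this
          exact absurd this (by simp)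
      have h2 : y.1 v < 0 := by
        rcases lt_or_gt_of_ne (hy1 v hv).1 with h' | h'
        · exact h'
        · have := (hy1 v hv).2.2 h'
          rw [hh] at this
          exact absurd this (by simp)
      have := hpos (neg_pos.2 h1) (neg_pos.2 h2)
      have h3 : a * x.1 v + b * y.1 v < 0 := by linarith
      exact ⟨h3.ne, by simpa using h3.le⟩
    · have h1 := (hx1 v hv).2.1 hh
      have h2 := (hy1 v hv).2.1 hh
      have h3 := hpos h1 h2
      exact ⟨h3.ne', by simpa using h3⟩
  · have h1 := (hx2 u w huw).1 hu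
    have h2 := (hy2 u w huw).1 hu
    have e : ∀ t, (a • x + b • y).2 t = a * x.2 t + b * y.2 t := fun t => by simp
    rw [e, e]
    have := hpos (sub_pos.2 h1) (sub_pos.2 h2)
    linarith
  · have h1 := (hx2 u w huw).2 hu
    have h2 := (hy2 u w huw).2 hu
    have e : ∀ t, (a • x + b • y).2 t = a * x.2 t + b * y.2 t := fun t => by simp
    rw [e, e]
    have := hpos (sub_pos.2 h1) (sub_pos.2 h2)
    linarith

private theorem LB4_sub (hne : P.Nonempty) (h : V → Bool) {z : Vec V} (hz : ZP D P h z) : ZX D P z := by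
  obtain ⟨r, hr⟩ := hne
  refine ⟨⟨r, fun w hw _ => (hz.1 w hw).1⟩, fun e he h1 h3 => ⟨fun h4 h5 => ?_, fun h4 h5 => ?_⟩⟩
  · have a1 : h e.1 = true := (hz.1 _ h1).2.2 (lt_of_le_of_ne h4 (hz.1 _ h1).1.symm)
    have a2 : h e.2 = true := (hz.1 _ h3).2.2 (lt_of_le_of_ne h5 (hz.1 _ h3).1.symm)
    exact (hz.2 e.1 e.2 ⟨he, h1, h3, by rw [a1, a2]⟩).1 a1
  · have a1 : h e.1 = false := by
      cases hh : h e.1
      · rfl
      · exact absurd ((hz.1 _ h1).2.1 hh) (not_lt.2 h4)
    have a2 : h e.2 = false := by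
      cases hh : h e.2
      · rfl
      · exact absurd ((hz.1 _ h3).2.1 hh) (not_lt.2 h5)
    exact (hz.2 e.1 e.2 ⟨he, h1, h3, by rw [a1, a2]⟩).2 a1

private theorem LB4_join_ZP (hne : P.Nonempty) (h : V → Bool) {x y : Vec V} (hx : ZP D P h x) (hy : ZP D P h y) :
    JoinedIn {z : Vec V | ZX D P z} x y :=
  (((LB4_convex h).isPathConnected ⟨x, hx⟩).joinedIn x hx y hy).mono fun _ hz => LB4_sub hne h hz

private theorem LB4_congr {h h' : V → Bool} (heq : ∀ w ∈ P, h w = h' w) {z : Vec V} (hz : ZP D P h z) :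
    ZP D P h' z := by
  refine ⟨fun v hv => ⟨(hz.1 v hv).1, by rw [← heq v hv]; exact (hz.1 v hv).2⟩, fun a b hab => ?_⟩
  obtain ⟨h1, h2, h3, h4⟩ := hab
  rw [← heq a h2]
  exact hz.2 a b ⟨h1, h2, h3, by rw [heq a h2, heq b h3, h4]⟩

/-- every point of `ZX` is joined to a point with a valid sign pattern -/
private theorem LB4_start {z : Vec V} (hz : ZX D P z) :
    ∃ h : V → Bool, Adm D P ∅ h ∧ ∃ z', ZP D P h z' ∧ JoinedIn {z : Vec V | ZX D P z} z z' := by
  classical
  have main : ∀ y : Vec V, ZX D P y → (∀ w ∈ P, y.1 w ≠ 0) → ∃ h : V → Bool, Adm D P ∅ h ∧ ZP D P h y := by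
    intro y hy hnz
    refine ⟨fun v => decide (0 < y.1 v), ⟨?_, fun q hq => absurd hq (Finset.notMem_empty q)⟩, ?_, ?_⟩
    · refine val_of_pot (fun v => if (decide (0 < y.1 v)) = true then y.2 v else - y.2 v) fun a b hab => ?_
      obtain ⟨h1, h2, h3, h4⟩ := hab
      have h5 := hy.2 (a, b) h1 h2 h3
      by_cases ha : 0 < y.1 a
      · have hb : 0 < y.1 b := by
          simpa [ha] using h4.symm
        simpa [ha, hb] using h5.1 ha.le hb.le
      · have hb : ¬ 0 < y.1 b := by
          intro hb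
          simp [ha, hb] at h4
        simpa [ha, hb] using h5.2 (not_lt.1 ha) (not_lt.1 hb)
    · intro v hv
      exact ⟨hnz v hv, by simp⟩
    · intro a b hab
      obtain ⟨h1, h2, h3, h4⟩ := hab
      have h5 := hy.2 (a, b) h1 h2 h3
      refine ⟨fun ha => ?_, fun ha => ?_⟩
      · have ha' : 0 < y.1 a := by simpa using ha
        have hb' : 0 < y.1 b := by
          have : decide (0 < y.1 b) = true := h4.symm.trans ha
          simpa using this
        exact h5.1 ha'.le hb'.le
      · have ha' : y.1 a ≤ 0 := by simpa using ha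
        have hb' : y.1 b ≤ 0 := by
          have : decide (0 < y.1 b) = false := h4.symm.trans ha
          simpa using this
        exact h5.2 ha' hb'
  by_cases hnz : ∀ w ∈ P, z.1 w ≠ 0
  · obtain ⟨h, h1, h2⟩ := main z hz hnz
    exact ⟨h, h1, z, h2, JoinedIn.refl hz⟩
  · push Not at hnz
    obtain ⟨v, hv, h0⟩ := hnz
    have hz1 := LB4_move hz hv h0 1
    have hj := LB4_join_move hz hv h0 0 1
    rw [zero_smul, add_zero] at hj
    obtain ⟨⟨u, hu⟩, -⟩ := hz
    have huv : v = u := by
      by_contra hne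
      exact hu v hv hne h0
    subst huv
    obtain ⟨h, h1, h2⟩ := main _ hz1 fun w hw => by
      by_cases hwv : w = v
      · subst hwv
        rw [LB4_fst_eq, h0]
        norm_num
      · rw [LB4_fst_ne hwv]
        exact hu w hw hwv
    exact ⟨h, h1, _, h2, hj⟩

/-- crossing a step -/
private theorem LB4_step (hD : Ori D) (hne : P.Nonempty) {h h' : V → Bool} (hs : Step D P ∅ h h') {z : Vec V}
    (hz : ZP D P h z) : ∃ z', ZP D P h' z' ∧ JoinedIn {z : Vec V | ZX D P z} z z' := by
  obtain ⟨ha, ha', v, hv⟩ := hs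
  by_cases hcase : v ∈ P ∧ h v ≠ h' v
  · obtain ⟨hvP, hvne⟩ := hcase
    have hloop : (v, v) ∉ D := fun hl => hD v v hl hl
    obtain ⟨r, hr⟩ := hne
    obtain ⟨s, hs, x, hx, hxv, hxw⟩ := realise_flip hr hvP ha.1 ha'.1 hv hvne hloop
    rw [mem_K] at hx
    have hxX : ZX D P x := by
      refine ⟨⟨v, fun w hw hne' => (hxw w hw hne').1⟩, fun e he h1 h3 => ?_⟩
      have heq := hx.2.2 e he h1 h3
      have hee : e.1 ≠ e.2 := by
        intro hee
        have he' : (e.1, e.1) ∈ D := by
          have : e = (e.1, e.1) := Prod.ext rfl hee.symm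
          rw [← this]; exact he
        exact hD _ _ he' he'
      have hor : x.1 e.1 ≠ 0 ∨ x.1 e.2 ≠ 0 := by
        by_cases h6 : e.1 = v
        · right
          exact (hxw e.2 h3 fun h7 => hee (h6.trans h7.symm)).1
        · left
          exact (hxw e.1 h1 h6).1
      obtain ⟨p1, p2⟩ := hs e
      refine ⟨fun h4 h5 => ?_, fun h4 h5 => ?_⟩
      · have q1 := mul_nonneg p1.le h4
        have q2 := mul_nonneg p2.le h5
        rcases hor with h6 | h6
        · have := mul_pos p1 (lt_of_le_of_ne h4 h6.symm)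
          linarith
        · have := mul_pos p2 (lt_of_le_of_ne h5 h6.symm)
          linarith
      · have q1 := mul_nonneg p1.le (neg_nonneg.2 h4)
        have q2 := mul_nonneg p2.le (neg_nonneg.2 h5)
        rcases hor with h6 | h6
        · have := mul_pos p1 (neg_pos.2 (lt_of_le_of_ne h4 h6))
          linarith
        · have := mul_pos p2 (neg_pos.2 (lt_of_le_of_ne h5 h6))
          linarith
    -- the sign pattern `g` is realised near `x`
    have hZ : ∀ g : V → Bool, (∀ w ∈ P, w ≠ v → h w = g w) →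
        ZP D P g (x + (if g v = true then (1 : ℝ) else -1) • LB4_ev v) := by
      intro g hg
      have hmove := LB4_move hxX hvP hxv (if g v = true then (1 : ℝ) else -1)
      have hsg : ∀ w ∈ P, (x + (if g v = true then (1 : ℝ) else -1) • LB4_ev v).1 w ≠ 0 ∧
          (g w = true ↔ 0 < (x + (if g v = true then (1 : ℝ) else -1) • LB4_ev v).1 w) := by
        intro w hw
        by_cases hwv : w = v
        · subst hwv
          rw [LB4_fst_eq, hxv]
          cases hgw : g w <;> norm_num
        · rw [LB4_fst_ne hwv, ← hg w hw hwv]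
          exact hxw w hw hwv
      refine ⟨hsg, fun a b hab => ?_⟩
      obtain ⟨h1, h2, h3, h4⟩ := hab
      have h5 := hmove.2 (a, b) h1 h2 h3
      refine ⟨fun hga => h5.1 ((hsg a h2).2.1 hga).le ((hsg b h3).2.1 (by rw [← h4]; exact hga)).le, fun hga => h5.2 ?_ ?_⟩
      · refine not_lt.1 fun h6 => ?_
        have := (hsg a h2).2.2 h6
        rw [hga] at this
        exact absurd this (by simp)
      · refine not_lt.1 fun h6 => ?_
        have := (hsg b h3).2.2 h6
        rw [← h4, hga] at this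
        exact absurd this (by simp)
    refine ⟨_, hZ h' hv, ?_⟩
    exact (LB4_join_ZP ⟨r, hr⟩ h hz (hZ h fun _ _ _ => rfl)).trans (LB4_join_move hxX hvP hxv _ _)
  · refine ⟨z, LB4_congr (fun w hw => ?_) hz, JoinedIn.refl (LB4_sub hne h hz)⟩
    by_cases hwv : w = v
    · subst hwv
      by_contra hne'
      exact hcase ⟨hw, hne'⟩
    · exact hv w hw hwv

theorem ZX_preconnected (hD : Ori D) (hne : P.Nonempty) (hm : Mix D P ∅) : IsPreconnected {z : Vec V | ZX D P z} := by
  rcases Set.eq_empty_or_nonempty {z : Vec V | ZX D P z} with he | ⟨x, hx⟩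
  · rw [he]
    exact isPreconnected_empty
  · have hpc : IsPathConnected {z : Vec V | ZX D P z} := ⟨x, hx, fun {y} hy => ?_⟩
    · exact hpc.isConnected.isPreconnected
    obtain ⟨h, hh, x1, hx1, hj1⟩ := LB4_start (D := D) (P := P) hx
    obtain ⟨h', hh', y1, hy1, hj2⟩ := LB4_start (D := D) (P := P) hy
    have hreach : Reach D P ∅ h h' := hm h h' hh hh'
    have key : ∀ g, ReflTransGen (Step D P ∅) h g → ∃ x2, ZP D P g x2 ∧ JoinedIn {z : Vec V | ZX D P z} x1 x2 := by
      intro g hg
      induction hg with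
      | refl => exact ⟨x1, hx1, JoinedIn.refl (LB4_sub hne h hx1)⟩
      | tail _ hbc ih =>
        obtain ⟨x2, hx2, hj⟩ := ih
        obtain ⟨x3, hx3, hj'⟩ := LB4_step hD hne hbc hx2
        exact ⟨x3, hx3, hj.trans hj'⟩
    obtain ⟨x2, hx2, hj3⟩ := key h' hreach
    exact ((hj1.trans hj3).trans (LB4_join_ZP hne h' hx2 hy1)).trans hj2.symm

end

end Pool.Agent.MP_784a73_co
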