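import Pool.Agent.Lib.MP_784a73_co.LADefs
import Pool.Agent.Lib.MP_784a73_co.LB1

/-!
# MP_784a73_co, row LB5: the odd functional

Suppose `finrank (Sol D W P s z') ≤ 1` for all `z'` with `ZX D P z'`.  Put `X = W \ P`, `T = arcs D W \ arcs D P`, `|T| ≤ 2|X|` (`hcard`).
`U := {v // v ∈ X} → ℝ` twice, `L : U × U → (T → ℝ)` (arc functional of the extension by zero), `b : Vec V → (T → ℝ)` linear: the arc functional of
`z` restricted to `P` (extended by 0).  `((x + λ z|P), λ)` solves iff `L x + λ b z = 0`.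
`(x,0)` is a solution over every `z'` (`hx`), nonzero, so for `ZX z'` the solution space is spanned by it: there is no solution with `λ = 1`, so
`b z' ∉ range L` (`hz`: there is such a `z'`), and `ker L` has dimension exactly `1`, so `finrank (range L) = 2|X| - 1 ≥ |T| - 1`, and
`range L ≠ ⊤`, so `finrank (range L) = |T| - 1`: there is a linear functional `w` with `ker w = range L`
(`Submodule.exists_le_ker_of_lt_top` and dimension count).  `w (b z') ≠ 0` for all `ZX z'`, `z' ↦ w (b z')` is continuous and odd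
(`hneg`): contradiction to preconnectedness (`hconn`, `hz`, intermediate value).
-/

namespace Pool.Agent.MP_784a73_co

open Relation 

universe u

set_option linter.unusedSectionVars false

section
variable {V : Type u} [Fintype V] [DecidableEq V] {D : Finset (V × V)} {W P : Finset V} {h : V → Bool}

/-- restriction of the base point to `P`, as a linear map -/
noncomputable def lb5res (P : Finset V) : Vec V →ₗ[ℝ] Vec V where
  toFun z := (fun v => if v ∈ P then z.1 v else 0, fun v => if v ∈ P then z.2 v else 0)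
  map_add' x y := by
    refine Prod.ext (funext fun v => ?_) (funext fun v => ?_)
    · by_cases h : v ∈ P <;> simp [h]
    · by_cases h : v ∈ P <;> simp [h]
  map_smul' t x := by
    refine Prod.ext (funext fun v => ?_) (funext fun v => ?_)
    · by_cases h : v ∈ P <;> simp [h]
    · by_cases h : v ∈ P <;> simp [h]

/-- extension by zero of a pair -/
noncomputable def lb5ext (S : Finset V) : (({v // v ∈ S} → ℝ) × ({v // v ∈ S} → ℝ)) →ₗ[ℝ] Vec V :=
  ((b1ext S).comp (LinearMap.fst ℝ _ _)).prod ((b1ext S).comp (LinearMap.snd ℝ _ _))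

theorem lb5ext_1 (S : Finset V) (u : ({v // v ∈ S} → ℝ) × ({v // v ∈ S} → ℝ)) (v : V) :
    (lb5ext S u).1 v = b1ext S u.1 v := rfl

theorem lb5ext_2 (S : Finset V) (u : ({v // v ∈ S} → ℝ) × ({v // v ∈ S} → ℝ)) (v : V) :
    (lb5ext S u).2 v = b1ext S u.2 v := rfl

theorem lb5ext_inj (S : Finset V) : Function.Injective (lb5ext S) := by
  rw [injective_iff_map_eq_zero]
  intro u hu
  have e1 : ∀ v, b1ext S u.1 v = 0 := fun v => by rw [← lb5ext_1, hu]; rfl
  have e2 : ∀ v, b1ext S u.2 v = 0 := fun v => by rw [← lb5ext_2, hu]; rfl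
  refine Prod.ext (funext fun v => ?_) (funext fun v => ?_)
  · have := e1 v.1
    rw [b1ext_mem _ v.2] at this
    simpa using this
  · have := e2 v.1
    rw [b1ext_mem _ v.2] at this
    simpa using this

/-- solutions with given `λ` -/
theorem lb5_mem (hP : P ⊆ W) {s : Par V} {z : Vec V} {u : ({v // v ∈ W \ P} → ℝ) × ({v // v ∈ W \ P} → ℝ)} {l : ℝ}
    (h : b1arc s (arcs D W \ arcs D P) (lb5ext (W \ P) u + l • lb5res P z) = 0) :
    ((lb5ext (W \ P) u + l • lb5res P z, l) : Vec V × ℝ) ∈ Sol D W P s z := by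
  have v1 : ∀ v, (lb5ext (W \ P) u + l • lb5res P z).1 v = b1ext (W \ P) u.1 v + l * (if v ∈ P then z.1 v else 0) :=
    fun v => rfl
  have v2 : ∀ v, (lb5ext (W \ P) u + l • lb5res P z).2 v = b1ext (W \ P) u.2 v + l * (if v ∈ P then z.2 v else 0) :=
    fun v => rfl
  rw [mem_Sol]
  refine ⟨fun v hv => ?_, fun p hp => ?_, fun e he h1 h2 h3 => ?_⟩
  · have hv' : v ∉ P := fun h => hv (hP h)
    have hvS : v ∉ W \ P := fun h => hv (Finset.mem_sdiff.1 h).1
    dsimp only
    rw [v1, v2, b1ext_not _ hvS, b1ext_not _ hvS, if_neg hv', if_neg hv']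
    simp
  · have hpS : p ∉ W \ P := fun h => (Finset.mem_sdiff.1 h).2 hp
    dsimp only
    rw [v1, v2, b1ext_not _ hpS, b1ext_not _ hpS, if_pos hp, if_pos hp]
    simp
  · have heT : e ∈ arcs D W \ arcs D P := by
      rw [Finset.mem_sdiff]
      refine ⟨?_, fun h => h3 ?_⟩
      · simp only [arcs, Finset.mem_filter]; exact ⟨he, h1, h2⟩
      · simp only [arcs, Finset.mem_filter] at h; exact h.2
    have := congrFun h ⟨e, heT⟩
    simp only [b1arc, LinearMap.coe_mk, AddHom.coe_mk, Pi.zero_apply] at this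
    linear_combination this

theorem odd_functional (hP : P ⊆ W) (hconn : IsPreconnected {z : Vec V | ZX D P z})
    (hneg : ∀ z : Vec V, ZX D P z → ZX D P (-z)) (hcard : eN D W + 2 * P.card ≤ eN D P + 2 * W.card)
    {s : Par V} {z : Vec V} (hz : ZX D P z) {x : Vec V} (hx : ((x, 0) : Vec V × ℝ) ∈ Sol D W P s z) (hx0 : x ≠ 0) :
    ∃ z' : Vec V, ZX D P z' ∧ 2 ≤ Module.finrank ℝ (Sol D W P s z') := by
  classical
  by_contra hcon
  have hle : ∀ z' : Vec V, ZX D P z' → Module.finrank ℝ (Sol D W P s z') ≤ 1 := by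
    intro z' hz'
    by_contra h
    exact hcon ⟨z', hz', by omega⟩
  have hsub : arcs D P ⊆ arcs D W := by
    intro e he
    simp only [arcs, Finset.mem_filter] at he ⊢
    exact ⟨he.1, hP he.2.1, hP he.2.2⟩
  have hSc : (W \ P).card + P.card = W.card := Finset.card_sdiff_add_card_eq_card hP
  have hTc : (arcs D W \ arcs D P).card + eN D P = eN D W := Finset.card_sdiff_add_card_eq_card hsub
  set T := arcs D W \ arcs D P with hT
  set L := (b1arc s T).comp (lb5ext (W \ P)) with hL
  set B := (b1arc s T).comp (lb5res P) with hB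
  have hLB : ∀ u (l : ℝ) (z' : Vec V), b1arc s T (lb5ext (W \ P) u + l • lb5res P z') = L u + l • B z' := by
    intro u l z'
    rw [map_add, map_smul]
    rfl
  -- the solution `x` in coordinates
  obtain ⟨hx1, hx2, hx3⟩ := mem_Sol.1 hx
  dsimp only at hx1 hx2 hx3
  set u₀ : ({v // v ∈ W \ P} → ℝ) × ({v // v ∈ W \ P} → ℝ) := (fun v => x.1 v, fun v => x.2 v) with hu₀
  have hext : lb5ext (W \ P) u₀ = x := by
    refine Prod.ext (funext fun v => ?_) (funext fun v => ?_)
    · rw [lb5ext_1]
      by_cases hv : v ∈ W \ P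
      · rw [b1ext_mem _ hv]
      · rw [b1ext_not _ hv]
        by_cases hvP : v ∈ P
        · rw [(hx2 v hvP).1, zero_mul]
        · have hvW : v ∉ W := fun h => hv (Finset.mem_sdiff.2 ⟨h, hvP⟩)
          exact (hx1 v hvW).1.symm
    · rw [lb5ext_2]
      by_cases hv : v ∈ W \ P
      · rw [b1ext_mem _ hv]
      · rw [b1ext_not _ hv]
        by_cases hvP : v ∈ P
        · rw [(hx2 v hvP).2, zero_mul]
        · have hvW : v ∉ W := fun h => hv (Finset.mem_sdiff.2 ⟨h, hvP⟩)
          exact (hx1 v hvW).2.symm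
  have hLu : L u₀ = 0 := by
    rw [hL, LinearMap.comp_apply, hext]
    funext e
    have he : (e : V × V) ∈ arcs D W \ arcs D P := e.2
    rw [Finset.mem_sdiff] at he
    simp only [arcs, Finset.mem_filter] at he
    have h3 := hx3 e.1 he.1.1 he.1.2.1 he.1.2.2 fun h => he.2 ⟨he.1.1, h⟩
    show x.2 e.1.2 - x.2 e.1.1 - s.1 e.1 * x.1 e.1.1 - s.2 e.1 * x.1 e.1.2 = 0
    linear_combination h3
  have hxall : ∀ z' : Vec V, ((x, 0) : Vec V × ℝ) ∈ Sol D W P s z' := by
    intro z'
    have := lb5_mem (D := D) hP (s := s) (z := z') (u := u₀) (l := 0) (by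
      rw [hLB, hLu, zero_smul, add_zero])
    rwa [zero_smul, add_zero, hext] at this
  -- `B z'` is not in the range of `L`
  have hnot : ∀ z' : Vec V, ZX D P z' → B z' ∉ LinearMap.range L := by
    rintro z' hz' ⟨u, hu⟩
    have hmem := lb5_mem (D := D) hP (s := s) (z := z') (u := -u) (l := 1) (by
      rw [hLB, map_neg, hu, one_smul, neg_add_cancel])
    set y : Sol D W P s z' := ⟨_, hmem⟩ with hy
    set y₀ : Sol D W P s z' := ⟨(x, 0), hxall z'⟩ with hy₀
    have hy₀0 : y₀ ≠ 0 := by
      intro h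
      apply hx0
      have := congrArg (fun t : Sol D W P s z' => t.1.1) h
      exact this
    have hone : Module.finrank ℝ (Sol D W P s z') = 1 :=
      le_antisymm (hle z' hz') (Module.finrank_pos_iff_exists_ne_zero.2 ⟨y₀, hy₀0⟩)
    obtain ⟨c, hc⟩ := exists_smul_eq_of_finrank_eq_one hone hy₀0 y
    have h2 := congrArg (fun t : Sol D W P s z' => t.1.2) hc
    have h3 : c * 0 = (1 : ℝ) := h2
    simp at h3
  -- dimension count
  have hker : Module.finrank ℝ (LinearMap.ker L) ≤ 1 := by
    refine le_trans ?_ (hle z hz)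
    have key : ∀ u ∈ LinearMap.ker L, ((lb5ext (W \ P) u, 0) : Vec V × ℝ) ∈ Sol D W P s z := by
      intro u hu
      have := lb5_mem (D := D) hP (s := s) (z := z) (u := u) (l := 0) (by
        rw [hLB, LinearMap.mem_ker.1 hu, zero_smul, add_zero])
      rwa [zero_smul, add_zero] at this
    let φ : LinearMap.ker L →ₗ[ℝ] Sol D W P s z :=
      (((LinearMap.inl ℝ (Vec V) ℝ).comp (lb5ext (W \ P))).comp (LinearMap.ker L).subtype).codRestrict
        (Sol D W P s z) fun w => key w.1 w.2
    refine LinearMap.finrank_le_finrank_of_injective (f := φ) ?_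
    intro a b hab
    have := congrArg (fun t : Sol D W P s z => t.1.1) hab
    exact Subtype.ext (lb5ext_inj _ this)
  have r2 := LinearMap.finrank_range_add_finrank_ker L
  rw [Module.finrank_prod, Module.finrank_fintype_fun_eq_card, Fintype.card_coe] at r2
  have hTd : Module.finrank ℝ ({e // e ∈ T} → ℝ) = T.card := by
    rw [Module.finrank_fintype_fun_eq_card, Fintype.card_coe]
  have hlt : LinearMap.range L < ⊤ := by
    rw [lt_top_iff_ne_top]
    intro h
    exact hnot z hz (h ▸ Submodule.mem_top)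
  obtain ⟨w, hw0, hw⟩ := Submodule.exists_le_ker_of_lt_top _ hlt
  have hkw := Module.Dual.finrank_ker_add_one_of_ne_zero (f := w) hw0
  rw [hTd] at hkw
  have heq : LinearMap.range L = LinearMap.ker w := by
    refine Submodule.eq_of_le_of_finrank_le hw ?_
    omega
  have hne : ∀ z' : Vec V, ZX D P z' → w (B z') ≠ 0 := by
    intro z' hz' h
    apply hnot z' hz'
    rw [heq]
    exact h
  have hcont : Continuous fun z' : Vec V => w (B z') :=
    (LinearMap.continuous_of_finiteDimensional (w.comp B) :)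
  have hodd : w (B (-z)) = - w (B z) := by rw [map_neg, map_neg]
  have hzn := hneg z hz
  rcases lt_or_gt_of_ne (hne z hz) with h | h
  · obtain ⟨z', hz', h'⟩ := hconn.intermediate_value (a := z) (b := -z) hz hzn hcont.continuousOn
      (show (0 : ℝ) ∈ Set.Icc (w (B z)) (w (B (-z))) from ⟨h.le, by rw [hodd]; linarith⟩)
    exact hne z' hz' h'
  · obtain ⟨z', hz', h'⟩ := hconn.intermediate_value (a := -z) (b := z) hzn hz hcont.continuousOn
      (show (0 : ℝ) ∈ Set.Icc (w (B (-z))) (w (B z)) from ⟨by rw [hodd]; linarith, h.le⟩)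
    exact hne z' hz' h'

end

end Pool.Agent.MP_784a73_co
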