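import Pool.Agent.Lib.MP_784a73_co.LB1
import Pool.Agent.Lib.MP_784a73_co.LB2
import Pool.Agent.Lib.MP_784a73_co.LB3
import Pool.Agent.Lib.MP_784a73_co.C1
import Pool.Agent.Lib.MP_784a73_co.C1b

/-!
# MP_784a73_co, LB6: the pinned linear algebra method (helper32)
-/

namespace Pool.Agent.MP_784a73_co

open Relation Filter Topology

universe u

set_option linter.unusedSectionVars false

section
variable {V : Type u} [Fintype V] [DecidableEq V] {D : Finset (V × V)} {W P A : Finset V} {h : V → Bool}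

theorem reachP_R {R : (V → Bool) → Prop} (hR : ∀ c c', StepP D W A h c c' → (R c ↔ R c')) {c c' : V → Bool}
    (hc : ReachP D W A h c c') : R c ↔ R c' := by
  induction hc with
  | refl => exact Iff.rfl
  | tail _ h ih => exact ih.trans (hR _ _ h)

theorem clsP_nonempty (hD : Ori D) (hP : P ⊆ W) {s : Par V} (hs : Pos s) {z : Vec V} (hz : ZX D P z)
    (hcol : ∃ c, AdmP D W A h c) {y : Vec V × ℝ} (hy : y ∈ ConeP D W P s z)
    (hsgn : ∀ a ∈ A, a ∈ W → y.1.1 a ≠ 0 → (h a = true ↔ 0 < y.1.1 a)) : ∃ d, ClsP D W A h y.1 d := by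
  classical
  obtain ⟨c, hc, hcA⟩ := hcol
  obtain ⟨s', hs', hx⟩ := sol_full hD hP hs hz hy.1
  let d : V → Bool := fun v => if y.1.1 v = 0 then c v else decide (0 < y.1.1 v)
  have hsg : ∀ v ∈ W, y.1.1 v ≠ 0 → (d v = true ↔ 0 < y.1.1 v) := by
    intro v _ hv
    simp only [d, if_neg hv, decide_eq_true_eq]
  refine ⟨d, ⟨?_, ?_⟩, hsg⟩
  · refine zero_set' hs' hx ?_ hsg
    refine val_congr (c := c) ?_ (val_mono (Finset.filter_subset _ _) hc)
    intro v hv
    rw [Finset.mem_filter] at hv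
    simp only [d, if_pos hv.2]
  · intro a ha haW
    by_cases h0 : y.1.1 a = 0
    · simp only [d, if_pos h0]
      exact hcA a ha haW
    · have h1 := hsgn a ha haW h0
      have h2 := hsg a haW h0
      rw [Bool.eq_iff_iff, h1, h2]

theorem clsP_near {x x' : Vec V} (hn : ∀ v, x.1 v ≠ 0 → 0 < x.1 v * x'.1 v) {d : V → Bool}
    (hd : ClsP D W A h x' d) : ClsP D W A h x d := by
  refine ⟨hd.1, fun v hv hx => ?_⟩
  have h1 := hn v hx
  have h2 : x'.1 v ≠ 0 := fun h3 => by rw [h3, mul_zero] at h1; exact lt_irrefl _ h1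
  rw [hd.2 v hv h2]
  constructor
  · intro h3
    by_contra h4
    have h5 : x.1 v ≤ 0 := not_lt.1 h4
    have := mul_nonpos_of_nonpos_of_nonneg h5 h3.le
    linarith
  · intro h3
    by_contra h4
    have h5 : x'.1 v ≤ 0 := not_lt.1 h4
    have := mul_nonpos_of_nonneg_of_nonpos h3.le h5
    linarith

theorem eventually_nearP (y : Vec V × ℝ) : ∀ᶠ y' in 𝓝 y, ∀ v, y.1.1 v ≠ 0 → 0 < y.1.1 v * y'.1.1 v := by
  rw [Filter.eventually_all]
  intro v
  by_cases h : y.1.1 v = 0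
  · exact Filter.Eventually.of_forall fun _ h' => absurd h h'
  · have hc : Continuous fun y' : Vec V × ℝ => y.1.1 v * y'.1.1 v := by fun_prop
    have h1 : 0 < y.1.1 v * y.1.1 v := mul_self_pos.2 h
    have := (hc.tendsto y).eventually (lt_mem_nhds h1)
    exact this.mono fun _ h _ => h

theorem clsP_reach (hD : Ori D) (hP : P ⊆ W) {s : Par V} (hs : Pos s) {z : Vec V} (hz : ZX D P z) {y : Vec V × ℝ}
    (hy : y ∈ ConeP D W P s z) (hmix : MixP D (W.filter fun v => y.1.1 v = 0) A h) {d d' : V → Bool}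
    (hd : ClsP D W A h y.1 d) (hd' : ClsP D W A h y.1 d') : ReachP D W A h d d' := by
  obtain ⟨s', hs', hx⟩ := sol_full hD hP hs hz hy.1
  refine glueP (Z := W.filter fun v => y.1.1 v = 0) (Finset.filter_subset _ _) hmix ?_ hd.1 hd'.1 ?_
  · intro e he he'
    refine zero_set' hs' hx he ?_
    intro v hv hxv
    rw [he' v hv (by rw [Finset.mem_filter]; exact fun h => hxv h.2)]
    exact hd.2 v hv hxv
  · intro v hv hvZ
    have hxv : y.1.1 v ≠ 0 := fun h => hvZ (Finset.mem_filter.2 ⟨hv, h⟩)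
    have h1 := hd.2 v hv hxv
    have h2 := hd'.2 v hv hxv
    rw [Bool.eq_iff_iff, h1, h2]

/-- closedness of the solution spaces -/
theorem Sol_closed {s : ℕ → Par V} {z : ℕ → Vec V} {y : ℕ → Vec V × ℝ} {a : Par V} {b : Vec V} {w : Vec V × ℝ}
    (hx : ∀ n, y n ∈ Sol D W P (s n) (z n)) (hs : Tendsto s atTop (𝓝 a)) (hz : Tendsto z atTop (𝓝 b))
    (hy : Tendsto y atTop (𝓝 w)) : w ∈ Sol D W P a b := by
  have h1 : ∀ v, Tendsto (fun n => (y n).1.1 v) atTop (𝓝 (w.1.1 v)) := fun v =>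
    ((continuous_apply v).comp (continuous_fst.comp continuous_fst)).continuousAt.tendsto.comp hy
  have h2 : ∀ v, Tendsto (fun n => (y n).1.2 v) atTop (𝓝 (w.1.2 v)) := fun v =>
    ((continuous_apply v).comp (continuous_snd.comp continuous_fst)).continuousAt.tendsto.comp hy
  have h2' : Tendsto (fun n => (y n).2) atTop (𝓝 w.2) := continuous_snd.continuousAt.tendsto.comp hy
  have h3 : ∀ e, Tendsto (fun n => (s n).1 e) atTop (𝓝 (a.1 e)) := fun e =>
    ((continuous_apply e).comp continuous_fst).continuousAt.tendsto.comp hs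
  have h4 : ∀ e, Tendsto (fun n => (s n).2 e) atTop (𝓝 (a.2 e)) := fun e =>
    ((continuous_apply e).comp continuous_snd).continuousAt.tendsto.comp hs
  have h5 : ∀ v, Tendsto (fun n => (z n).1 v) atTop (𝓝 (b.1 v)) := fun v =>
    ((continuous_apply v).comp continuous_fst).continuousAt.tendsto.comp hz
  have h6 : ∀ v, Tendsto (fun n => (z n).2 v) atTop (𝓝 (b.2 v)) := fun v =>
    ((continuous_apply v).comp continuous_snd).continuousAt.tendsto.comp hz
  rw [mem_Sol]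
  refine ⟨fun v hv => ⟨?_, ?_⟩, fun p hp => ⟨?_, ?_⟩, fun e he he1 he2 hn => ?_⟩
  · exact tendsto_nhds_unique (h1 v) (by
      have : (fun n => (y n).1.1 v) = fun _ => (0 : ℝ) := funext fun n => ((hx n).1 v hv).1
      rw [this]; exact tendsto_const_nhds)
  · exact tendsto_nhds_unique (h2 v) (by
      have : (fun n => (y n).1.2 v) = fun _ => (0 : ℝ) := funext fun n => ((hx n).1 v hv).2
      rw [this]; exact tendsto_const_nhds)
  · refine tendsto_nhds_unique (h1 p) ?_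
    have : (fun n => (y n).1.1 p) = fun n => (y n).2 * (z n).1 p := funext fun n => ((hx n).2.1 p hp).1
    rw [this]
    exact h2'.mul (h5 p)
  · refine tendsto_nhds_unique (h2 p) ?_
    have : (fun n => (y n).1.2 p) = fun n => (y n).2 * (z n).2 p := funext fun n => ((hx n).2.1 p hp).2
    rw [this]
    exact h2'.mul (h6 p)
  · refine tendsto_nhds_unique ((h2 e.2).sub (h2 e.1)) ?_
    have : (fun n => (y n).1.2 e.2 - (y n).1.2 e.1) =
        fun n => (s n).1 e * (y n).1.1 e.1 + (s n).2 e * (y n).1.1 e.2 := funext fun n => (hx n).2.2 e he he1 he2 hn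
    rw [this]
    exact ((h3 e).mul (h1 e.1)).add ((h4 e).mul (h1 e.2))

/-- The general argument: a step-invariant property has the same value at all points of the total space. -/
theorem LAP_const (hD : Ori D) (hP : P ⊆ W) {B : Set (Par V × Vec V)} (hBc : IsPreconnected B)
    (hB : ∀ b ∈ B, Pos b.1 ∧ ZX D P b.2) (hcol : ∃ c, AdmP D W A h c)
    (hsgn : ∀ b ∈ B, ∀ y ∈ ConeP D W P b.1 b.2, ∀ a ∈ A, a ∈ W → y.1.1 a ≠ 0 → (h a = true ↔ 0 < y.1.1 a))
    (hmix : ∀ b ∈ B, ∀ y ∈ ConeP D W P b.1 b.2, MixP D (W.filter fun v => y.1.1 v = 0) A h)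
    {R : (V → Bool) → Prop} (hR : ∀ c c', StepP D W A h c c' → (R c ↔ R c'))
    (hne : ∀ b ∈ B, (ConeP D W P b.1 b.2).Nonempty)
    (hfib : ∀ b ∈ B, ∀ y ∈ ConeP D W P b.1 b.2, ∀ y' ∈ ConeP D W P b.1 b.2,
      ((∀ d, ClsP D W A h y.1 d → R d) ↔ (∀ d, ClsP D W A h y'.1 d → R d))) :
    ∀ b ∈ B, ∀ b' ∈ B, ∀ y ∈ ConeP D W P b.1 b.2, ∀ y' ∈ ConeP D W P b'.1 b'.2,
      ((∀ d, ClsP D W A h y.1 d → R d) ↔ (∀ d, ClsP D W A h y'.1 d → R d)) := by
  refine top_const (E := Par V × Vec V) (W := Vec V × ℝ) (S := B) hBc (fun b => ConeP D W P b.1 b.2)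
    (fun b _ h => h.2.1 rfl) hne
    (fun b _ y hy t ht => ⟨(Sol D W P b.1 b.2).smul_mem t hy.1, smul_ne_zero ht.ne' hy.2.1, by
      have := hy.2.2
      simp only [Prod.smul_snd, smul_eq_mul]
      positivity⟩)
    (fun s x a b _ hx _ hsa hxb hb => ⟨Sol_closed (fun n => (hx n).1)
        (continuous_fst.continuousAt.tendsto.comp hsa) (continuous_snd.continuousAt.tendsto.comp hsa) hxb, hb, by
      have h1 : Tendsto (fun n => (x n).2) atTop (𝓝 b.2) := continuous_snd.continuousAt.tendsto.comp hxb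
      exact ge_of_tendsto' h1 fun n => (hx n).2.2⟩)
    (fun _ y => ∀ d, ClsP D W A h y.1 d → R d)
    (fun b hb y hy => ?_) hfib
  have h2 : ∀ᶠ p : (Par V × Vec V) × (Vec V × ℝ) in 𝓝 (b, y), ∀ v, y.1.1 v ≠ 0 → 0 < y.1.1 v * p.2.1.1 v :=
    (continuous_snd.tendsto (b, y)).eventually (eventually_nearP y)
  filter_upwards [h2] with p hp hpB hpC
  constructor
  · intro h1 d hd
    obtain ⟨d', hd'⟩ := clsP_nonempty hD hP (hB _ hpB).1 (hB _ hpB).2 hcol hpC (hsgn _ hpB _ hpC)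
    exact (reachP_R hR (clsP_reach hD hP (hB b hb).1 (hB b hb).2 hy (hmix b hb y hy) (clsP_near hp hd') hd)).1
      (h1 d' hd')
  · intro h1 d hd
    exact h1 d (clsP_near hp hd)

theorem coneP_pre {s : Par V} {z : Vec V} (h2 : 2 ≤ Module.finrank ℝ (Sol D W P s z)) :
    IsPreconnected (ConeP D W P s z) := by
  have h1 := cone_preconnected (Sol D W P s z) h2 (LinearMap.snd ℝ (Vec V) ℝ)
  exact h1

theorem coneP_ne {s : Par V} {z : Vec V} (h1 : 1 ≤ Module.finrank ℝ (Sol D W P s z)) :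
    (ConeP D W P s z).Nonempty := by
  have h1 : 0 < Module.finrank ℝ (Sol D W P s z) := h1
  obtain ⟨⟨x, hx⟩, hx0⟩ := Module.finrank_pos_iff_exists_ne_zero.1 h1
  have hx0' : x ≠ 0 := fun h => hx0 (by ext1; exact h)
  rcases le_total 0 x.2 with h2 | h2
  · exact ⟨x, hx, hx0', h2⟩
  · refine ⟨-x, (Sol D W P s z).neg_mem hx, neg_ne_zero.2 hx0', ?_⟩
    simp only [Prod.snd_neg]
    linarith

/-- fibres of dimension at least 2 -/
theorem fibP_const (hD : Ori D) (hP : P ⊆ W) {s : Par V} (hs : Pos s) {z : Vec V} (hz : ZX D P z)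
    (hcol : ∃ c, AdmP D W A h c)
    (hsgn : ∀ y ∈ ConeP D W P s z, ∀ a ∈ A, a ∈ W → y.1.1 a ≠ 0 → (h a = true ↔ 0 < y.1.1 a))
    (hmix : ∀ y ∈ ConeP D W P s z, MixP D (W.filter fun v => y.1.1 v = 0) A h)
    {R : (V → Bool) → Prop} (hR : ∀ c c', StepP D W A h c c' → (R c ↔ R c'))
    (h2 : 2 ≤ Module.finrank ℝ (Sol D W P s z)) {y y' : Vec V × ℝ} (hy : y ∈ ConeP D W P s z)
    (hy' : y' ∈ ConeP D W P s z) :
    (∀ d, ClsP D W A h y.1 d → R d) ↔ (∀ d, ClsP D W A h y'.1 d → R d) := by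
  refine prop_const (coneP_pre h2) (fun y => ∀ d, ClsP D W A h y.1 d → R d) (fun y hy => ?_) hy hy'
  rw [eventually_nhdsWithin_iff]
  filter_upwards [eventually_nearP y] with p hp hpC
  constructor
  · intro h1 d hd
    obtain ⟨d', hd'⟩ := clsP_nonempty hD hP hs hz hcol hpC (hsgn _ hpC)
    exact (reachP_R hR (clsP_reach hD hP hs hz hy (hmix y hy) (clsP_near hp hd') hd)).1 (h1 d' hd')
  · intro h1 d hd
    exact h1 d (clsP_near hp hd)

end

end Pool.Agent.MP_784a73_co
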