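import Pool.Agent.Lib.MP_784a73_co.LB4
import Pool.Agent.Lib.MP_784a73_co.LB5
import Pool.Agent.Lib.MP_784a73_co.LB6
import Pool.Agent.Lib.MP_784a73_co.C2
import Pool.Agent.Lib.MP_784a73_co.G1

/-!
# MP_784a73_co, LB7: the theorems (P1) and (T) (helper32)
-/

namespace Pool.Agent.MP_784a73_co

open Relation Filter Topology

universe u

set_option linter.unusedSectionVars false

section
variable {V : Type u} [Fintype V] [DecidableEq V] {D : Finset (V × V)} {W P A : Finset V} {h : V → Bool}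

theorem ZP_preconnected : IsPreconnected {z : Vec V | ZP D P h z} := by
  refine Convex.isPreconnected ?_
  intro z hz w hw a b ha hb hab
  have hpos : 0 < a ∨ 0 < b := by
    rcases ha.lt_or_eq with h1 | h1
    · exact Or.inl h1
    · right; linarith
  have key : ∀ x y : ℝ, 0 < x → 0 < y → 0 < a * x + b * y := by
    intro x y hx hy
    rcases hpos with h1 | h1
    · have := mul_pos h1 hx
      have := mul_nonneg hb hy.le
      linarith
    · have := mul_pos h1 hy
      have := mul_nonneg ha hx.le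
      linarith
  refine ⟨fun v hv => ?_, fun p q hpq => ⟨fun hp => ?_, fun hp => ?_⟩⟩
  · have h1 := hz.1 v hv
    have h2 := hw.1 v hv
    simp only [Prod.fst_add, Prod.smul_fst, Pi.add_apply, Pi.smul_apply, smul_eq_mul]
    by_cases hc : h v = true
    · have h3 := key _ _ (h1.2.1 hc) (h2.2.1 hc)
      exact ⟨h3.ne', fun _ => h3, fun _ => hc⟩
    · have h3 : z.1 v < 0 := lt_of_le_of_ne (not_lt.1 fun h4 => hc (h1.2.2 h4)) h1.1
      have h4 : w.1 v < 0 := lt_of_le_of_ne (not_lt.1 fun h4 => hc (h2.2.2 h4)) h2.1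
      have h5 := key (-z.1 v) (-w.1 v) (by linarith) (by linarith)
      refine ⟨by intro h6; linarith, fun h6 => absurd h6 hc, fun h6 => ?_⟩
      linarith
  · have h1 := (hz.2 p q hpq).1 hp
    have h2 := (hw.2 p q hpq).1 hp
    simp only [Prod.snd_add, Prod.smul_snd, Pi.add_apply, Pi.smul_apply, smul_eq_mul]
    have h5 := key (z.2 q - z.2 p) (w.2 q - w.2 p) (by linarith) (by linarith)
    linarith
  · have h1 := (hz.2 p q hpq).2 hp
    have h2 := (hw.2 p q hpq).2 hp
    simp only [Prod.snd_add, Prod.smul_snd, Pi.add_apply, Pi.smul_apply, smul_eq_mul]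
    have h5 := key (z.2 p - z.2 q) (w.2 p - w.2 q) (by linarith) (by linarith)
    linarith

theorem sol_of_pat {r : V} {s : Par V} {x : Vec V} (hx : x ∈ K D W r s) : ((x, 1) : Vec V × ℝ) ∈ Sol D W P s x := by
  rw [mem_Sol]
  rw [mem_K] at hx
  exact ⟨hx.1, fun p _ => ⟨by simp, by simp⟩, fun e he h1 h2 _ => hx.2.2 e he h1 h2⟩

theorem cone_of_pat {r : V} {s : Par V} {x : Vec V} (hx : x ∈ K D W r s) :
    ((x, 1) : Vec V × ℝ) ∈ ConeP D W P s x := by
  refine ⟨sol_of_pat hx, fun h0 => ?_, by simp⟩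
  have := congrArg Prod.snd h0
  simp at this

theorem stepP_of_cls {c d : V → Bool} (hc : AdmP D W A h c) {x : Vec V} (hp : Pat W c x) (hd : ClsP D W A h x d)
    (r : V) : StepP D W A h c d := by
  refine ⟨hc, hd.1, r, fun w hw _ => ?_⟩
  have h1 := hd.2 w hw (hp w hw).1
  have h2 := (hp w hw).2
  rw [Bool.eq_iff_iff, h1, h2]

theorem hR_reachP (c : V → Bool) : ∀ d d', StepP D W A h d d' → (ReachP D W A h c d ↔ ReachP D W A h c d') :=
  fun _ _ hs => ⟨fun h1 => reachP_trans h1 (ReflTransGen.single hs),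
    fun h1 => reachP_trans h1 (ReflTransGen.single (stepP_symm hs))⟩

theorem P1_aux (hD : Ori D) (hh : Val D P h) (n : ℕ) : ∀ W : Finset V, P ⊆ W → (W \ P).card ≤ n →
    (∀ Z ⊆ W \ P, Mix D Z ∅) →
    (∀ Y ⊆ W \ P, Y.Nonempty → eN D (P ∪ Y) + 1 ≤ eN D P + 2 * Y.card) → MixP D W P h := by
  induction n with
  | zero =>
    intro W _ hn _ _
    exact mixP_self (Finset.sdiff_eq_empty_iff_subset.1 (Finset.card_eq_zero.1 (Nat.le_zero.1 hn)))
  | succ n ih =>
    intro W hP hn hMain hg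
    by_cases hWP : W ⊆ P
    · exact mixP_self hWP
    have hXne : (W \ P).Nonempty := Finset.sdiff_nonempty.2 hWP
    by_cases hJ : ∀ A ⊆ W \ P, A.Nonempty → ∃ e ∈ D, (e.1 ∈ A ∧ e.2 ∈ W \ A) ∨ (e.1 ∈ W \ A ∧ e.2 ∈ A)
    swap
    · push Not at hJ
      obtain ⟨A, hA, hAne, hno⟩ := hJ
      have hAW : A ⊆ W := hA.trans Finset.sdiff_subset
      have hAP : Disjoint A P := Finset.disjoint_of_subset_left hA Finset.sdiff_disjoint
      refine mixP_of_split (A := A) (B := W \ A) (Finset.union_sdiff_of_subset hAW) Finset.disjoint_sdiff ?_ ?_ ?_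
      · rintro e he (⟨h1, h2⟩ | ⟨h1, h2⟩)
        · exact (hno e he).1 h1 h2
        · exact (hno e he).2 h1 h2
      · exact (mixP_iff_mix hAP).2 (hMain A hA)
      · have hsub : (W \ A) \ P ⊆ W \ P := by
          intro v hv
          simp only [Finset.mem_sdiff] at hv ⊢
          exact ⟨hv.1.1, hv.2⟩
        refine ih (W \ A) ?_ ?_ (fun Z hZ => hMain Z (hZ.trans hsub)) (fun Y hY => hg Y (hY.trans hsub))
        · intro v hv
          exact Finset.mem_sdiff.2 ⟨hP hv, fun h' => (Finset.mem_sdiff.1 (hA h')).2 hv⟩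
        · have hlt : (W \ A) \ P ⊂ W \ P := by
            refine Finset.ssubset_iff_subset_ne.2 ⟨hsub, fun he => ?_⟩
            obtain ⟨a, ha⟩ := hAne
            have h1 := hA ha
            rw [← he] at h1
            exact (Finset.mem_sdiff.1 (Finset.mem_sdiff.1 h1).1).2 ha
          have := Finset.card_lt_card hlt
          omega
    -- connected case
    have hPne : P.Nonempty := by
      obtain ⟨e, _, h1 | h1⟩ := hJ (W \ P) (Finset.Subset.refl _) hXne
      · have := h1.2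
        simp only [Finset.mem_sdiff, not_and, not_not] at this
        exact ⟨_, this.2 this.1⟩
      · have := h1.1
        simp only [Finset.mem_sdiff, not_and, not_not] at this
        exact ⟨_, this.2 this.1⟩
    have hfr : ∀ (s : Par V) (z : Vec V), 2 ≤ Module.finrank ℝ (Sol D W P s z) := by
      intro s z
      have h1 := finrank_Sol (D := D) hP s z
      have h2 := hg (W \ P) (Finset.Subset.refl _) hXne
      rw [Finset.union_sdiff_of_subset hP, Finset.card_sdiff_of_subset hP] at h2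
      have h3 := Finset.card_le_card hP
      omega
    intro c c' hc hc'
    have hBc : IsPreconnected ({s : Par V | Pos s} ×ˢ {z : Vec V | ZP D P h z}) :=
      pos_preconnected.prod ZP_preconnected
    have hB : ∀ b ∈ ({s : Par V | Pos s} ×ˢ {z : Vec V | ZP D P h z}), Pos b.1 ∧ ZX D P b.2 :=
      fun b hb => ⟨hb.1, ZX_of_ZP hPne hb.2⟩
    have hsgn : ∀ b ∈ ({s : Par V | Pos s} ×ˢ {z : Vec V | ZP D P h z}), ∀ y ∈ ConeP D W P b.1 b.2,
        ∀ a ∈ P, a ∈ W → y.1.1 a ≠ 0 → (h a = true ↔ 0 < y.1.1 a) := by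
      intro b hb y hy a ha _ hya
      have h1 := (hy.1.2.1 a ha).1
      have h2 := hb.2.1 a ha
      have h3 : 0 < y.2 := lt_of_le_of_ne hy.2.2 fun h4 => hya (by rw [h1, ← h4, zero_mul])
      rw [h2.2, h1, mul_pos_iff_of_pos_left h3]
    have hmix : ∀ b ∈ ({s : Par V | Pos s} ×ˢ {z : Vec V | ZP D P h z}), ∀ y ∈ ConeP D W P b.1 b.2,
        MixP D (W.filter fun v => y.1.1 v = 0) P h := by
      intro b hb y hy
      by_cases hl : y.2 = 0
      · have hPZ : P ⊆ W.filter fun v => y.1.1 v = 0 := by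
          intro p hp
          refine Finset.mem_filter.2 ⟨hP hp, ?_⟩
          rw [(hy.1.2.1 p hp).1, hl, zero_mul]
        have hZW : (W.filter fun v => y.1.1 v = 0) ⊂ W := by
          refine Finset.ssubset_iff_subset_ne.2 ⟨Finset.filter_subset _ _, fun he => hy.2.1 ?_⟩
          refine cone_zero hP hJ hy.1 (fun v hv => ?_) hl
          rw [← he, Finset.mem_filter] at hv
          exact hv.2
        have hsub : (W.filter fun v => y.1.1 v = 0) \ P ⊆ W \ P := Finset.sdiff_subset_sdiff hZW.1 (Finset.Subset.refl _)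
        refine ih _ hPZ ?_ (fun Z hZ => hMain Z (hZ.trans hsub)) (fun Y hY => hg Y (hY.trans hsub))
        have h1 := Finset.card_lt_card hZW
        rw [Finset.card_sdiff_of_subset hPZ]
        rw [Finset.card_sdiff_of_subset hP] at hn
        have h2 := Finset.card_le_card hPZ
        omega
      · have hdis : Disjoint (W.filter fun v => y.1.1 v = 0) P := by
          rw [Finset.disjoint_left]
          intro v hv hvP
          rw [Finset.mem_filter] at hv
          have h1 := (hy.1.2.1 v hvP).1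
          rw [hv.2] at h1
          rcases mul_eq_zero.1 h1.symm with h2 | h2
          · exact hl h2
          · exact (hb.2.1 v hvP).1 h2
        refine (mixP_iff_mix hdis).2 (hMain _ ?_)
        intro v hv
        exact Finset.mem_sdiff.2 ⟨(Finset.mem_filter.1 hv).1, fun h' => (Finset.disjoint_left.1 hdis) hv h'⟩
    have key := LAP_const hD hP hBc hB ⟨c, hc⟩ hsgn hmix (hR_reachP c)
      (fun b _ => coneP_ne (by have := hfr b.1 b.2; omega))
      (fun b hb y hy y' hy' => fibP_const hD hP (hB b hb).1 (hB b hb).2 ⟨c, hc⟩ (hsgn b hb) (hmix b hb) (hR_reachP c)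
        (hfr b.1 b.2) hy hy')
    obtain ⟨r, hr⟩ := hXne
    have hrW : r ∈ W := (Finset.mem_sdiff.1 hr).1
    have hreal : ∀ c, AdmP D W P h c → ∃ (s : Par V) (x : Vec V), Pos s ∧ x ∈ K D W r s ∧ Pat W c x ∧ ZP D P h x := by
      intro c hc
      obtain ⟨s, hs, x, hx, hp⟩ := realise hrW hc.1
      refine ⟨s, x, hs, hx, hp, ?_⟩
      have h1 := ZP_of_pat hP hs hx hp
      refine ⟨fun v hv => ?_, fun a b hab => ?_⟩
      · have h2 := h1.1 v hv
        rw [hc.2 v hv (hP hv)] at h2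
        exact h2
      · have hca := hc.2 a hab.2.1 (hP hab.2.1)
        have hcb := hc.2 b hab.2.2.1 (hP hab.2.2.1)
        have h2 := h1.2 a b ⟨hab.1, hab.2.1, hab.2.2.1, by rw [hca, hcb]; exact hab.2.2.2⟩
        rw [hca] at h2
        exact h2
    obtain ⟨s, x, hs, hx, hp, hz⟩ := hreal c hc
    obtain ⟨s', x', hs', hx', hp', hz'⟩ := hreal c' hc'
    have h1 := key (s, x) ⟨hs, hz⟩ (s', x') ⟨hs', hz'⟩ (x, 1) (cone_of_pat hx) (x', 1) (cone_of_pat hx')
    exact h1.1 (fun d hd => ReflTransGen.single (stepP_of_cls hc hp hd r)) c' ⟨hc', fun v hv _ => (hp' v hv).2⟩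

/-- (P1): pinned systems with positive slack have connected extension spaces -/
theorem P1 (hD : Ori D) (hPW : P ⊆ W) (hh : Val D P h) (hMain : ∀ Z ⊆ W \ P, Mix D Z ∅)
    (hg : ∀ Y ⊆ W \ P, Y.Nonempty → eN D (P ∪ Y) + 1 ≤ eN D P + 2 * Y.card) : MixP D W P h :=
  P1_aux hD hh _ W hPW le_rfl hMain hg

theorem clsP_smul {x : Vec V} {t : ℝ} (ht : 0 < t) {d : V → Bool} : ClsP D W A h (t • x) d ↔ ClsP D W A h x d := by
  unfold ClsP
  simp only [Prod.smul_fst, Pi.smul_apply, smul_eq_mul, mul_ne_zero_iff, mul_pos_iff_of_pos_left ht]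
  simp [ht.ne']

theorem sol_zero_change {s : Par V} {z z' : Vec V} {x : Vec V} (hx : ((x, 0) : Vec V × ℝ) ∈ Sol D W P s z) :
    ((x, 0) : Vec V × ℝ) ∈ Sol D W P s z' := by
  rw [mem_Sol] at hx ⊢
  refine ⟨hx.1, fun p hp => ?_, hx.2.2⟩
  have := hx.2.1 p hp
  simpa using this

/-- (T): a proper tight subset -/
theorem T (hD : Ori D) (hne : P.Nonempty) (hPW : P ⊂ W) (ht : eN D P + 1 = 2 * P.card)
    (hs : ∀ Y ⊆ W, Y.Nonempty → eN D Y + 1 ≤ 2 * Y.card) (hMain : ∀ Z, Z ⊂ W → Mix D Z ∅) : Mix D W ∅ := by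
  rcases conn_or_split D W with hconn | ⟨A, B, hU, hdj, hA, hB, hno⟩
  swap
  · have hAs : A ⊂ W := by
      refine Finset.ssubset_iff_subset_ne.2 ⟨hU ▸ Finset.subset_union_left, fun he => ?_⟩
      obtain ⟨b, hb⟩ := hB
      have : b ∈ A := by rw [he, ← hU]; exact Finset.mem_union_right _ hb
      exact (Finset.disjoint_left.1 hdj) this hb
    have hBs : B ⊂ W := by
      refine Finset.ssubset_iff_subset_ne.2 ⟨hU ▸ Finset.subset_union_right, fun he => ?_⟩
      obtain ⟨a, ha⟩ := hA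
      have : a ∈ B := by rw [he, ← hU]; exact Finset.mem_union_left _ ha
      exact (Finset.disjoint_left.1 hdj) ha this
    exact mix_of_split hU hdj hno (hMain A hAs) (hMain B hBs)
  have hP : P ⊆ W := hPW.1
  have hWne : W.Nonempty := hne.mono hP
  have hP2 : 2 ≤ P.card := by
    by_contra hlt
    have h1 : P.card = 1 := by have := hne.card_pos; omega
    obtain ⟨v, rfl⟩ := Finset.card_eq_one.1 h1
    rw [eN_single hD] at ht
    simp at ht
  have hJ : ∀ A ⊆ W \ P, A.Nonempty → ∃ e ∈ D, (e.1 ∈ A ∧ e.2 ∈ W \ A) ∨ (e.1 ∈ W \ A ∧ e.2 ∈ A) := by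
    intro A hA hAne
    have hAW : A ⊆ W := hA.trans Finset.sdiff_subset
    refine hconn A (W \ A) (Finset.union_sdiff_of_subset hAW) Finset.disjoint_sdiff hAne ?_
    obtain ⟨p, hp⟩ := hne
    exact ⟨p, Finset.mem_sdiff.2 ⟨hP hp, fun h' => (Finset.mem_sdiff.1 (hA h')).2 hp⟩⟩
  have hW1 := hs W (Finset.Subset.refl _) hWne
  have hfr : ∀ (s : Par V) (z : Vec V), 1 ≤ Module.finrank ℝ (Sol D W P s z) := by
    intro s z
    have h1 := finrank_Sol (D := D) hP s z
    omega
  have hZc : IsPreconnected {z : Vec V | ZX D P z} := ZX_preconnected hD hne (hMain P hPW)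
  have hBc : IsPreconnected ({s : Par V | Pos s} ×ˢ {z : Vec V | ZX D P z}) := pos_preconnected.prod hZc
  have hB : ∀ b ∈ ({s : Par V | Pos s} ×ˢ {z : Vec V | ZX D P z}), Pos b.1 ∧ ZX D P b.2 := fun b hb => hb
  let h : V → Bool := fun _ => true
  have hcol : ∃ c, AdmP D W ∅ h c := by
    obtain ⟨c, hc⟩ := exists_val hD hs
    exact ⟨c, hc, by simp⟩
  have hsgn : ∀ (s : Par V) (z : Vec V), ∀ y ∈ ConeP D W P s z,
      ∀ a ∈ (∅ : Finset V), a ∈ W → y.1.1 a ≠ 0 → (h a = true ↔ 0 < y.1.1 a) := by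
    intro s z y _ a ha
    simp at ha
  have hmix : ∀ (s : Par V) (z : Vec V), ZX D P z → ∀ y ∈ ConeP D W P s z,
      MixP D (W.filter fun v => y.1.1 v = 0) ∅ h := by
    intro s z hz y hy
    refine mixP_empty.2 (hMain _ ?_)
    refine Finset.ssubset_iff_subset_ne.2 ⟨Finset.filter_subset _ _, fun he => ?_⟩
    have h0 : ∀ v ∈ W, y.1.1 v = 0 := fun v hv => by
      rw [← he, Finset.mem_filter] at hv
      exact hv.2
    by_cases hl : y.2 = 0
    · exact hy.2.1 (cone_zero hP hJ hy.1 h0 hl)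
    · obtain ⟨v, hv⟩ := hz.1
      obtain ⟨w, hw, hwv⟩ := Finset.exists_mem_ne (by omega : 1 < P.card) v
      have h1 := (hy.1.2.1 w hw).1
      rw [h0 w (hP hw)] at h1
      rcases mul_eq_zero.1 h1.symm with h2 | h2
      · exact hl h2
      · exact hv w hw hwv h2
  have hcard : eN D W + 2 * P.card ≤ eN D P + 2 * W.card := by omega
  have hfib : ∀ (R : (V → Bool) → Prop), (∀ c c', StepP D W ∅ h c c' → (R c ↔ R c')) →
      ∀ b ∈ ({s : Par V | Pos s} ×ˢ {z : Vec V | ZX D P z}), ∀ y ∈ ConeP D W P b.1 b.2, ∀ y' ∈ ConeP D W P b.1 b.2,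
      ((∀ d, ClsP D W ∅ h y.1 d → R d) ↔ (∀ d, ClsP D W ∅ h y'.1 d → R d)) := by
    intro R hR b hb y hy y' hy'
    by_cases h2 : 2 ≤ Module.finrank ℝ (Sol D W P b.1 b.2)
    · exact fibP_const hD hP hb.1 hb.2 hcol (hsgn b.1 b.2) (hmix b.1 b.2 hb.2) hR h2 hy hy'
    have h1 : Module.finrank ℝ (Sol D W P b.1 b.2) = 1 := by
      have := hfr b.1 b.2
      omega
    have hy0 : (⟨y, hy.1⟩ : Sol D W P b.1 b.2) ≠ 0 := fun h => hy.2.1 (congrArg Subtype.val h)
    obtain ⟨t, ht⟩ := (finrank_eq_one_iff_of_nonzero' (⟨y, hy.1⟩ : Sol D W P b.1 b.2) hy0).1 h1 ⟨y', hy'.1⟩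
    have ht' : t • y = y' := congrArg Subtype.val ht
    have ht0 : t ≠ 0 := by
      rintro rfl
      rw [zero_smul] at ht'
      exact hy'.2.1 ht'.symm
    have ht1 : y'.1 = t • y.1 := by rw [← ht']; rfl
    have ht2 : y'.2 = t * y.2 := by rw [← ht']; rfl
    rw [ht1]
    rcases lt_or_gt_of_ne ht0 with hneg | hpos
    swap
    · simp only [clsP_smul hpos]
    -- now `y.2 = 0`
    have hl : y.2 = 0 := by
      have h3 := hy.2.2
      have h4 := hy'.2.2
      rw [ht2] at h4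
      by_contra h5
      have h6 : 0 < y.2 := lt_of_le_of_ne h3 (Ne.symm h5)
      have := mul_neg_of_neg_of_pos hneg h6
      linarith
    have hyx : y = (y.1, 0) := Prod.ext rfl hl
    have hx0 : y.1 ≠ 0 := fun h5 => hy.2.1 (by rw [hyx, h5]; rfl)
    have hxS : ((y.1, 0) : Vec V × ℝ) ∈ Sol D W P b.1 b.2 := by rw [← hyx]; exact hy.1
    obtain ⟨z', hz', h2'⟩ := odd_functional hP hZc (fun z hz => ZX_neg hz) hcard hb.2 hxS hx0
    have hxS' : ((y.1, 0) : Vec V × ℝ) ∈ Sol D W P b.1 z' := sol_zero_change hxS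
    have hc1 : ((y.1, 0) : Vec V × ℝ) ∈ ConeP D W P b.1 z' := by
      refine ⟨hxS', fun h5 => hx0 ?_, le_refl _⟩
      exact congrArg Prod.fst h5
    have hc2 : ((-y.1, 0) : Vec V × ℝ) ∈ ConeP D W P b.1 z' := by
      refine ⟨?_, fun h5 => hx0 ?_, le_refl _⟩
      · have := (Sol D W P b.1 z').neg_mem hxS'
        have e : -((y.1, 0) : Vec V × ℝ) = (-y.1, 0) := by
          rw [Prod.neg_mk, neg_zero]
        rwa [e] at this
      · have := congrArg Prod.fst h5
        exact neg_eq_zero.1 this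
    have h6 := fibP_const hD hP hb.1 hz' hcol (hsgn b.1 z') (hmix b.1 z' hz') hR h2' hc1 hc2
    have e : t • y.1 = (-t) • (-y.1) := by simp
    rw [e]
    have h7 : 0 < -t := by linarith
    simp only [clsP_smul h7]
    exact h6
  refine (mixP_empty (h := h)).1 ?_
  intro c c' hc hc'
  have key := LAP_const hD hP hBc hB hcol (fun b _ => hsgn b.1 b.2) (fun b hb => hmix b.1 b.2 hb.2) (hR_reachP c)
    (fun b _ => coneP_ne (hfr b.1 b.2)) (hfib _ (hR_reachP c))
  obtain ⟨r, hr⟩ := hWne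
  obtain ⟨s, hs', x, hx, hp⟩ := realise hr hc.1
  obtain ⟨s', hs'', x', hx', hp'⟩ := realise hr hc'.1
  have h1 := key (s, x) ⟨hs', ZX_of_ZP hne (ZP_of_pat hP hs' hx hp)⟩ (s', x')
    ⟨hs'', ZX_of_ZP hne (ZP_of_pat hP hs'' hx' hp')⟩ (x, 1) (cone_of_pat hx) (x', 1) (cone_of_pat hx')
  exact h1.1 (fun d hd => ReflTransGen.single (stepP_of_cls hc hp hd r)) c' ⟨hc', fun v hv _ => (hp' v hv).2⟩

end

end Pool.Agent.MP_784a73_co
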